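import Pool.Agent.Helper446.CB.Cl


namespace Pool.Agent.Helper446.CB.Ad

open Pool.Agent.Helper446.Defs Pool.Agent.Helper446.RE

section Code

/-- One step of the block decoder. -/
def step (s : ℕ × List ℕ) (b : Bool) : ℕ × List ℕ :=
  cond b (0, s.2 ++ [s.1]) (s.1 + 1, s.2)

/-- The block decoder. -/
def st (σ : List Bool) : ℕ × List ℕ := σ.foldl step (0, [])

theorem st_snoc (σ : List Bool) (b : Bool) : st (σ ++ [b]) = step (st σ) b := by
  simp [st, List.foldl_append]

theorem st_comp : Computable st := by
  refine list_foldl (f := fun σ : List Bool => σ) (g := fun _ => ((0 : ℕ), ([] : List ℕ)))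
    (h := fun _ y => step y.1 y.2) (by fun_prop) (by fun_prop) ?_
  show Computable fun x : List Bool × ((ℕ × List ℕ) × Bool) =>
    cond x.2.2 ((0 : ℕ), x.2.1.2 ++ [x.2.1.1]) (x.2.1.1 + 1, x.2.1.2)
  fun_prop

/-- Initial segments of sequences of numbers. -/
def sf (f : ℕ → ℕ) (n : ℕ) : List ℕ := (List.range n).map f

theorem sf_length (f : ℕ → ℕ) (n : ℕ) : (sf f n).length = n := by simp [sf]

theorem sf_succ (f : ℕ → ℕ) (n : ℕ) : sf f (n + 1) = sf f n ++ [f n] := by
  simp [sf, List.range_succ]

theorem sf_getElem? (f : ℕ → ℕ) {n i : ℕ} (h : i < n) : (sf f n)[i]? = some (f i) := by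
  simp [sf, h]

/-- The encoder: number of the current block and position in it. -/
def run (f : ℕ → ℕ) : ℕ → ℕ × ℕ
  | 0 => (0, 0)
  | n + 1 => if (run f n).2 = f (run f n).1 then ((run f n).1 + 1, 0)
      else ((run f n).1, (run f n).2 + 1)

/-- The infinite concatenation of the blocks `0 ^ f(j) 1`. -/
def enc (f : ℕ → ℕ) (n : ℕ) : Bool := decide ((run f n).2 = f (run f n).1)

theorem st_enc (f : ℕ → ℕ) (n : ℕ) :
    st (seg (enc f) n) = ((run f n).2, sf f (run f n).1) := by
  induction n with
  | zero => rfl
  | succ n ih =>
    rw [seg_succ, st_snoc, ih]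
    by_cases h : (run f n).2 = f (run f n).1
    · have h1 : enc f n = true := by simp [enc, h]
      have h2 : run f (n + 1) = ((run f n).1 + 1, 0) := by rw [run, if_pos h]
      rw [h1, h2, sf_succ]
      simp only [step, cond_true]
      rw [h]
    · have h1 : enc f n = false := by simp [enc, h]
      have h2 : run f (n + 1) = ((run f n).1, (run f n).2 + 1) := by rw [run, if_neg h]
      rw [h1, h2]
      rfl

theorem run_le (f : ℕ → ℕ) (n : ℕ) : (run f n).1 ≤ n := by
  induction n with
  | zero => exact le_rfl
  | succ n ih =>
    rw [run]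
    split_ifs
    · exact Nat.succ_le_succ ih
    · exact ih.trans (Nat.le_succ n)

theorem run_congr {f g : ℕ → ℕ} {J : ℕ} (h : ∀ j < J, f j = g j) : ∀ n ≤ J, run f n = run g n := by
  intro n
  induction n with
  | zero => intro _; rfl
  | succ n ih =>
    intro hn
    have h1 := ih (by omega)
    have h2 := run_le g n
    rw [run, run, h1, h _ (by omega)]

theorem enc_congr {f g : ℕ → ℕ} {J : ℕ} (h : ∀ j < J, f j = g j) :
    seg (enc f) J = seg (enc g) J := by
  rw [seg_eq_iff]
  intro i hi
  unfold enc
  have h2 := run_le g i
  rw [run_congr h i hi.le, h _ (by omega)]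

theorem run_hit (f : ℕ → ℕ) (J : ℕ) : ∃ n, run f n = (J, 0) := by
  induction J with
  | zero => exact ⟨0, rfl⟩
  | succ J ih =>
    obtain ⟨n, hn⟩ := ih
    have h1 : ∀ k, k ≤ f J → run f (n + k) = (J, k) := by
      intro k
      induction k with
      | zero => intro _; exact hn
      | succ k ihk =>
        intro hk
        have h2 := ihk (by omega)
        rw [← add_assoc, run, h2, if_neg (by simp only; omega)]
    refine ⟨n + f J + 1, ?_⟩
    rw [run, h1 _ le_rfl, if_pos rfl]

theorem enc_inj {f g : ℕ → ℕ} (h : enc f = enc g) : f = g := by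
  funext J
  obtain ⟨n, hn⟩ := run_hit f (J + 1)
  have h1 := st_enc f n
  have h2 := st_enc g n
  rw [h, h2, hn] at h1
  have h3 : sf g (run g n).1 = sf f (J + 1) := (Prod.ext_iff.1 h1).2
  have h4 := congrArg List.length h3
  rw [sf_length, sf_length] at h4
  rw [h4] at h3
  have h5 := congrArg (fun l : List ℕ => l[J]?) h3
  simp only [sf_getElem? _ (Nat.lt_succ_self J), Option.some.injEq] at h5
  exact h5.symm

/-- Decoded list and current count. -/
def dl (y : ℕ → Bool) (n : ℕ) : List ℕ := (st (seg y n)).2
def ct (y : ℕ → Bool) (n : ℕ) : ℕ := (st (seg y n)).1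

theorem dl_true {y : ℕ → Bool} {n : ℕ} (h : y n = true) :
    dl y (n + 1) = dl y n ++ [ct y n] ∧ ct y (n + 1) = 0 := by
  unfold dl ct
  rw [seg_succ, st_snoc, h]
  exact ⟨rfl, rfl⟩

theorem dl_false {y : ℕ → Bool} {n : ℕ} (h : y n = false) :
    dl y (n + 1) = dl y n ∧ ct y (n + 1) = ct y n + 1 := by
  unfold dl ct
  rw [seg_succ, st_snoc, h]
  exact ⟨rfl, rfl⟩

theorem dl_mono (y : ℕ → Bool) {m n : ℕ} (h : m ≤ n) : dl y m <+: dl y n := by
  induction n, h using Nat.le_induction with
  | base => exact List.prefix_rfl
  | succ n _ ih =>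
    cases hy : y n with
    | true => rw [(dl_true hy).1]; exact ih.trans (List.prefix_append _ _)
    | false => rw [(dl_false hy).1]; exact ih

theorem dl_gap {y : ℕ → Bool} {n m : ℕ} (hnm : n ≤ m) (h : ∀ k, n ≤ k → k < m → y k = false) :
    dl y m = dl y n ∧ ct y m = ct y n + (m - n) := by
  induction m, hnm using Nat.le_induction with
  | base => simp
  | succ m hm ih =>
    obtain ⟨h1, h2⟩ := ih fun k hk hk' => h k hk (by omega)
    obtain ⟨h3, h4⟩ := dl_false (h m hm (by omega))
    refine ⟨by rw [h3, h1], ?_⟩
    rw [h4, h2]; omega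

theorem prefix_getElem?' {α : Type} {l m : List α} (h : l <+: m) {i : ℕ} (hi : i < l.length) :
    m[i]? = l[i]? := by
  obtain ⟨t, rfl⟩ := h
  rw [List.getElem?_append_left hi]

theorem exists_enc {y : ℕ → Bool} (hy : ∀ n, ∃ m, n ≤ m ∧ y m = true) : ∃ f, y = enc f := by
  have hlen : ∀ J, ∃ n, J ≤ (dl y n).length := by
    intro J
    induction J with
    | zero => exact ⟨0, Nat.zero_le _⟩
    | succ J ih =>
      obtain ⟨n, hn⟩ := ih
      obtain ⟨m, hm, hym⟩ := hy n
      refine ⟨m + 1, ?_⟩
      have h1 := (dl_mono y hm).length_le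
      rw [(dl_true hym).1, List.length_append, List.length_singleton]
      omega
  choose N hN using hlen
  set f : ℕ → ℕ := fun J => ((dl y (N (J + 1)))[J]?).getD 0 with hf
  have hdl : ∀ n, dl y n = sf f (dl y n).length := by
    intro n
    apply List.ext_getElem?
    intro J
    by_cases hJ : J < (dl y n).length
    · rw [sf_getElem? f hJ]
      have h1 : (dl y (N (J + 1)))[J]? = (dl y n)[J]? := by
        rcases le_total n (N (J + 1)) with h2 | h2
        · exact (prefix_getElem?' (dl_mono y h2) hJ)
        · exact (prefix_getElem?' (dl_mono y h2) (hN (J + 1))).symm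
      simp only [hf]
      rw [h1, List.getElem?_eq_getElem hJ]
      rfl
    · rw [List.getElem?_eq_none (by omega), List.getElem?_eq_none (by rw [sf_length]; omega)]
  refine ⟨f, ?_⟩
  have key : ∀ n, run f n = ((dl y n).length, ct y n) ∧ enc f n = y n := by
    intro n
    have step : ∀ n, run f n = ((dl y n).length, ct y n) →
        run f (n + 1) = ((dl y (n + 1)).length, ct y (n + 1)) ∧ enc f n = y n := by
      intro n hn
      have hnext : ∀ m, dl y m = dl y n → y m = true → f (dl y n).length = ct y m := by
        intro m hm hym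
        have h1 := hdl (m + 1)
        rw [(dl_true hym).1, hm, List.length_append, List.length_singleton, sf_succ, ← hdl n] at h1
        have h2 := List.append_cancel_left h1
        simpa using h2.symm
      cases hyn : y n with
      | true =>
        have h1 := hnext n rfl hyn
        have h2 : (run f n).2 = f (run f n).1 := by rw [hn]; exact h1.symm
        refine ⟨?_, by simp [enc, h2]⟩
        rw [run, if_pos h2, hn, (dl_true hyn).1, (dl_true hyn).2]
        simp
      | false =>
        obtain ⟨m, hm⟩ := hy n
        classical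
        have hex : ∃ m, n ≤ m ∧ y m = true := ⟨m, hm⟩
        obtain ⟨h1, h2⟩ := Nat.find_spec hex
        have h3 : ∀ k, n ≤ k → k < Nat.find hex → y k = false := by
          intro k hk hk'
          have := Nat.find_min hex hk'
          push Not at this
          simpa using this hk
        generalize Nat.find hex = p at h1 h2 h3
        obtain ⟨h4, h5⟩ := dl_gap h1 h3
        have h6 := hnext p h4 h2
        have hpn : p ≠ n := by
          rintro rfl
          rw [hyn] at h2
          exact Bool.noConfusion h2
        have h7 : (run f n).2 ≠ f (run f n).1 := by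
          rw [hn]
          simp only
          omega
        refine ⟨?_, by simp [enc, h7]⟩
        rw [run, if_neg h7, hn, (dl_false hyn).1, (dl_false hyn).2]
    have h0 : ∀ n, run f n = ((dl y n).length, ct y n) := by
      intro n
      induction n with
      | zero => rfl
      | succ n ih => exact (step n ih).1
    exact ⟨h0 n, (step n (h0 n)).2⟩
  funext n
  exact (key n).2.symm

end Code

end Pool.Agent.Helper446.CB.Ad

namespace Pool.Agent.Helper446.CB.Ad

open Pool.Agent.Helper446.Defs Pool.Agent.Helper446.RE

variable {ι : Type} [Primcodable ι]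

theorem bits_comp : Computable fun L : List ℕ => L.map Nat.bodd :=
  (Primrec.list_map Primrec.id (Primrec.nat_bodd.comp Primrec.snd).to₂).to_comp

theorem div2_comp : Computable Nat.div2 := Primrec.nat_div2.to_comp

theorem bits_sf {x : ℕ → Bool} {w : ℕ → ℕ} (J : ℕ) :
    (sf (fun j => Nat.bit (x j) (w j)) J).map Nat.bodd = seg x J := by
  unfold sf seg
  rw [List.map_map]
  apply List.map_congr_left
  intro i _
  simp [Function.comp]

theorem bits_sf' (f : ℕ → ℕ) (J : ℕ) :
    (sf f J).map Nat.bodd = seg (fun j => (f j).bodd) J := by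
  unfold sf seg
  rw [List.map_map]
  rfl

/-- Antiderivatives: every uniformly `Π⁰_{m+3}` family of closed sets is, up to homeomorphism, the
family of derivatives of a uniformly `Π⁰_{m+1}` family of closed sets. -/
theorem antideriv {m : ℕ} {K : ι → Set (ℕ → Bool)} (h : ClF (m + 3) K) :
    ∃ F : ι → Set (ℕ → Bool), ClF (m + 1) F ∧ ∀ i, ∃ e : (ℕ → Bool) → (ℕ → Bool),
      ContinuousOn e (K i) ∧ Set.InjOn e (K i) ∧ deriv (F i) = e '' K i := by
  classical
  obtain ⟨S, hS, hpre, hK⟩ := ClF.tree (m := m + 2) h
  obtain ⟨Q, hQ, hSQ, huniq⟩ := Sig.unique_witness hS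
  -- the condition on lists
  let W : ι → List ℕ → Prop := fun i L => ∀ j < L.length,
    Q ((i, (L.map Nat.bodd).take (j + 1)), ((L[j]?).getD 0).div2)
  have hWpre : ∀ i L L', L <+: L' → W i L' → W i L := by
    intro i L L' hLL hW j hj
    have hlen := hLL.length_le
    have h1 := hW j (by omega)
    have h2 : L'[j]? = L[j]? := prefix_getElem?' hLL hj
    have h3 : (L'.map Nat.bodd).take (j + 1) = (L.map Nat.bodd).take (j + 1) := by
      obtain ⟨t, rfl⟩ := hLL
      rw [List.map_append, List.take_append_of_le_length (by rw [List.length_map]; omega)]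
    rwa [h2, h3] at h1
  let F : ι → Set (ℕ → Bool) := fun i => {y | ∀ n, W i (dl y n)}
  have hF : ClF (m + 1) F := by
    refine ⟨fun i σ => W i (st σ).2, ?_, fun i x => Iff.rfl⟩
    have hst : Computable fun x : ι × List Bool => (st x.2).2 :=
      Computable.snd.comp (st_comp.comp Computable.snd)
    refine Pi.all_lt (p := fun (x : ι × List Bool) j =>
      Q ((x.1, (((st x.2).2).map Nat.bodd).take (j + 1)), ((((st x.2).2)[j]?).getD 0).div2)) ?_
      (f := fun x => ((st x.2).2).length) (Computable.list_length.comp hst)
    have hst' : Computable fun x : (ι × List Bool) × ℕ => (st x.1.2).2 :=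
      hst.comp Computable.fst
    refine Pi.comp (p := Q) hQ (f := fun x : (ι × List Bool) × ℕ =>
      ((x.1.1, (((st x.1.2).2).map Nat.bodd).take (x.2 + 1)),
        ((((st x.1.2).2)[x.2]?).getD 0).div2)) ?_
    refine cpair (cpair (by fun_prop) (ctake (bits_comp.comp hst') (by fun_prop))) ?_
    refine div2_comp.comp ?_
    exact (Computable.option_getD (Computable.list_getElem?.comp hst' Computable.snd)
      (Computable.const 0))
  refine ⟨F, hF, fun i => ?_⟩
  -- witnesses
  let w : (ℕ → Bool) → ℕ → ℕ := fun x j =>
    if h : ∃ w, Q ((i, seg x (j + 1)), w) then h.choose else 0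
  have hw_loc : ∀ x y j, seg x (j + 1) = seg y (j + 1) → w x j = w y j := by
    intro x y j hxy
    simp only [w]
    rw [hxy]
  have hw_eq : ∀ x j v, Q ((i, seg x (j + 1)), v) → w x j = v := by
    intro x j v hv
    have hex : ∃ w, Q ((i, seg x (j + 1)), w) := ⟨v, hv⟩
    simp only [w]
    rw [dif_pos hex]
    exact huniq _ _ _ hex.choose_spec hv
  have hw_spec : ∀ x ∈ K i, ∀ j, Q ((i, seg x (j + 1)), w x j) := by
    intro x hx j
    have h1 := (hK i x).1 hx (j + 1)
    obtain ⟨v, hv⟩ := (hSQ (i, seg x (j + 1))).1 h1
    rw [hw_eq x j v hv]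
    exact hv
  let fx : (ℕ → Bool) → ℕ → ℕ := fun x j => Nat.bit (x j) (w x j)
  let e : (ℕ → Bool) → (ℕ → Bool) := fun x => enc (fx x)
  have hWfx : ∀ x ∈ K i, ∀ J, W i (sf (fx x) J) := by
    intro x hx J j hj
    rw [sf_length] at hj
    have h1 : (sf (fx x) J).map Nat.bodd = seg x J := bits_sf J
    rw [h1, sf_getElem? _ hj, Option.getD_some, seg_take x (by omega)]
    have h2 : (fx x j).div2 = w x j := by simp [fx]
    rw [h2]
    exact hw_spec x hx j
  have hdle : ∀ f n, dl (enc f) n = sf f (run f n).1 := by
    intro f n
    unfold dl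
    rw [st_enc]
  have hseg : ∀ x y n, seg x n = seg y n → seg (e x) n = seg (e y) n := by
    intro x y n hxy
    apply enc_congr
    intro j hj
    simp only [fx]
    rw [hw_loc x y j (seg_mono_eq hxy (by omega)), seg_eq_iff.1 hxy j hj]
  refine ⟨e, ?_, ?_, ?_⟩
  · -- continuity
    apply Continuous.continuousOn
    rw [continuous_def]
    intro U hU
    rw [isOpen_iff] at hU ⊢
    intro x hx
    obtain ⟨n, hn⟩ := hU (e x) hx
    refine ⟨n, fun y hy => hn ?_⟩
    rw [mem_cyl_seg] at hy ⊢
    exact hseg y x n hy
  · -- injectivity
    intro x _ y _ hxy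
    have h1 : fx x = fx y := enc_inj hxy
    funext j
    have h2 := congrArg Nat.bodd (congrFun h1 j)
    simpa [fx] using h2
  · ext y
    rw [mem_deriv_iff]
    constructor
    · rintro ⟨hyF, hylim⟩
      by_cases hones : ∀ n, ∃ m, n ≤ m ∧ y m = true
      · obtain ⟨f, rfl⟩ := exists_enc hones
        set x : ℕ → Bool := fun j => (f j).bodd with hx
        have hWf : ∀ J, W i (sf f J) := by
          intro J
          obtain ⟨n, hn⟩ := run_hit f J
          have h1 : W i (dl (enc f) n) := hyF n
          rw [hdle, hn] at h1
          exact h1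
        have hQf : ∀ j, Q ((i, seg x (j + 1)), (f j).div2) := by
          intro j
          have h1 := hWf (j + 1) j (by rw [sf_length]; omega)
          rw [bits_sf', sf_getElem? _ (Nat.lt_succ_self j), Option.getD_some,
            seg_take _ le_rfl] at h1
          exact h1
        have hxK : x ∈ K i := by
          rw [hK]
          have h1 : ∀ n, S i (seg x (n + 1)) := fun n =>
            (hSQ (i, seg x (n + 1))).2 ⟨_, hQf n⟩
          intro n
          exact hpre i _ _ (seg_prefix x (Nat.le_succ n)) (h1 n)
        refine ⟨x, hxK, ?_⟩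
        show enc (fx x) = enc f
        congr 1
        funext j
        show Nat.bit (x j) (w x j) = f j
        rw [hw_eq x j _ (hQf j), hx]
        exact Nat.bit_bodd_div2 (f j)
      · exfalso
        push Not at hones
        obtain ⟨n0, hn0⟩ := hones
        have hn0' : ∀ m, n0 ≤ m → y m = false := fun m hm => by simpa using hn0 m hm
        set L := dl y n0 with hL
        have hwb : ∀ b : Bool, ∃ wb, ∀ v, Q ((i, L.map Nat.bodd ++ [b]), v) → v = wb := by
          intro b
          by_cases hex : ∃ v, Q ((i, L.map Nat.bodd ++ [b]), v)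
          · obtain ⟨v, hv⟩ := hex
            exact ⟨v, fun v' hv' => huniq _ _ _ hv' hv⟩
          · push Not at hex
            exact ⟨0, fun v hv => absurd hv (hex v)⟩
        choose wb hwb using hwb
        obtain ⟨z, hzF, hzne, hzs⟩ := hylim (n0 + Nat.bit false (wb false) +
          Nat.bit true (wb true) + 1)
        set n := n0 + Nat.bit false (wb false) + Nat.bit true (wb true) + 1 with hn
        have hex : ∃ p, z p = true ∧ n ≤ p := by
          by_contra hcon
          push Not at hcon
          apply hzne
          funext p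
          rcases lt_or_ge p n with hp | hp
          · exact seg_eq_iff.1 hzs p hp
          · rw [hn0' p (by omega)]
            by_contra h1
            have := hcon p (by simpa using h1)
            omega
        obtain ⟨hp1, hp2⟩ := Nat.find_spec hex
        have hp3 : ∀ k, n ≤ k → k < Nat.find hex → z k = false := by
          intro k hk hk'
          have := Nat.find_min hex hk'
          by_contra h1
          exact this ⟨by simpa using h1, hk⟩
        generalize Nat.find hex = p at hp1 hp2 hp3
        have hzn0 : ∀ k, n0 ≤ k → k < p → z k = false := by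
          intro k hk hk'
          rcases lt_or_ge k n with h1 | h1
          · rw [seg_eq_iff.1 hzs k h1]; exact hn0' k hk
          · exact hp3 k h1 hk'
        obtain ⟨h1, h2⟩ := dl_gap (y := z) (n := n0) (m := p) (by omega) hzn0
        have h3 : dl z n0 = L := by
          unfold dl at hL ⊢
          rw [seg_mono_eq hzs (by omega : n0 ≤ n)]
          exact hL.symm
        have h4 : dl z (p + 1) = L ++ [ct z p] := by
          rw [(dl_true hp1).1, h1, h3]
        have h5 : W i (L ++ [ct z p]) := by
          rw [← h4]; exact hzF (p + 1)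
        have h6 := h5 L.length (by simp)
        have h7 : ((L ++ [ct z p])[L.length]?).getD 0 = ct z p := by simp
        have h8 : ((L ++ [ct z p]).map Nat.bodd).take (L.length + 1) =
            L.map Nat.bodd ++ [(ct z p).bodd] := by
          rw [List.map_append, List.map_singleton, List.take_of_length_le (by simp)]
        rw [h7, h8] at h6
        have h9 := hwb _ _ h6
        have h10 := Nat.bit_bodd_div2 (ct z p)
        rw [h9] at h10
        have h11 : ct z p ≤ Nat.bit false (wb false) + Nat.bit true (wb true) := by
          cases hb : (ct z p).bodd with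
          | false => rw [hb] at h10; omega
          | true => rw [hb] at h10; omega
        omega
    · rintro ⟨x, hx, rfl⟩
      have hexF : ∀ n, W i (dl (e x) n) := by
        intro n
        show W i (dl (enc (fx x)) n)
        rw [hdle]
        exact hWfx x hx _
      refine ⟨hexF, fun n => ?_⟩
      refine ⟨fun k => if k < n then e x k else false, ?_, ?_, ?_⟩
      · -- in F
        set z : ℕ → Bool := fun k => if k < n then e x k else false with hz
        have hzs : seg z n = seg (e x) n := by
          rw [seg_eq_iff]; intro k hk; simp [hz, hk]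
        intro k
        rcases le_total k n with h1 | h1
        · have : dl z k = dl (e x) k := by
            unfold dl; rw [seg_mono_eq hzs h1]
          rw [this]; exact hexF k
        · obtain ⟨h2, -⟩ := dl_gap (y := z) h1 (fun j hj _ => by
            simp [hz, not_lt.2 hj])
          have : dl z n = dl (e x) n := by
            unfold dl; rw [hzs]
          rw [h2, this]; exact hexF n
      · -- different
        intro hcon
        obtain ⟨p, hp⟩ := run_hit (fx x) (n + 1)
        have h1 : dl (e x) p = sf (fx x) (n + 1) := by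
          show dl (enc (fx x)) p = _
          rw [hdle, hp]
        have h2 : n ≤ p := by
          have := run_le (fx x) p
          rw [hp] at this
          simp only at this
          omega
        obtain ⟨h3, -⟩ := dl_gap (y := e x) h2 (fun j hj _ => by
          rw [← hcon]; simp [not_lt.2 hj])
        have h4 : dl (e x) n = sf (fx x) (run (fx x) n).1 := hdle _ _
        rw [h1, h4] at h3
        have h5 := congrArg List.length h3
        rw [sf_length, sf_length] at h5
        have h6 := run_le (fx x) n
        omega
      · rw [seg_eq_iff]; intro k hk; simp [hk]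

end Pool.Agent.Helper446.CB.Ad
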