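import Mathlib
import Pool.Agent.Helper446.Defs

/-!
The lattice of `Π⁰₁` classes, Cantor–Bendixson derivatives and ranks, definability, invariance,
computable ordinals.
-/

namespace Pool.Agent.Helper446.CB

open Pool.Agent.Helper446.Defs

/-- `D(P)`: the set `P` with its isolated points removed. -/
def deriv (P : Set (ℕ → Bool)) : Set (ℕ → Bool) :=
  {x | x ∈ P ∧ ∀ U : Set (ℕ → Bool), IsOpen U → U ∩ P ≠ {x}}

/-- The iterated Cantor–Bendixson derivative `D^α(P)`: `D^0(P) = P`, `D^{β+1}(P) = D(D^β(P))` and
`D^α(P) = ⋂_{β<α} D^β(P)` for limit `α`. -/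
noncomputable def cb (P : Set (ℕ → Bool)) (α : Ordinal.{0}) : Set (ℕ → Bool) :=
  Ordinal.limitRecOn α P (fun _ Q => deriv Q) (fun o _ ih => ⋂ β, ⋂ h : β < o, ih β h)

@[simp] theorem cb_zero (P : Set (ℕ → Bool)) : cb P 0 = P := Ordinal.limitRecOn_zero _ _ _

theorem cb_succ (P : Set (ℕ → Bool)) (α : Ordinal.{0}) : cb P (α + 1) = deriv (cb P α) := by
  exact Ordinal.limitRecOn_add_one (motive := fun _ => Set (ℕ → Bool)) _ _ _ _

theorem cb_limit (P : Set (ℕ → Bool)) {α : Ordinal.{0}} (h : Order.IsSuccLimit α) :
    cb P α = ⋂ β, ⋂ _ : β < α, cb P β :=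
  Ordinal.limitRecOn_limit (motive := fun _ => Set (ℕ → Bool)) _ _ _ _ h

/-- `P` is countable and `α` is the least ordinal with `D^{α+1}(P) = ∅`. -/
def HasRank (P : Set (ℕ → Bool)) (α : Ordinal.{0}) : Prop :=
  P.Countable ∧ IsLeast {β : Ordinal.{0} | cb P (β + 1) = ∅} α

/-- The lattice of all `Π⁰₁` classes, ordered by inclusion. -/
abbrev EPi : Type := {P : Set (ℕ → Bool) // IsPi01 P}

/-- The family of countable `Π⁰₁` classes of rank `α`. -/
def R (α : Ordinal.{0}) : Set EPi := {P | HasRank P.1 α}

/-- The lattice of `Π⁰₁` classes as a structure for the first-order language `{≤}`. -/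
instance : FirstOrder.Language.order.Structure EPi := FirstOrder.Language.orderStructure EPi

/-- A family of `Π⁰₁` classes is definable if it is the set of solutions of a first-order formula
with one free variable in the language `{≤}`, without parameters. -/
def IsDefinable (S : Set EPi) : Prop :=
  ∃ φ : FirstOrder.Language.order.Formula (Fin 1), S = {P | φ.Realize fun _ => P}

/-- A family of `Π⁰₁` classes is invariant if it is mapped onto itself by every automorphism. -/
def IsInvariant (S : Set EPi) : Prop := ∀ Φ : EPi ≃o EPi, Φ '' S = S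

/-- `α` is a computable ordinal: the order type of a computable well-ordering of a computable set
of natural numbers. -/
def IsComputableOrdinal (α : Ordinal.{0}) : Prop :=
  ∃ (A : Set ℕ) (r : ℕ → ℕ → Prop), ComputablePred (fun n => n ∈ A) ∧
    ComputablePred (fun p : ℕ × ℕ => r p.1 p.2) ∧
    ∃ _ : IsWellOrder A (fun a b => r a b), Ordinal.type (fun a b : A => r a b) = α

/-- `ω₁^CK`: the least ordinal that is not computable. -/
noncomputable def omegaCK : Ordinal.{0} := sInf {α : Ordinal.{0} | ¬ IsComputableOrdinal α}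

end Pool.Agent.Helper446.CB
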