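import Pool.Agent.Helper446.CB.Deriv

/-!
`Π⁰₁` classes: basic closure properties.
-/

namespace Pool.Agent.Helper446.CB

open Encodable Pool.Agent.Helper446.RE Pool.Agent.Helper446.Defs

/-- A class is `Π⁰₁` iff it is the complement of a c.e. open set. -/
theorem isPi01_iff {P : Set (ℕ → Bool)} :
    IsPi01 P ↔ ∃ W : Set (List Bool), REPred (fun σ => σ ∈ W) ∧ P = {x | ∀ n, seg x n ∉ W} := by
  constructor
  · rintro ⟨T, hT, hpre, rfl⟩
    refine ⟨Tᶜ, hT.not.to_re, ?_⟩
    ext x
    simp
  · rintro ⟨W, hW, rfl⟩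
    obtain ⟨q, hq, hWq⟩ := re_iff.1 hW
    have hq2 : Computable fun x : List Bool × ℕ => q x.1 x.2 := hq
    refine ⟨{σ | ∀ i < σ.length + 1, ∀ t < σ.length + 1, q (σ.take i) t = false}, ?_, ?_, ?_⟩
    · have hqc : Computable fun x : (List Bool × ℕ) × ℕ => q (x.1.1.take x.1.2) x.2 :=
        hq2.comp (g := fun x : (List Bool × ℕ) × ℕ => (x.1.1.take x.1.2, x.2))
          (cpair (ctake (by fun_prop) (by fun_prop)) (by fun_prop))
      refine cp_of_re ?_ ?_
      · refine all_lt (p := fun (σ : List Bool) i => ∀ t < σ.length + 1,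
          q (σ.take i) t = false) ?_ (by fun_prop)
        refine all_lt (p := fun (x : List Bool × ℕ) t => q (x.1.take x.2) t = false) ?_
          (by fun_prop)
        exact RE.eq hqc (by fun_prop)
      · have h1 : REPred fun σ : List Bool => ∃ i, i < σ.length + 1 ∧ ∃ t, t < σ.length + 1 ∧
            q (σ.take i) t ≠ false := by
          refine exN (p := fun (σ : List Bool) i => i < σ.length + 1 ∧ ∃ t, t < σ.length + 1 ∧
            q (σ.take i) t ≠ false) ?_
          refine RE.and (RE.lt (by fun_prop) (by fun_prop)) ?_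
          refine exN (p := fun (x : List Bool × ℕ) t => t < x.1.length + 1 ∧
            q (x.1.take x.2) t ≠ false) ?_
          exact RE.and (RE.lt (by fun_prop) (by fun_prop)) (RE.ne hqc (by fun_prop))
        refine h1.of_eq fun σ => ?_
        simp only [Set.mem_ofPred_eq]
        push Not
        rfl
    · rintro σ τ ⟨ρ, rfl⟩ h i hi t ht
      have h1 := h i (by rw [List.length_append]; omega) t (by rw [List.length_append]; omega)
      rwa [List.take_append_of_le_length (by omega)] at h1
    · ext x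
      simp only [Set.mem_ofPred_eq, seg_length]
      constructor
      · intro h n i hi t ht
        rw [seg_take x (by omega)]
        have := h i
        rw [hWq] at this
        push Not at this
        exact Bool.eq_false_iff.2 (this t)
      · intro h i
        rw [hWq]
        push Not
        intro t
        have := h (max i t) i (by omega) t (by omega)
        rw [seg_take x (le_max_left _ _)] at this
        simp [this]

theorem IsPi01.inter {P Q : Set (ℕ → Bool)} (hP : IsPi01 P) (hQ : IsPi01 Q) :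
    IsPi01 (P ∩ Q) := by
  rw [isPi01_iff] at *
  obtain ⟨W, hW, rfl⟩ := hP
  obtain ⟨V, hV, rfl⟩ := hQ
  refine ⟨W ∪ V, RE.or hW hV, ?_⟩
  ext x
  simp only [Set.mem_inter_iff, Set.mem_ofPred_eq, Set.mem_union, not_or]
  exact ⟨fun h n => ⟨h.1 n, h.2 n⟩, fun h => ⟨fun n => (h n).1, fun n => (h n).2⟩⟩

theorem IsPi01.union {P Q : Set (ℕ → Bool)} (hP : IsPi01 P) (hQ : IsPi01 Q) :
    IsPi01 (P ∪ Q) := by
  obtain ⟨T, hT, hpT, rfl⟩ := hP
  obtain ⟨S, hS, hpS, rfl⟩ := hQ
  refine ⟨T ∪ S, ?_, ?_, ?_⟩
  · refine cp_of_re (RE.or hT.to_re hS.to_re) ?_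
    refine (RE.and hT.not.to_re hS.not.to_re).of_eq fun σ => ?_
    exact not_or.symm
  · rintro σ τ h (h1 | h1)
    exacts [Or.inl (hpT _ _ h h1), Or.inr (hpS _ _ h h1)]
  · ext x
    simp only [Set.mem_union, Set.mem_ofPred_eq]
    constructor
    · rintro (h | h) n
      exacts [Or.inl (h n), Or.inr (h n)]
    · intro h
      by_contra hcon
      push Not at hcon
      obtain ⟨⟨n, hn⟩, m, hm⟩ := hcon
      rcases h (max n m) with h1 | h1
      · exact hn (hpT _ _ (seg_prefix x (le_max_left _ _)) h1)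
      · exact hm (hpS _ _ (seg_prefix x (le_max_right _ _)) h1)


theorem IsPi01.univ : IsPi01 Set.univ :=
  ⟨Set.univ, (RE.cp_eq (Computable.const ()) (Computable.const ())).of_eq (fun σ => by simp),
    fun _ _ _ _ => trivial, by ext x; simp⟩

theorem IsPi01.empty : IsPi01 ∅ :=
  ⟨∅, ((RE.cp_eq (Computable.const ()) (Computable.const ())).not).of_eq (fun σ => by simp),
    fun _ _ _ h => h.elim, by ext x; simp⟩

/-- Clopen sets are `Π⁰₁` classes. -/
theorem IsPi01.of_clopen {C : Set (ℕ → Bool)} (hC : IsClopen C) : IsPi01 C := by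
  classical
  obtain ⟨n, hn⟩ := clopen_iff.1 hC
  rw [isPi01_iff]
  refine ⟨{σ | σ ∈ (allStr n).filter (fun σ => σ ∉ Ext C)}, ?_, ?_⟩
  · exact RE.mem_list (f := fun σ => σ) (l := fun _ => (allStr n).filter (fun σ => σ ∉ Ext C))
      (by fun_prop) (Computable.const _)
  · ext x
    simp only [Set.mem_ofPred_eq, List.mem_filter, mem_allStr, seg_length, decide_eq_true_eq,
      not_and, not_not]
    constructor
    · intro hx m _
      exact seg_mem_ext hx m
    · intro h
      obtain ⟨y, hy, hyx⟩ := h n rfl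
      rw [seg_length] at hyx
      exact (hn y x hyx).1 hy

end Pool.Agent.Helper446.CB
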