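import Pool.Agent.Helper446.CB.Hier
import Pool.Agent.Helper446.CB.Pi01

/-!
Uniformly `Π⁰_m` families of closed sets.
-/

namespace Pool.Agent.Helper446.CB

open Encodable Pool.Agent.Helper446.RE Pool.Agent.Helper446.Defs

/-- A uniformly `Π⁰_m` family of closed sets. -/
def ClF (m : ℕ) {ι : Type} [Primcodable ι] (K : ι → Set (ℕ → Bool)) : Prop :=
  ∃ T : ι → List Bool → Prop, (Pi m fun x : ι × List Bool => T x.1 x.2) ∧
    ∀ i x, x ∈ K i ↔ ∀ n, T i (seg x n)

/-- A `Π⁰_m` closed set. -/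
def Cl (m : ℕ) (K : Set (ℕ → Bool)) : Prop := ClF m fun _ : Unit => K

variable {ι κ : Type} [Primcodable ι] [Primcodable κ] {K : ι → Set (ℕ → Bool)} {m : ℕ}

theorem ClF.isClosed (h : ClF m K) (i : ι) : IsClosed (K i) := by
  obtain ⟨T, -, h⟩ := h
  have : K i = {x | ∀ n, T i (seg x n)} := by ext x; exact h i x
  rw [this]
  exact isClosed_of_seg _

theorem Cl.isClosed {K : Set (ℕ → Bool)} (h : Cl m K) : IsClosed K := ClF.isClosed h ()

theorem ClF.comp (h : ClF m K) {f : κ → ι} (hf : Computable f) : ClF m fun k => K (f k) := by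
  obtain ⟨T, hT, h⟩ := h
  exact ⟨fun k σ => T (f k) σ, hT.comp (f := fun x : κ × List Bool => (f x.1, x.2))
    (by fun_prop), fun k x => h (f k) x⟩

theorem ClF.mono {n : ℕ} (h : ClF m K) (hmn : m ≤ n) : ClF n K := by
  obtain ⟨T, hT, h⟩ := h
  exact ⟨T, hT.mono hmn, h⟩

theorem ClF.single (h : ClF m K) (i : ι) : Cl m (K i) :=
  h.comp (f := fun _ : Unit => i) (Computable.const i)

theorem Cl.const {K : Set (ℕ → Bool)} (h : Cl m K) : ClF m fun _ : κ => K :=
  ClF.comp h (f := fun _ : κ => ()) (Computable.const ())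

theorem cl_one_iff {K : Set (ℕ → Bool)} : Cl 1 K ↔ IsPi01 K := by
  rw [isPi01_iff]
  constructor
  · rintro ⟨T, hT, h⟩
    refine ⟨{σ | ¬ T () σ}, ?_, ?_⟩
    · exact RE.comp (pi_one.1 hT) (f := fun σ : List Bool => ((), σ)) (by fun_prop)
    · ext x
      simp only [Set.mem_ofPred_eq, not_not]
      exact h () x
  · rintro ⟨W, hW, rfl⟩
    refine ⟨fun _ σ => σ ∉ W, ?_, fun i x => Iff.rfl⟩
    rw [pi_one]
    simp only [not_not]
    exact RE.comp hW (f := fun x : Unit × List Bool => x.2) (by fun_prop)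

/-- Trees for closed sets: a `Π⁰_{m+1}` closed set is the set of paths through a `Σ⁰_m` tree. -/
theorem ClF.tree (h : ClF (m + 1) K) : ∃ S : ι → List Bool → Prop,
    (Sig m fun x : ι × List Bool => S x.1 x.2) ∧ (∀ i σ τ, σ <+: τ → S i τ → S i σ) ∧
    ∀ i x, x ∈ K i ↔ ∀ n, S i (seg x n) := by
  obtain ⟨T, ⟨q, hq, hT⟩, h⟩ := h
  refine ⟨fun i σ => ∀ k < σ.length + 1, ∀ j < σ.length + 1, q ((i, σ.take k), j), ?_, ?_, ?_⟩
  · refine Sig.all_lt (p := fun (x : ι × List Bool) k => ∀ j < x.2.length + 1,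
      q ((x.1, x.2.take k), j)) ?_ (by fun_prop)
    refine Sig.all_lt (p := fun (x : (ι × List Bool) × ℕ) j => q ((x.1.1, x.1.2.take x.2), j)) ?_
      (by fun_prop)
    refine hq.comp (f := fun x : ((ι × List Bool) × ℕ) × ℕ =>
      ((x.1.1.1, x.1.1.2.take x.1.2), x.2)) ?_
    exact cpair (cpair (by fun_prop) (ctake (by fun_prop) (by fun_prop))) (by fun_prop)
  · rintro i σ τ ⟨ρ, rfl⟩ h1 k hk j hj
    have h2 := h1 k (by rw [List.length_append]; omega) j (by rw [List.length_append]; omega)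
    rwa [List.take_append_of_le_length (by omega)] at h2
  · intro i x
    rw [h]
    have hT' : ∀ n, T i (seg x n) ↔ ∀ j, q ((i, seg x n), j) := by
      intro n
      have := hT (i, seg x n)
      dsimp only at this
      rw [← not_iff_not, this]
      push Not
      rfl
    constructor
    · intro h1 n k hk j _
      rw [seg_length] at hk
      rw [seg_take x (by omega)]
      exact (hT' k).1 (h1 k) j
    · intro h1 n
      rw [hT']
      intro j
      have h2 := h1 (max n j) n (by rw [seg_length]; omega) j (by rw [seg_length]; omega)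
      rwa [seg_take x (le_max_left _ _)] at h2

/-- The set of extendible nodes is `Π⁰_{m+1}`. -/
theorem ClF.ext (h : ClF (m + 1) K) : Pi (m + 1) fun x : ι × List Bool => x.2 ∈ Ext (K x.1) := by
  obtain ⟨T, hT, h⟩ := h
  have h1 : Pi (m + 1) fun x : ι × List Bool => ∀ n, ∃ τ ∈ allStr n,
      ∀ k < (x.2 ++ τ).length + 1, T x.1 ((x.2 ++ τ).take k) := by
    refine Pi.all (p := fun (x : ι × List Bool) n => ∃ τ ∈ allStr n,
      ∀ k < (x.2 ++ τ).length + 1, T x.1 ((x.2 ++ τ).take k)) ?_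
    refine Pi.bex (p := fun (x : (ι × List Bool) × ℕ) (τ : List Bool) =>
      ∀ k < (x.1.2 ++ τ).length + 1, T x.1.1 ((x.1.2 ++ τ).take k)) ?_
      (l := fun x : (ι × List Bool) × ℕ => allStr x.2) (allStr_comp.comp (by fun_prop))
    refine Pi.all_lt (p := fun (x : ((ι × List Bool) × ℕ) × List Bool) k =>
      T x.1.1.1 ((x.1.1.2 ++ x.2).take k)) ?_ (by fun_prop)
    refine hT.comp (f := fun x : (((ι × List Bool) × ℕ) × List Bool) × ℕ =>
      (x.1.1.1.1, (x.1.1.1.2 ++ x.1.2).take x.2)) ?_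
    exact cpair (by fun_prop) (ctake (by fun_prop) (by fun_prop))
  refine h1.of_iff ?_
  rintro ⟨i, σ⟩
  dsimp only
  constructor
  · intro h2
    obtain ⟨x, hx1, hx2⟩ := exists_path (T := {ρ | ∀ k < ρ.length + 1, T i (ρ.take k)}) (by
      rintro σ τ ⟨ρ, rfl⟩ h3 k hk
      have h4 := h3 k (by rw [List.length_append]; omega)
      rwa [List.take_append_of_le_length (by omega)] at h4) σ (fun n => by
        obtain ⟨τ, h3, h4⟩ := h2 n
        exact ⟨τ, mem_allStr.1 h3, h4⟩)
    refine ⟨x, (h i x).2 fun n => ?_, hx2⟩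
    have := hx1 n n (by rw [seg_length]; omega)
    rwa [seg_take x le_rfl] at this
  · rintro ⟨x, hx, hσ⟩ n
    obtain ⟨τ, hτ⟩ := seg_prefix x (Nat.le_add_right σ.length n)
    rw [hσ] at hτ
    refine ⟨τ, ?_, fun k hk => ?_⟩
    · rw [mem_allStr]
      have := congrArg List.length hτ
      rw [List.length_append, seg_length] at this
      omega
    · rw [hτ] at hk ⊢
      rw [seg_length] at hk
      rw [seg_take x (by omega)]
      exact (h i x).1 hx k

theorem Cl.ext {K : Set (ℕ → Bool)} (h : Cl (m + 1) K) : Pi (m + 1) fun σ => σ ∈ Ext K :=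
  (ClF.ext h).comp (f := fun σ : List Bool => ((), σ)) (by fun_prop)

/-- The derivative of a closed set in terms of splitting nodes. -/
theorem mem_deriv_ext {K : Set (ℕ → Bool)} (hK : IsClosed K) {x : ℕ → Bool} :
    x ∈ deriv K ↔ ∀ n, ∃ τ : List Bool, seg x n <+: τ ∧ τ ++ [false] ∈ Ext K ∧
      τ ++ [true] ∈ Ext K := by
  have key : ∀ y z : ℕ → Bool, ∀ n, y ∈ K → z ∈ K → y ≠ z → seg y n = seg z n →
      ∃ τ : List Bool, seg y n <+: τ ∧ τ ++ [false] ∈ Ext K ∧ τ ++ [true] ∈ Ext K := by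
    intro y z n hy hz hne hs
    classical
    have hex : ∃ k, y k ≠ z k := by
      by_contra hcon
      push Not at hcon
      exact hne (funext hcon)
    obtain ⟨hk1, hk2⟩ : y (Nat.find hex) ≠ z (Nat.find hex) ∧
        ∀ j < Nat.find hex, y j = z j :=
      ⟨Nat.find_spec hex, fun j hj => by simpa using Nat.find_min hex hj⟩
    generalize Nat.find hex = k at hk1 hk2
    have hnk : n ≤ k := by
      by_contra hcon
      push Not at hcon
      exact hk1 (seg_eq_iff.1 hs k hcon)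
    have hseg : seg z k = seg y k := (seg_eq_iff.2 hk2).symm
    have h1 : seg y k ++ [y k] ∈ Ext K := by rw [← seg_succ]; exact seg_mem_ext hy _
    have h2 : seg y k ++ [z k] ∈ Ext K := by rw [← hseg, ← seg_succ]; exact seg_mem_ext hz _
    refine ⟨seg y k, seg_prefix y hnk, ?_⟩
    cases hyk : y k <;> cases hzk : z k <;> simp_all
  rw [mem_deriv_iff]
  constructor
  · rintro ⟨hx, h⟩ n
    obtain ⟨y, hy, hne, hs⟩ := h n
    exact key x y n hx hy (Ne.symm hne) hs.symm
  · intro h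
    have h2 : ∀ n, ∃ y ∈ K, ∃ z ∈ K, y ≠ z ∧ seg y n = seg x n ∧ seg z n = seg x n := by
      intro n
      obtain ⟨τ, hτ, ⟨y, hy, hy2⟩, z, hz, hz2⟩ := h n
      refine ⟨y, hy, z, hz, ?_, ?_, ?_⟩
      · rintro rfl
        simp only [List.length_append, List.length_singleton] at hy2 hz2
        rw [hy2] at hz2
        simp at hz2
      · have h3 := cyl_anti (hτ.trans (List.prefix_append τ [false])) hy2
        rwa [mem_cyl_seg] at h3
      · have h3 := cyl_anti (hτ.trans (List.prefix_append τ [true])) hz2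
        rwa [mem_cyl_seg] at h3
    refine ⟨mem_closed_of_seg hK fun n => ?_, fun n => ?_⟩
    · obtain ⟨y, hy, -, -, -, h3, -⟩ := h2 n
      exact ⟨y, hy, h3⟩
    · obtain ⟨y, hy, z, hz, hne, h3, h4⟩ := h2 n
      by_cases hyx : y = x
      · exact ⟨z, hz, fun h => hne (by rw [hyx, h]), h4⟩
      · exact ⟨y, hy, hyx, h3⟩

theorem ClF.deriv (h : ClF (m + 1) K) : ClF (m + 3) fun i => deriv (K i) := by
  have hE := h.ext
  refine ⟨fun i σ => ∃ τ : List Bool, σ <+: τ ∧ τ ++ [false] ∈ Ext (K i) ∧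
      τ ++ [true] ∈ Ext (K i), ?_, fun i x => mem_deriv_ext (h.isClosed i)⟩
  refine Sig.pi ?_
  refine Sig.ex (p := fun (x : ι × List Bool) (τ : List Bool) => x.2 <+: τ ∧
    τ ++ [false] ∈ Ext (K x.1) ∧ τ ++ [true] ∈ Ext (K x.1)) ?_
  refine Sig.and ?_ (Sig.and ?_ ?_)
  · refine Sig.of_cp ?_
    refine (RE.cp_eq (f := fun x : (ι × List Bool) × List Bool => x.2.take x.1.2.length)
      (g := fun x => x.1.2) (ctake (by fun_prop) (by fun_prop)) (by fun_prop)).of_eq ?_
    intro x
    rw [List.prefix_iff_eq_take]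
    exact eq_comm
  · exact (hE.comp (f := fun x : (ι × List Bool) × List Bool => (x.1.1, x.2 ++ [false]))
      (by fun_prop)).sig
  · exact (hE.comp (f := fun x : (ι × List Bool) × List Bool => (x.1.1, x.2 ++ [true]))
      (by fun_prop)).sig

/-- The complexity of the finite derivatives. -/
theorem Cl.cb_nat {K : Set (ℕ → Bool)} (h : Cl 1 K) (n : ℕ) : Cl (2 * n + 1) (cb K n) := by
  induction n with
  | zero => simpa using h
  | succ n ih =>
    rw [cb_nat_succ]
    exact ClF.deriv (m := 2 * n) ih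

end Pool.Agent.Helper446.CB
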