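import Pool.Agent.Helper446.CB.Cl


namespace Pool.Agent.Helper446.CB.Co

open Pool.Agent.Helper446.Defs Pool.Agent.Helper446.RE

theorem cp_prefix {α : Type} [Primcodable α] {f g : α → List Bool} (hf : Computable f)
    (hg : Computable g) : ComputablePred fun a => f a <+: g a := by
  refine (RE.cp_eq (f := fun a => (g a).take (f a).length) (g := f)
    (ctake hg (by fun_prop)) hf).of_eq ?_
  intro a
  rw [List.prefix_iff_eq_take]
  exact eq_comm

/-- Coding: if `Y` is nowhere dense in `X`, every `Π⁰_{k+3}` closed subset `K` of `Y` is of the form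
`Y ∩ closure (G \ Y)` for a `Π⁰_{k+1}` closed subset `G` of `X`. -/
theorem coding {k : ℕ} {X Y K : Set (ℕ → Bool)} (hXc : IsClosed X)
    (hX1 : Sig (k + 1) fun σ : List Bool => σ ∈ Ext X)
    (hX2 : Pi (k + 1) fun σ : List Bool => σ ∈ Ext X) (hY : Cl (k + 1) Y) (hYX : Y ⊆ X)
    (hK : Cl (k + 3) K) (hKY : K ⊆ Y)
    (hnd : ∀ σ ∈ Ext X, ∃ τ, σ <+: τ ∧ τ ∈ Ext X ∧ τ ∉ Ext Y) :
    ∃ G : Set (ℕ → Bool), Cl (k + 1) G ∧ G ⊆ X ∧ Y ∩ closure (G \ Y) = K := by
  classical
  obtain ⟨S, hS, hSpre, hSK⟩ := ClF.tree (m := k + 2) hK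
  have hS' : Sig (k + 2) fun σ : List Bool => S () σ :=
    hS.comp (f := fun σ : List Bool => ((), σ)) (by fun_prop)
  obtain ⟨Q, hQ, hSQ, hQu⟩ := Sig.unique_witness hS'
  have hEY := Cl.ext hY
  have hV : Sig (k + 1) fun x : List Bool × List Bool =>
      (fun τ u => τ <+: u ∧ u ∈ Ext X ∧ u ∉ Ext Y) x.1 x.2 := by
    refine Sig.and (Sig.of_cp (cp_prefix (by fun_prop) (by fun_prop))) (Sig.and ?_ ?_)
    · exact hX1.comp (f := fun x : List Bool × List Bool => x.2) (by fun_prop)
    · exact hEY.not.comp (f := fun x : List Bool × List Bool => x.2) (by fun_prop)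
  obtain ⟨U, hU, hUV, hUt, hUf⟩ := Sig.uniformize
    (V := fun τ u : List Bool => τ <+: u ∧ u ∈ Ext X ∧ u ∉ Ext Y) hV
  let A : List Bool → Prop := fun τ => τ ∈ Ext Y ∧ ∃ i < τ.length + 1, ∃ w < τ.length + 1,
    i + w = τ.length ∧ Q (τ.take i, w)
  have hAP : Pi (k + 1) A := by
    refine Pi.and hEY ?_
    refine Pi.ex_lt (p := fun (τ : List Bool) i => ∃ w < τ.length + 1,
      i + w = τ.length ∧ Q (τ.take i, w)) ?_ (by fun_prop)
    refine Pi.ex_lt (p := fun (x : List Bool × ℕ) w =>
      x.2 + w = x.1.length ∧ Q (x.1.take x.2, w)) ?_ (by fun_prop)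
    refine Pi.and (Pi.of_cp (RE.cp_eq (by fun_prop) (by fun_prop))) ?_
    refine hQ.comp (f := fun x : (List Bool × ℕ) × ℕ => (x.1.1.take x.1.2, x.2)) ?_
    exact cpair (ctake (by fun_prop) (by fun_prop)) (by fun_prop)
  let P : List Bool → Prop := fun ρ => ρ ∈ Ext Y ∨ (ρ ∈ Ext X ∧ ∃ j < ρ.length + 1,
    A (ρ.take j) ∧ ∀ u : List Bool, U (ρ.take j) u → (u <+: ρ ∨ ρ <+: u))
  have hPP : Pi (k + 1) P := by
    refine Pi.or hEY (Pi.and hX2 ?_)
    refine Pi.ex_lt (p := fun (ρ : List Bool) j => A (ρ.take j) ∧
      ∀ u : List Bool, U (ρ.take j) u → (u <+: ρ ∨ ρ <+: u)) ?_ (by fun_prop)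
    refine Pi.and ?_ ?_
    · exact hAP.comp (f := fun x : List Bool × ℕ => x.1.take x.2)
        (ctake (by fun_prop) (by fun_prop))
    · refine Pi.all (p := fun (x : List Bool × ℕ) (u : List Bool) =>
        U (x.1.take x.2) u → (u <+: x.1 ∨ x.1 <+: u)) ?_
      refine Pi.imp ?_ ?_
      · refine hU.comp (f := fun x : (List Bool × ℕ) × List Bool => (x.1.1.take x.1.2, x.2)) ?_
        exact cpair (ctake (by fun_prop) (by fun_prop)) (by fun_prop)
      · exact Pi.of_cp (cp_or (cp_prefix (by fun_prop) (by fun_prop))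
          (cp_prefix (by fun_prop) (by fun_prop)))
  have hYc : IsClosed Y := hY.isClosed
  have hUex : ∀ σ ∈ Ext X, ∃ u, U σ u := fun σ hσ => hUt σ (hnd σ hσ)
  have hG1 : ∀ x : ℕ → Bool, (∀ n, P (seg x n)) ↔ x ∈ Y ∨ (x ∈ X ∧ ∃ τ u, A τ ∧ U τ u ∧
      seg x u.length = u) := by
    intro x
    constructor
    · intro hx
      have hxX : x ∈ X := by
        refine mem_of_ext hXc fun n => ?_
        rcases hx n with h | h
        · exact ext_mono hYX h
        · exact h.1
      by_cases hxY : x ∈ Y
      · exact Or.inl hxY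
      right
      refine ⟨hxX, ?_⟩
      obtain ⟨N, hN⟩ : ∃ N, seg x N ∉ Ext Y := by
        by_contra hc
        push Not at hc
        exact hxY (mem_of_ext hYc hc)
      have hu : ∀ j, ∃ u, U (seg x j) u := fun j => hUex _ (seg_mem_ext hxX j)
      choose u hu using hu
      set n := N + ∑ j ∈ Finset.range N, (u j).length with hn
      have hlt : ∀ m, seg x m ∈ Ext Y → m < N := by
        intro m hm
        by_contra hc
        exact hN (ext_prefix (seg_prefix x (not_lt.1 hc)) hm)
      rcases hx n with h | ⟨_, j, hj, hAj, hcomp⟩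
      · have := hlt n h
        omega
      · rw [seg_length] at hj
        rw [seg_take x (by omega)] at hAj hcomp
        have hjN := hlt j hAj.1
        have hle : (u j).length ≤ n := by
          have := Finset.single_le_sum (f := fun j => (u j).length) (fun _ _ => Nat.zero_le _)
            (Finset.mem_range.2 hjN)
          omega
        have hpre : u j <+: seg x n := by
          rcases hcomp (u j) (hu j) with h | h
          · exact h
          · have h2 : seg x n = u j := h.eq_of_length_le (by rw [seg_length]; exact hle)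
            rw [h2]
        exact ⟨seg x j, u j, hAj, hu j, (eq_seg_of_prefix hpre).symm⟩
    · rintro (hxY | ⟨hxX, τ, u, hA, hUu, hxu⟩) n
      · exact Or.inl (seg_mem_ext hxY n)
      · have hτu : τ <+: u := (hUV _ _ hUu).1
        have hτx : τ = seg x τ.length := by
          rw [← hxu] at hτu
          exact eq_seg_of_prefix hτu
        rcases le_or_gt n τ.length with h | h
        · left
          have h2 := seg_prefix x h
          rw [← hτx] at h2
          exact ext_prefix h2 hA.1
        · right
          refine ⟨seg_mem_ext hxX n, τ.length, by rw [seg_length]; omega, ?_, ?_⟩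
          · rw [seg_take x h.le, ← hτx]; exact hA
          · intro u' hu'
            rw [seg_take x h.le, ← hτx] at hu'
            rw [hUf _ _ _ hu' hUu]
            rcases le_total u.length n with h3 | h3
            · left
              rw [← hxu]
              exact seg_prefix x h3
            · right
              rw [← hxu]
              exact seg_prefix x h3
  have hG2 : ∀ y ∈ Y, (y ∈ closure ({x | ∀ n, P (seg x n)} \ Y) ↔
      ∀ n, ∃ τ, A τ ∧ seg y n <+: τ) := by
    intro y hy
    rw [mem_closure_iff']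
    constructor
    · intro h n
      have hu : ∀ j, ∃ u, U (seg y j) u := fun j => hUex _ (seg_mem_ext (hYX hy) j)
      choose u hu using hu
      set n' := n + ∑ j ∈ Finset.range n, (u j).length with hn'
      obtain ⟨x, ⟨hxG, hxY⟩, hxy⟩ := h n'
      rcases (hG1 x).1 hxG with h1 | ⟨hxX, τ, v, hA, hUv, hxv⟩
      · exact absurd h1 hxY
      have hτv : τ <+: v := (hUV _ _ hUv).1
      have hτx : τ = seg x τ.length := by
        rw [← hxv] at hτv
        exact eq_seg_of_prefix hτv
      rcases le_or_gt n τ.length with h2 | h2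
      · refine ⟨τ, hA, ?_⟩
        have h3 : seg x n = seg y n := seg_mono_eq hxy (by omega)
        rw [← h3, hτx]
        exact seg_prefix x h2
      · exfalso
        have h3 : seg x τ.length = seg y τ.length := seg_mono_eq hxy (by omega)
        have h4 : v = u τ.length := by
          apply hUf τ
          · exact hUv
          · have := hu τ.length
            rwa [← h3, ← hτx] at this
        have h5 : v.length ≤ n' := by
          have := Finset.single_le_sum (f := fun j => (u j).length) (fun _ _ => Nat.zero_le _)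
            (Finset.mem_range.2 h2)
          rw [h4]
          omega
        have h6 : v = seg y v.length := by
          rw [← seg_mono_eq hxy h5, hxv]
        have h7 := (hUV _ _ hUv).2.2
        apply h7
        rw [h6]
        exact seg_mem_ext hy _
    · intro h n
      obtain ⟨τ, hA, hnτ⟩ := h n
      obtain ⟨u, hu⟩ := hUex τ (ext_mono hYX hA.1)
      obtain ⟨h1, h2, h3⟩ := hUV _ _ hu
      obtain ⟨x, hxX, hxu⟩ := h2
      refine ⟨x, ⟨(hG1 x).2 (Or.inr ⟨hxX, τ, u, hA, hu, hxu⟩), ?_⟩, ?_⟩
      · intro hxY
        apply h3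
        rw [← hxu]
        exact seg_mem_ext hxY _
      · have h4 : seg y n <+: seg x u.length := by
          rw [hxu]
          exact hnτ.trans h1
        have h5 := eq_seg_of_prefix h4
        rw [seg_length] at h5
        exact h5.symm
  refine ⟨{x | ∀ n, P (seg x n)}, ⟨fun _ σ => P σ, ?_, fun _ x => Iff.rfl⟩, ?_, ?_⟩
  · exact hPP.comp (f := fun x : Unit × List Bool => x.2) (by fun_prop)
  · intro x hx
    rcases (hG1 x).1 hx with h | h
    · exact hYX h
    · exact h.1
  · ext y
    constructor
    · rintro ⟨hy, hcl⟩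
      rw [hG2 y hy] at hcl
      rw [hSK () y]
      intro j
      have hw : ∀ i, ∃ w, ∀ w', Q (seg y i, w') → w' = w := by
        intro i
        by_cases h : ∃ w, Q (seg y i, w)
        · obtain ⟨w, hw⟩ := h
          exact ⟨w, fun w' hw' => hQu _ _ _ hw' hw⟩
        · push Not at h
          exact ⟨0, fun w' hw' => absurd hw' (h w')⟩
      choose w hw using hw
      obtain ⟨τ, ⟨hτY, i, hi, v, hv, hiv, hQv⟩, hpre⟩ :=
        hcl (j + ∑ i ∈ Finset.range j, (i + w i) + 1)
      set n := j + ∑ i ∈ Finset.range j, (i + w i) + 1 with hn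
      have hnτ : n ≤ τ.length := by simpa using hpre.length_le
      have hji : j ≤ i := by
        by_contra hc
        push Not at hc
        have h1 : τ.take i = seg y i := by
          have h2 : seg y i <+: τ := (seg_prefix y (by omega)).trans hpre
          have h3 := List.prefix_iff_eq_take.1 h2
          rw [seg_length] at h3
          exact h3.symm
        rw [h1] at hQv
        have h4 := hw i v hQv
        have h5 := Finset.single_le_sum (f := fun i => i + w i) (fun _ _ => Nat.zero_le _)
          (Finset.mem_range.2 hc)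
        omega
      have h6 : S () (τ.take i) := (hSQ _).2 ⟨v, hQv⟩
      refine hSpre () _ _ ?_ h6
      have h7 : seg y j <+: τ := (seg_prefix y (by omega)).trans hpre
      exact List.prefix_of_prefix_length_le h7 (List.take_prefix _ _) (by
        rw [seg_length, List.length_take]; omega)
    · intro hy
      refine ⟨hKY hy, ?_⟩
      rw [hG2 y (hKY hy)]
      intro n
      obtain ⟨w, hw⟩ := (hSQ _).1 ((hSK () y).1 hy n)
      refine ⟨seg y (n + w), ⟨seg_mem_ext (hKY hy) _, n, by rw [seg_length]; omega, w,
        by rw [seg_length]; omega, by rw [seg_length], ?_⟩, seg_prefix y (by omega)⟩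
      rw [seg_take y (by omega)]
      exact hw

end Pool.Agent.Helper446.CB.Co
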