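import Pool.Agent.Helper446.CB.Pi01

/-!
Predicates definable by first-order formulas in the lattice of `Π⁰₁` classes.
-/

namespace Pool.Agent.Helper446.CB

open Pool.Agent.Helper446.Defs FirstOrder FirstOrder.Language

/-- A predicate on tuples of `Π⁰₁` classes, indexed by `Γ`, that is first-order definable. -/
def DefP {Γ : Type} (R : (Γ → EPi) → Prop) : Prop :=
  ∃ φ : Language.order.Formula Γ, ∀ v, φ.Realize v ↔ R v

variable {Γ Δ : Type}

theorem DefP.of_iff {R S : (Γ → EPi) → Prop} (h : DefP R) (hRS : ∀ v, R v ↔ S v) : DefP S := by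
  obtain ⟨φ, h⟩ := h
  exact ⟨φ, fun v => (h v).trans (hRS v)⟩

theorem DefP.not {R : (Γ → EPi) → Prop} (h : DefP R) : DefP fun v => ¬ R v := by
  obtain ⟨φ, h⟩ := h
  refine ⟨φ.not, fun v => ?_⟩
  rw [Formula.realize_not, h]

theorem DefP.and {R S : (Γ → EPi) → Prop} (h : DefP R) (h' : DefP S) :
    DefP fun v => R v ∧ S v := by
  obtain ⟨φ, h⟩ := h
  obtain ⟨ψ, h'⟩ := h'
  refine ⟨φ ⊓ ψ, fun v => ?_⟩
  rw [Formula.realize_inf, h, h']

theorem DefP.or {R S : (Γ → EPi) → Prop} (h : DefP R) (h' : DefP S) :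
    DefP fun v => R v ∨ S v := by
  obtain ⟨φ, h⟩ := h
  obtain ⟨ψ, h'⟩ := h'
  refine ⟨φ ⊔ ψ, fun v => ?_⟩
  rw [Formula.realize_sup, h, h']

theorem DefP.imp {R S : (Γ → EPi) → Prop} (h : DefP R) (h' : DefP S) :
    DefP fun v => R v → S v := by
  obtain ⟨φ, h⟩ := h
  obtain ⟨ψ, h'⟩ := h'
  refine ⟨φ.imp ψ, fun v => ?_⟩
  rw [Formula.realize_imp, h, h']

theorem DefP.relabel {R : (Γ → EPi) → Prop} (h : DefP R) (f : Γ → Δ) :
    DefP fun v : Δ → EPi => R fun i => v (f i) := by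
  obtain ⟨φ, h⟩ := h
  refine ⟨φ.relabel f, fun v => ?_⟩
  rw [Formula.realize_relabel, h]
  rfl

theorem DefP.ex {R : (Γ → EPi) → EPi → Prop}
    (h : DefP fun v : Γ ⊕ Unit → EPi => R (fun i => v (Sum.inl i)) (v (Sum.inr ()))) :
    DefP fun v => ∃ x, R v x := by
  obtain ⟨φ, h⟩ := h
  refine ⟨φ.iExs Unit, fun v => ?_⟩
  rw [Formula.realize_iExs]
  constructor
  · rintro ⟨x, hx⟩
    rw [h] at hx
    exact ⟨x (), hx⟩
  · rintro ⟨x, hx⟩
    refine ⟨fun _ => x, ?_⟩
    rw [h]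
    exact hx

theorem DefP.all {R : (Γ → EPi) → EPi → Prop}
    (h : DefP fun v : Γ ⊕ Unit → EPi => R (fun i => v (Sum.inl i)) (v (Sum.inr ()))) :
    DefP fun v => ∀ x, R v x := by
  refine (DefP.ex (R := fun v x => ¬ R v x) h.not).not.of_iff fun v => ?_
  push Not
  rfl

theorem DefP.le (i j : Γ) : DefP fun v : Γ → EPi => v i ≤ v j := by
  refine ⟨(Term.var (Sum.inl i)).le (Term.var (Sum.inl j)), fun v => ?_⟩
  have : Language.order.OrderedStructure EPi := ⟨fun x => Iff.rfl⟩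
  rw [Formula.Realize, Term.realize_le]
  rfl

theorem DefP.all_lt {R : ℕ → (Γ → EPi) → Prop} (n : ℕ) (h : ∀ i < n, DefP (R i)) :
    DefP fun v => ∀ i < n, R i v := by
  induction n with
  | zero =>
    by_cases hΓ : Nonempty Γ
    · obtain ⟨i⟩ := hΓ
      exact (DefP.le i i).of_iff fun v => by simp
    · refine ⟨⊤, fun v => by simp⟩
  | succ n ih =>
    refine ((ih fun i hi => h i (by omega)).and (h n (by omega))).of_iff fun v => ?_
    constructor
    · rintro ⟨h1, h2⟩ i hi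
      rcases Nat.lt_succ_iff_lt_or_eq.1 hi with h | rfl
      exacts [h1 i h, h2]
    · intro h1
      exact ⟨fun i hi => h1 i (by omega), h1 n (by omega)⟩

/-- Definable unary, binary and ternary relations, usable in all contexts. -/
def Def1 (P : EPi → Prop) : Prop := ∀ {Γ : Type} (i : Γ), DefP fun v : Γ → EPi => P (v i)

def Def2 (P : EPi → EPi → Prop) : Prop :=
  ∀ {Γ : Type} (i j : Γ), DefP fun v : Γ → EPi => P (v i) (v j)

def Def3 (P : EPi → EPi → EPi → Prop) : Prop :=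
  ∀ {Γ : Type} (i j k : Γ), DefP fun v : Γ → EPi => P (v i) (v j) (v k)

theorem isDefinable_of_def1 {P : EPi → Prop} (h : Def1 P) : IsDefinable {F | P F} := by
  obtain ⟨φ, hφ⟩ := h (Γ := Fin 1) 0
  refine ⟨φ, ?_⟩
  ext F
  exact (hφ fun _ => F).symm

theorem defIsEmpty : Def1 fun P => P.1 = ∅ := by
  intro Γ i
  refine (DefP.all (R := fun v (x : EPi) => v i ≤ x) (DefP.le _ _)).of_iff fun v => ?_
  constructor
  · intro h
    exact Set.subset_eq_empty (h ⟨∅, IsPi01.empty⟩) rfl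
  · intro h x
    show (v i).1 ⊆ x.1
    rw [h]
    exact Set.empty_subset _

theorem defDisj : Def2 fun P Q => P.1 ∩ Q.1 = ∅ := by
  intro Γ i j
  refine (DefP.all (R := fun v (x : EPi) => x ≤ v i → x ≤ v j → x.1 = ∅)
    ((DefP.le _ _).imp ((DefP.le _ _).imp (defIsEmpty _)))).of_iff fun v => ?_
  constructor
  · intro h
    exact h ⟨(v i).1 ∩ (v j).1, IsPi01.inter (v i).2 (v j).2⟩ Set.inter_subset_left
      Set.inter_subset_right
  · intro h x h1 h2
    refine Set.subset_eq_empty ?_ h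
    exact Set.subset_inter h1 h2

theorem defInter : Def3 fun P Q S => S.1 = P.1 ∩ Q.1 := by
  intro Γ i j k
  refine (((DefP.le k i).and (DefP.le k j)).and
    (DefP.all (R := fun v (x : EPi) => x ≤ v i → x ≤ v j → x ≤ v k)
    ((DefP.le _ _).imp ((DefP.le _ _).imp (DefP.le _ _))))).of_iff fun v => ?_
  constructor
  · rintro ⟨⟨h1, h2⟩, h3⟩
    refine subset_antisymm (Set.subset_inter h1 h2) ?_
    exact h3 ⟨(v i).1 ∩ (v j).1, IsPi01.inter (v i).2 (v j).2⟩ Set.inter_subset_left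
      Set.inter_subset_right
  · intro h
    refine ⟨⟨?_, ?_⟩, ?_⟩
    · show (v k).1 ⊆ (v i).1
      rw [h]; exact Set.inter_subset_left
    · show (v k).1 ⊆ (v j).1
      rw [h]; exact Set.inter_subset_right
    · intro x h1 h2
      show x.1 ⊆ (v k).1
      rw [h]; exact Set.subset_inter h1 h2

theorem defClopen : Def1 fun P => IsClopen P.1 := by
  intro Γ i
  refine (DefP.ex (R := fun v (x : EPi) => (v i).1 ∩ x.1 = ∅ ∧ ∀ y : EPi, v i ≤ y → x ≤ y →
    ∀ z : EPi, z ≤ y) ?_).of_iff fun v => ?_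
  · refine (defDisj _ _).and (DefP.all (R := fun (v : Γ ⊕ Unit → EPi) (y : EPi) =>
      v (Sum.inl i) ≤ y → v (Sum.inr ()) ≤ y → ∀ z : EPi, z ≤ y) ?_)
    refine (DefP.le _ _).imp ((DefP.le _ _).imp ?_)
    exact DefP.all (R := fun (v : (Γ ⊕ Unit) ⊕ Unit → EPi) (z : EPi) => z ≤ v (Sum.inr ()))
      (DefP.le _ _)
  · constructor
    · rintro ⟨x, h1, h2⟩
      have h3 : Set.univ ⊆ (v i).1 ∪ x.1 := h2 ⟨(v i).1 ∪ x.1, IsPi01.union (v i).2 x.2⟩
        Set.subset_union_left Set.subset_union_right ⟨Set.univ, IsPi01.univ⟩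
      refine ⟨IsPi01.isClosed (v i).2, ?_⟩
      have h4 : (v i).1 = x.1ᶜ := by
        ext y
        constructor
        · intro hy hy2
          have : y ∈ (v i).1 ∩ x.1 := ⟨hy, hy2⟩
          rw [h1] at this
          exact this
        · intro hy
          rcases h3 (Set.mem_univ y) with h | h
          · exact h
          · exact (hy h).elim
      rw [h4]
      exact (IsPi01.isClosed x.2).isOpen_compl
    · intro h
      refine ⟨⟨(v i).1ᶜ, IsPi01.of_clopen h.compl⟩, by simp, fun y h1 h2 z => ?_⟩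
      intro a _
      by_cases ha : a ∈ (v i).1
      · exact h1 ha
      · exact h2 ha

end Pool.Agent.Helper446.CB
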