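import Pool.Agent.Helper446.CB.Str

/-!
Cantor–Bendixson derivatives: basic facts.
-/

namespace Pool.Agent.Helper446.CB

open Pool.Agent.Helper446.Defs

variable {P Q : Set (ℕ → Bool)}

theorem mem_deriv_iff {x : ℕ → Bool} :
    x ∈ deriv P ↔ x ∈ P ∧ ∀ n, ∃ y ∈ P, y ≠ x ∧ seg y n = seg x n := by
  constructor
  · rintro ⟨hx, h⟩
    refine ⟨hx, fun n => ?_⟩
    by_contra hcon
    push Not at hcon
    refine h (cyl (seg x n)) (isClopen_cyl _).isOpen ?_
    ext y
    constructor
    · rintro ⟨h1, h2⟩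
      by_contra hne
      exact hcon y h2 hne (mem_cyl_seg.1 h1)
    · rintro rfl
      exact ⟨self_mem_cyl _ n, hx⟩
  · rintro ⟨hx, h⟩
    refine ⟨hx, fun U hU hUP => ?_⟩
    have hxU : x ∈ U ∩ P := by rw [hUP]; rfl
    obtain ⟨n, hn⟩ := isOpen_iff.1 hU x hxU.1
    obtain ⟨y, hy, hne, hs⟩ := h n
    have : y ∈ U ∩ P := ⟨hn (mem_cyl_seg.2 hs), hy⟩
    rw [hUP] at this
    exact hne this

theorem deriv_subset : deriv P ⊆ P := fun _ h => h.1

theorem deriv_mono (h : P ⊆ Q) : deriv P ⊆ deriv Q := by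
  intro x hx
  rw [mem_deriv_iff] at *
  refine ⟨h hx.1, fun n => ?_⟩
  obtain ⟨y, hy, h1⟩ := hx.2 n
  exact ⟨y, h hy, h1⟩

theorem isClosed_deriv (hP : IsClosed P) : IsClosed (deriv P) := by
  have h : deriv P = {x | ∀ n, ∃ y ∈ P, ∃ z ∈ P, y ≠ z ∧ seg y n = seg x n ∧
      seg z n = seg x n} := by
    ext x
    rw [mem_deriv_iff]
    constructor
    · rintro ⟨hx, h⟩ n
      obtain ⟨y, hy, hne, hs⟩ := h n
      exact ⟨y, hy, x, hx, hne, hs, rfl⟩
    · intro h
      refine ⟨mem_closed_of_seg hP fun n => ?_, fun n => ?_⟩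
      · obtain ⟨y, hy, z, hz, -, h1, -⟩ := h n
        exact ⟨y, hy, h1⟩
      · obtain ⟨y, hy, z, hz, hne, h1, h2⟩ := h n
        by_cases hyx : y = x
        · exact ⟨z, hz, fun h => hne (by rw [hyx, h]), h2⟩
        · exact ⟨y, hy, hyx, h1⟩
  rw [h]
  have := isClosed_of_seg (fun σ => ∃ y ∈ P, ∃ z ∈ P, y ≠ z ∧ seg y σ.length = σ ∧
      seg z σ.length = σ)
  simpa using this

theorem deriv_empty : deriv (∅ : Set (ℕ → Bool)) = ∅ :=
  Set.subset_eq_empty deriv_subset rfl

theorem deriv_inter {C : Set (ℕ → Bool)} (hC : IsOpen C) : deriv (P ∩ C) = deriv P ∩ C := by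
  ext x
  rw [Set.mem_inter_iff, mem_deriv_iff, mem_deriv_iff]
  constructor
  · rintro ⟨⟨hx, hxC⟩, h⟩
    refine ⟨⟨hx, fun n => ?_⟩, hxC⟩
    obtain ⟨y, hy, h1⟩ := h n
    exact ⟨y, hy.1, h1⟩
  · rintro ⟨⟨hx, h⟩, hxC⟩
    refine ⟨⟨hx, hxC⟩, fun n => ?_⟩
    obtain ⟨m, hm⟩ := isOpen_iff.1 hC x hxC
    obtain ⟨y, hy, h1, h2⟩ := h (max n m)
    exact ⟨y, ⟨hy, hm (mem_cyl_seg.2 (seg_mono_eq h2 (le_max_right _ _)))⟩, h1,
      seg_mono_eq h2 (le_max_left _ _)⟩

theorem deriv_clopen {C : Set (ℕ → Bool)} (hC : IsOpen C) : deriv C = C := by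
  refine subset_antisymm deriv_subset fun x hx => ?_
  rw [mem_deriv_iff]
  refine ⟨hx, fun n => ?_⟩
  obtain ⟨m, hm⟩ := isOpen_iff.1 hC x hx
  refine ⟨fun i => if i < max n m then x i else !(x i), hm ?_, ?_, ?_⟩
  · rw [mem_cyl_seg, seg_eq_iff]
    intro i hi
    have : i < max n m := lt_of_lt_of_le hi (le_max_right _ _)
    simp only [this, if_true]
  · intro h
    have := congrFun h (max n m)
    simp at this
  · rw [seg_eq_iff]
    intro i hi
    have : i < max n m := lt_of_lt_of_le hi (le_max_left _ _)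
    simp only [this, if_true]

/-! ### Iterates -/

theorem cb_one : cb P 1 = deriv P := by
  have := cb_succ P 0
  rwa [zero_add, cb_zero] at this

theorem cb_anti : ∀ {β α : Ordinal.{0}}, α ≤ β → cb P β ⊆ cb P α := by
  intro β
  induction β using Ordinal.limitRecOn with
  | zero => intro α h; rw [nonpos_iff_eq_zero.1 h]
  | add_one β ih =>
    intro α h
    rcases h.lt_or_eq with h | rfl
    · rw [cb_succ]
      exact deriv_subset.trans (ih (Order.lt_add_one_iff.1 h))
    · exact subset_rfl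
  | limit β hβ ih =>
    intro α h
    rcases h.lt_or_eq with h | rfl
    · rw [cb_limit P hβ]
      exact Set.iInter₂_subset α h
    · exact subset_rfl

theorem cb_subset (α : Ordinal.{0}) : cb P α ⊆ P := by
  have := cb_anti (P := P) (show (0 : Ordinal.{0}) ≤ α by simp)
  rwa [cb_zero] at this

theorem isClosed_cb (hP : IsClosed P) (α : Ordinal.{0}) : IsClosed (cb P α) := by
  induction α using Ordinal.limitRecOn with
  | zero => rwa [cb_zero]
  | add_one β ih => rw [cb_succ]; exact isClosed_deriv ih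
  | limit β hβ ih =>
    rw [cb_limit P hβ]
    exact isClosed_iInter fun γ => isClosed_iInter fun h => ih γ h

theorem cb_mono (h : P ⊆ Q) (α : Ordinal.{0}) : cb P α ⊆ cb Q α := by
  induction α using Ordinal.limitRecOn with
  | zero => simpa
  | add_one β ih => rw [cb_succ, cb_succ]; exact deriv_mono ih
  | limit β hβ ih =>
    rw [cb_limit P hβ, cb_limit Q hβ]
    exact Set.iInter₂_mono ih

theorem cb_inter {C : Set (ℕ → Bool)} (hC : IsOpen C) (α : Ordinal.{0}) :
    cb (P ∩ C) α = cb P α ∩ C := by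
  induction α using Ordinal.limitRecOn with
  | zero => simp
  | add_one β ih => rw [cb_succ, cb_succ, ih, deriv_inter hC]
  | limit β hβ ih =>
    rw [cb_limit _ hβ, cb_limit _ hβ]
    ext x
    simp only [Set.mem_iInter, Set.mem_inter_iff]
    constructor
    · intro h
      refine ⟨fun γ hγ => ?_, ?_⟩
      · have := h γ hγ
        rw [ih γ hγ] at this
        exact this.1
      · have := h 0 hβ.bot_lt
        rw [cb_zero] at this
        exact this.2
    · intro h γ hγ
      rw [ih γ hγ]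
      exact ⟨h.1 γ hγ, h.2⟩

theorem cb_add (α β : Ordinal.{0}) : cb (cb P α) β = cb P (α + β) := by
  induction β using Ordinal.limitRecOn with
  | zero => simp
  | add_one β ih => rw [cb_succ, ← add_assoc, cb_succ, ih]
  | limit β hβ ih =>
    rw [cb_limit _ hβ, cb_limit _ (Ordinal.isSuccLimit_add α hβ)]
    refine subset_antisymm ?_ ?_
    · refine Set.subset_iInter₂ fun γ hγ => ?_
      rcases le_total γ α with h | h
      · refine (Set.iInter₂_subset 0 hβ.bot_lt).trans ?_
        rw [cb_zero]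
        exact cb_anti h
      · obtain ⟨δ, rfl⟩ := exists_add_of_le h
        have hδ : δ < β := (add_lt_add_iff_left α).1 hγ
        refine (Set.iInter₂_subset δ hδ).trans ?_
        rw [ih δ hδ]
    · refine Set.subset_iInter₂ fun γ hγ => ?_
      rw [ih γ hγ]
      have h1 : α + γ < α + β := (add_lt_add_iff_left α).2 hγ
      exact Set.iInter₂_subset (s := fun i (_ : i < α + β) => cb P i) (α + γ) h1

theorem cb_nat_succ (n : ℕ) : cb P ((n + 1 : ℕ) : Ordinal.{0}) = deriv (cb P n) := by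
  rw [Nat.cast_add, Nat.cast_one, cb_succ]

/-- Compactness at limits. -/
theorem cb_limit_eq_empty (hP : IsClosed P) {α : Ordinal.{0}} (hα : Order.IsSuccLimit α)
    (h : cb P α = ∅) : ∃ β < α, cb P β = ∅ := by
  by_contra hcon
  push Not at hcon
  have hne : (⋂ β : Set.Iio α, cb P β.1).Nonempty := by
    have : Nonempty (Set.Iio α) := ⟨⟨0, hα.bot_lt⟩⟩
    refine IsCompact.nonempty_iInter_of_directed_nonempty_isCompact_isClosed _ ?_ ?_ ?_ ?_
    · intro β γ
      rcases le_total β.1 γ.1 with h | h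
      · exact ⟨γ, cb_anti h, subset_rfl⟩
      · exact ⟨β, subset_rfl, cb_anti h⟩
    · intro β; exact hcon β.1 β.2
    · intro β; exact (isClosed_cb hP _).isCompact
    · intro β; exact isClosed_cb hP _
  rw [cb_limit P hα] at h
  obtain ⟨x, hx⟩ := hne
  have : x ∈ (⋂ β, ⋂ _ : β < α, cb P β) := by
    simp only [Set.mem_iInter] at *
    intro β hβ
    exact hx ⟨β, hβ⟩
  rw [h] at this
  exact this

/-- Images under maps that are homeomorphisms of the class onto its image. -/
theorem deriv_image {K : Set (ℕ → Bool)} (hK : IsClosed K) {e : (ℕ → Bool) → (ℕ → Bool)}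
    (hc : ContinuousOn e K) (hi : Set.InjOn e K) {Q : Set (ℕ → Bool)} (hQ : Q ⊆ K) :
    deriv (e '' Q) = e '' deriv Q := by
  have hiff : ∀ x ∈ Q, (∃ U : Set (ℕ → Bool), IsOpen U ∧ U ∩ Q = {x}) ↔
      (∃ U : Set (ℕ → Bool), IsOpen U ∧ U ∩ e '' Q = {e x}) := by
    intro x hx
    constructor
    · rintro ⟨U, hU, h⟩
      have hcl : IsClosed (e '' (K \ U)) :=
        ((hK.isCompact.diff hU).image_of_continuousOn (hc.mono Set.sdiff_subset)).isClosed
      refine ⟨(e '' (K \ U))ᶜ, hcl.isOpen_compl, ?_⟩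
      have hxU : x ∈ U := by
        have : x ∈ U ∩ Q := by rw [h]; rfl
        exact this.1
      ext y
      simp only [Set.mem_inter_iff, Set.mem_compl_iff, Set.mem_image, Set.mem_singleton_iff]
      constructor
      · rintro ⟨h1, z, hz, rfl⟩
        have hzU : z ∈ U := by
          by_contra hcon
          exact h1 ⟨z, ⟨hQ hz, hcon⟩, rfl⟩
        have : z ∈ U ∩ Q := ⟨hzU, hz⟩
        rw [h] at this
        rw [this]
      · rintro rfl
        refine ⟨?_, x, hx, rfl⟩
        rintro ⟨z, ⟨hzK, hzU⟩, hz⟩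
        have := hi hzK (hQ hx) hz
        rw [this] at hzU
        exact hzU hxU
    · rintro ⟨U, hU, h⟩
      obtain ⟨V, hV, hV2⟩ := (continuousOn_iff'.1 hc) U hU
      refine ⟨V, hV, ?_⟩
      have hxU : e x ∈ U := by
        have : e x ∈ U ∩ e '' Q := by rw [h]; rfl
        exact this.1
      ext y
      constructor
      · rintro ⟨hy1, hy2⟩
        have h3 : y ∈ e ⁻¹' U ∩ K := by rw [hV2]; exact ⟨hy1, hQ hy2⟩
        have h4 : e y ∈ U ∩ e '' Q := ⟨h3.1, y, hy2, rfl⟩
        rw [h] at h4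
        exact hi (hQ hy2) (hQ hx) h4
      · rintro rfl
        have h3 : y ∈ V ∩ K := by rw [← hV2]; exact ⟨hxU, hQ hx⟩
        exact ⟨h3.1, hx⟩
  ext y
  constructor
  · rintro ⟨⟨x, hx, rfl⟩, h⟩
    refine ⟨x, ⟨hx, fun U hU hUx => ?_⟩, rfl⟩
    obtain ⟨V, hV, hVx⟩ := (hiff x hx).1 ⟨U, hU, hUx⟩
    exact h V hV hVx
  · rintro ⟨x, ⟨hx, h⟩, rfl⟩
    refine ⟨⟨x, hx, rfl⟩, fun U hU hUx => ?_⟩
    obtain ⟨V, hV, hVx⟩ := (hiff x hx).2 ⟨U, hU, hUx⟩
    exact h V hV hVx

theorem cb_image {K : Set (ℕ → Bool)} (hK : IsClosed K) {e : (ℕ → Bool) → (ℕ → Bool)}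
    (hc : ContinuousOn e K) (hi : Set.InjOn e K) (α : Ordinal.{0}) :
    cb (e '' K) α = e '' cb K α := by
  induction α using Ordinal.limitRecOn with
  | zero => simp
  | add_one β ih => rw [cb_succ, cb_succ, ih, deriv_image hK hc hi (cb_subset β)]
  | limit β hβ ih =>
    rw [cb_limit _ hβ, cb_limit _ hβ]
    ext y
    simp only [Set.mem_iInter, Set.mem_image]
    constructor
    · intro h
      have h0 := h 0 hβ.bot_lt
      rw [cb_zero] at h0
      obtain ⟨x, hx, rfl⟩ := h0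
      refine ⟨x, fun γ hγ => ?_, rfl⟩
      have h1 := h γ hγ
      rw [ih γ hγ] at h1
      obtain ⟨z, hz, hzx⟩ := h1
      rwa [← hi (cb_subset γ hz) hx hzx]
    · rintro ⟨x, hx, rfl⟩ γ hγ
      rw [ih γ hγ]
      exact ⟨x, hx γ hγ, rfl⟩

/-- The isolated points removed form a countable set. -/
theorem countable_diff_deriv (P : Set (ℕ → Bool)) : (P \ deriv P).Countable := by
  have h : ∀ x ∈ P \ deriv P, ∃ n, ∀ y ∈ P, seg y n = seg x n → y = x := by
    rintro x ⟨hx, h⟩
    rw [mem_deriv_iff] at h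
    push Not at h
    obtain ⟨n, hn⟩ := h hx
    refine ⟨n, fun y hy h2 => ?_⟩
    by_contra hne
    exact hn y hy hne h2
  choose! N hN using h
  refine Set.MapsTo.countable_of_injOn (f := fun x => seg x (N x)) (t := Set.univ)
    (fun _ _ => Set.mem_univ _) ?_ (Set.countable_univ)
  intro x hx y hy hxy
  dsimp only at hxy
  have hlen : N x = N y := by
    have := congrArg List.length hxy
    simpa using this
  exact (hN x hx y hy.1 (by rw [hxy, hlen])).symm

end Pool.Agent.Helper446.CB
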