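import Pool.Agent.Helper446.CB.Pi01


namespace Pool.Agent.Helper446.CB.Ex

open Pool.Agent.Helper446.Defs Pool.Agent.Helper446.RE

set_option linter.unusedSectionVars false

/-- Abstract computation of the derivatives from a rank function. -/
theorem cb_eq_of_rank {P : Set (ℕ → Bool)} {ρ : (ℕ → Bool) → Ordinal.{0}}
    (h1 : ∀ x ∈ P, ∃ n, ∀ y ∈ P, y ≠ x → seg y n = seg x n → ρ y < ρ x)
    (h2 : ∀ x ∈ P, ∀ β < ρ x, ∀ n, ∃ y ∈ P, y ≠ x ∧ seg y n = seg x n ∧ ρ y = β)
    (β : Ordinal.{0}) : cb P β = {x | x ∈ P ∧ β ≤ ρ x} := by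
  induction β using Ordinal.limitRecOn with
  | zero => ext x; simp
  | add_one β ih =>
    rw [cb_succ, ih]
    ext x
    rw [mem_deriv_iff]
    constructor
    · rintro ⟨⟨hx, hβ⟩, h⟩
      refine ⟨hx, ?_⟩
      rw [Order.add_one_le_iff]
      refine lt_of_le_of_ne hβ fun hne => ?_
      obtain ⟨n, hn⟩ := h1 x hx
      obtain ⟨y, ⟨hy, hβy⟩, hyx, hs⟩ := h n
      have := hn y hy hyx hs
      rw [← hne] at this
      exact absurd hβy (not_le.2 this)
    · rintro ⟨hx, hβ⟩
      rw [Order.add_one_le_iff] at hβ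
      refine ⟨⟨hx, hβ.le⟩, fun n => ?_⟩
      obtain ⟨y, hy, hyx, hs, hρ⟩ := h2 x hx β hβ n
      exact ⟨y, ⟨hy, hρ.ge⟩, hyx, hs⟩
  | limit β hβ ih =>
    rw [cb_limit P hβ]
    ext x
    simp only [Set.mem_iInter, Set.mem_ofPred_eq]
    constructor
    · intro h
      have h0 := h 0 hβ.bot_lt
      rw [cb_zero] at h0
      refine ⟨h0, hβ.le_iff_forall_le.2 fun γ hγ => ?_⟩
      have := h γ hγ
      rw [ih γ hγ] at this
      exact this.2
    · rintro ⟨hx, h⟩ γ hγ
      rw [ih γ hγ]
      exact ⟨hx, hγ.le.trans h⟩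

/-- One step of the decoding. -/
def stp (s : List ℕ × ℕ) (b : Bool) : List ℕ × ℕ :=
  if b then (s.2 :: s.1, 0) else (s.1, s.2 + 1)

/-- The state after `n` steps. -/
def sta (x : ℕ → Bool) : ℕ → List ℕ × ℕ
  | 0 => ([], 0)
  | n + 1 => stp (sta x n) (x n)

theorem sta_eq (x : ℕ → Bool) (n : ℕ) : sta x n = (seg x n).foldl stp ([], 0) := by
  induction n with
  | zero => rfl
  | succ n ih => rw [seg_succ, List.foldl_append, ← ih]; rfl

theorem sta_congr {x y : ℕ → Bool} {n : ℕ} (h : seg x n = seg y n) : sta x n = sta y n := by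
  rw [sta_eq, sta_eq, h]

theorem sta_suffix (x : ℕ → Bool) {m n : ℕ} (h : m ≤ n) : (sta x m).1 <:+ (sta x n).1 := by
  induction n, h using Nat.le_induction with
  | base => exact List.suffix_rfl
  | succ n hn ih =>
    refine ih.trans ?_
    show _ <:+ (stp (sta x n) (x n)).1
    unfold stp
    split_ifs
    · exact List.suffix_cons _ _
    · exact List.suffix_rfl

theorem sta_zeros {x : ℕ → Bool} {N : ℕ} (h : ∀ n, N ≤ n → x n = false) {n : ℕ} (hn : N ≤ n) :
    sta x n = ((sta x N).1, (sta x N).2 + (n - N)) := by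
  induction n, hn using Nat.le_induction with
  | base => simp
  | succ n hn ih =>
    show stp (sta x n) (x n) = _
    rw [h n hn, ih]
    unfold stp
    simp only [Bool.false_eq_true, if_false]
    congr 1
    omega

/-- If the list does not change, there are no ones. -/
theorem zero_of_sta {x : ℕ → Bool} {N : ℕ} (h : ∀ n, N ≤ n → (sta x n).1 = (sta x N).1) {n : ℕ}
    (hn : N ≤ n) : x n = false := by
  by_contra hx
  have hx' : x n = true := by simpa using hx
  have h1 : (sta x (n + 1)).1 = (sta x n).2 :: (sta x n).1 := by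
    show (stp (sta x n) (x n)).1 = _
    rw [hx']; rfl
  have h2 := h (n + 1) (by omega)
  have h3 := h n hn
  rw [h1, h3] at h2
  have := congrArg List.length h2
  simp at this

section Class

variable {A : Set ℕ} {r : ℕ → ℕ → Prop} [IsWellOrder A (fun a b => r a b)]

/-- good lists -/
def Good (A : Set ℕ) (r : ℕ → ℕ → Prop) (L : List ℕ) : Prop :=
  (∀ n ∈ L, n.unpair.1 ∈ A) ∧
    ∀ i a b, L[i]? = some a → L[i + 1]? = some b → r a.unpair.1 b.unpair.1

theorem good_nil : Good A r [] := ⟨by simp, by simp⟩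

theorem good_cons {n : ℕ} {L : List ℕ} : Good A r (n :: L) ↔
    n.unpair.1 ∈ A ∧ (∀ m, L[0]? = some m → r n.unpair.1 m.unpair.1) ∧ Good A r L := by
  constructor
  · rintro ⟨h1, h2⟩
    refine ⟨h1 n (by simp), fun m hm => h2 0 n m (by simp) (by simpa using hm),
      fun m hm => h1 m (by simp [hm]), fun i a b ha hb => h2 (i + 1) a b (by simpa using ha)
        (by simpa using hb)⟩
  · rintro ⟨h1, h2, h3, h4⟩
    refine ⟨fun m hm => ?_, fun i a b ha hb => ?_⟩
    · rcases List.mem_cons.1 hm with rfl | hm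
      · exact h1
      · exact h3 m hm
    · cases i with
      | zero =>
        simp only [List.getElem?_cons_zero, Option.some.injEq] at ha
        subst ha
        exact h2 b (by simpa using hb)
      | succ i => exact h4 i a b (by simpa using ha) (by simpa using hb)

theorem good_suffix {L L' : List ℕ} (h : L <:+ L') (h' : Good A r L') : Good A r L := by
  induction L' with
  | nil => rw [List.suffix_nil.1 h]; exact good_nil
  | cons n L' ih =>
    rcases List.suffix_cons_iff.1 h with rfl | h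
    · exact h'
    · exact ih h (good_cons.1 h').2.2

open Classical in
/-- rank of a natural number -/
noncomputable def rkN (A : Set ℕ) (r : ℕ → ℕ → Prop) [IsWellOrder A (fun a b => r a b)]
    (a : ℕ) : Ordinal.{0} :=
  if h : a ∈ A then Ordinal.typein (fun a b : A => r a b) ⟨a, h⟩ else 0

/-- rank of a list -/
noncomputable def rkL (A : Set ℕ) (r : ℕ → ℕ → Prop) [IsWellOrder A (fun a b => r a b)] :
    List ℕ → Ordinal.{0}
  | [] => Ordinal.type (fun a b : A => r a b)
  | n :: _ => rkN A r n.unpair.1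

theorem rkN_lt_type {a : ℕ} (h : a ∈ A) : rkN A r a < Ordinal.type (fun a b : A => r a b) := by
  unfold rkN
  rw [dif_pos h]
  exact Ordinal.typein_lt_type _ _

theorem rkN_lt {a b : ℕ} (ha : a ∈ A) (hb : b ∈ A) (h : r a b) : rkN A r a < rkN A r b := by
  unfold rkN
  rw [dif_pos ha, dif_pos hb]
  exact (Ordinal.typein_lt_typein _).2 h

theorem rkN_lt_iff {a b : ℕ} (ha : a ∈ A) (hb : b ∈ A) : rkN A r a < rkN A r b ↔ r a b := by
  unfold rkN
  rw [dif_pos ha, dif_pos hb]
  exact (Ordinal.typein_lt_typein _)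

theorem exists_rkN {β : Ordinal.{0}} (h : β < Ordinal.type (fun a b : A => r a b)) :
    ∃ a ∈ A, rkN A r a = β := by
  obtain ⟨a, ha⟩ := Ordinal.typein_surj _ h
  refine ⟨a.1, a.2, ?_⟩
  unfold rkN
  rw [dif_pos a.2]
  exact ha

theorem rkL_le (L : List ℕ) (h : Good A r L) : rkL A r L ≤ Ordinal.type (fun a b : A => r a b) := by
  cases L with
  | nil => exact le_rfl
  | cons n L => exact (rkN_lt_type (good_cons.1 h).1).le

theorem rkL_cons_lt {n : ℕ} {L : List ℕ} (h : Good A r (n :: L)) :
    rkL A r (n :: L) < rkL A r L := by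
  obtain ⟨h1, h2, h3⟩ := good_cons.1 h
  cases L with
  | nil => exact rkN_lt_type h1
  | cons m L => exact rkN_lt h1 (good_cons.1 h3).1 (h2 m (by simp))

theorem rkL_suffix {L L' : List ℕ} (h : L <:+ L') (h' : Good A r L') :
    L' = L ∨ rkL A r L' < rkL A r L := by
  induction L' with
  | nil => left; rw [List.suffix_nil.1 h]
  | cons n L' ih =>
    rcases List.suffix_cons_iff.1 h with rfl | h
    · left; rfl
    · right
      have h1 := rkL_cons_lt h'
      rcases ih h (good_cons.1 h').2.2 with rfl | h2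
      · exact h1
      · exact h1.trans h2

/-- the class -/
def Cls (A : Set ℕ) (r : ℕ → ℕ → Prop) : Set (ℕ → Bool) := {x | ∀ n, Good A r (sta x n).1}

theorem cls_fin {x : ℕ → Bool} (hx : x ∈ Cls A r) : ∃ N, ∀ n, N ≤ n → x n = false := by
  obtain ⟨N, hN⟩ : ∃ N, ∀ n, rkL A r (sta x N).1 ≤ rkL A r (sta x n).1 := by
    have hne : (Set.range fun n => rkL A r (sta x n).1).Nonempty := ⟨_, 0, rfl⟩
    have hmem := csInf_mem hne
    obtain ⟨N, hN⟩ := hmem
    refine ⟨N, fun n => ?_⟩
    have : rkL A r (sta x N).1 = sInf (Set.range fun n => rkL A r (sta x n).1) := hN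
    rw [this]
    exact csInf_le' ⟨n, rfl⟩
  refine ⟨N, fun n hn => zero_of_sta (fun m hm => ?_) hn⟩
  rcases rkL_suffix (sta_suffix x hm) (hx m) with h | h
  · exact h
  · exact absurd (hN m) (not_le.2 h)

open Classical in
/-- stabilisation index -/
noncomputable def stab (x : ℕ → Bool) : ℕ :=
  if h : ∃ N, ∀ n, N ≤ n → x n = false then Nat.find h else 0

theorem stab_spec {x : ℕ → Bool} (h : ∃ N, ∀ n, N ≤ n → x n = false) {n : ℕ} (hn : stab x ≤ n) :
    x n = false := by
  classical
  unfold stab at hn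
  rw [dif_pos h] at hn
  exact Nat.find_spec h n hn

/-- rank of a point -/
noncomputable def rkP (A : Set ℕ) (r : ℕ → ℕ → Prop) [IsWellOrder A (fun a b => r a b)]
    (x : ℕ → Bool) : Ordinal.{0} := rkL A r (sta x (stab x)).1

theorem rkP_eq {x : ℕ → Bool} {N : ℕ} (h : ∀ n, N ≤ n → x n = false) :
    rkP A r x = rkL A r (sta x N).1 := by
  unfold rkP
  have h1 : (sta x (max N (stab x))).1 = (sta x N).1 := by
    rw [sta_zeros h (le_max_left _ _)]
  have h2 : (sta x (max N (stab x))).1 = (sta x (stab x)).1 := by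
    rw [sta_zeros (fun n hn => stab_spec ⟨N, h⟩ hn) (le_max_right _ _)]
  rw [← h1, ← h2]

theorem cls_h1 (x : ℕ → Bool) (hx : x ∈ Cls A r) :
    ∃ n, ∀ y ∈ Cls A r, y ≠ x → seg y n = seg x n → rkP A r y < rkP A r x := by
  obtain ⟨N, hN⟩ := cls_fin hx
  refine ⟨N, fun y hy hyx hs => ?_⟩
  obtain ⟨M, hM⟩ := cls_fin hy
  rw [rkP_eq hN, rkP_eq (N := max M N) (fun n hn => hM n ((le_max_left _ _).trans hn))]
  have h0 : sta y N = sta x N := sta_congr hs
  rcases rkL_suffix (sta_suffix y (le_max_right M N)) (hy (max M N)) with h | h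
  · exfalso
    apply hyx
    have hz : ∀ n, N ≤ n → y n = false := by
      intro n hn
      apply zero_of_sta (N := N) _ hn
      intro m hm
      have s1 := sta_suffix y hm
      by_cases hmM : m ≤ max M N
      · have s2 := sta_suffix y hmM
        rw [h] at s2
        exact (s1.eq_of_length (le_antisymm s1.length_le s2.length_le)).symm
      · rw [sta_zeros (N := max M N) (fun n hn => hM n ((le_max_left _ _).trans hn))
          (by omega)]
        exact h
    funext n
    by_cases hn : N ≤ n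
    · rw [hz n hn, hN n hn]
    · exact (seg_eq_iff.1 hs) n (by omega)
  · rw [← h0]; exact h

theorem cls_h2 (x : ℕ → Bool) (hx : x ∈ Cls A r) (β : Ordinal.{0}) (hβ : β < rkP A r x) (n : ℕ) :
    ∃ y ∈ Cls A r, y ≠ x ∧ seg y n = seg x n ∧ rkP A r y = β := by
  obtain ⟨N, hN⟩ := cls_fin hx
  rw [rkP_eq hN] at hβ
  obtain ⟨a, ha, haβ⟩ := exists_rkN (hβ.trans_le (rkL_le _ (hx N)))
  set L := (sta x N).1 with hL
  set c := (sta x N).2 with hc
  set k := Nat.pair a (c + n) with hk
  have hkc : c + n ≤ k := Nat.right_le_pair _ _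
  set p := N + (k - c) with hp
  have hpN : N ≤ p := by omega
  have hpn : n ≤ p := by omega
  let y : ℕ → Bool := fun j => if j = p then true else x j
  have hyp : y p = true := by simp [y]
  have hyne : ∀ j, j ≠ p → y j = x j := fun j hj => by simp [y, hj]
  have hseg : ∀ m ≤ p, seg y m = seg x m := by
    intro m hm
    rw [seg_eq_iff]
    intro i hi
    exact hyne i (by omega)
  have hstp : sta y p = (L, k) := by
    rw [sta_congr (hseg p le_rfl), sta_zeros hN hpN]
    simp only [← hL, ← hc]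
    congr 1
    omega
  have hst1 : sta y (p + 1) = (k :: L, 0) := by
    show stp (sta y p) (y p) = _
    rw [hstp, hyp]; rfl
  have hz : ∀ j, p + 1 ≤ j → y j = false := by
    intro j hj
    rw [hyne j (by omega)]
    exact hN j (by omega)
  have hgood : Good A r (k :: L) := by
    rw [good_cons]
    have hk1 : k.unpair.1 = a := by rw [hk, Nat.unpair_pair]
    rw [hk1]
    refine ⟨ha, fun m hm => ?_, hx N⟩
    rw [← haβ] at hβ
    cases hLL : L with
    | nil => rw [hLL] at hm; simp at hm
    | cons m' L' =>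
      rw [hLL] at hm hβ
      simp only [List.getElem?_cons_zero, Option.some.injEq] at hm
      subst hm
      have hg : Good A r (m' :: L') := by rw [← hLL]; exact hx N
      exact (rkN_lt_iff ha (good_cons.1 hg).1).1 hβ
  refine ⟨y, ?_, ?_, hseg n hpn, ?_⟩
  · intro m
    by_cases hm : m ≤ p
    · rw [sta_congr (hseg m hm)]
      exact hx m
    · rw [sta_zeros hz (by omega), hst1]
      exact hgood
  · intro h
    have := congrFun h p
    rw [hyp, hN p hpN] at this
    exact absurd this (by decide)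
  · rw [rkP_eq hz, hst1]
    show rkN A r k.unpair.1 = β
    rw [hk, Nat.unpair_pair]
    exact haβ

theorem cls_countable : (Cls A r).Countable := by
  refine (Set.countable_range fun (σ : List Bool) (i : ℕ) => (σ[i]?).getD false).mono ?_
  intro x hx
  obtain ⟨N, hN⟩ := cls_fin hx
  refine ⟨seg x N, ?_⟩
  funext i
  by_cases hi : i < N
  · simp only
    rw [seg_getElem? x hi]; rfl
  · simp only
    rw [List.getElem?_eq_none (by rw [seg_length]; omega), hN i (by omega)]; rfl

theorem zero_mem_cls : (fun _ => false) ∈ Cls A r := by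
  intro n
  rw [sta_zeros (N := 0) (fun _ _ => rfl) (Nat.zero_le n)]
  exact good_nil

theorem cls_hasRank : HasRank (Cls A r) (Ordinal.type (fun a b : A => r a b)) := by
  have hcb := cb_eq_of_rank (P := Cls A r) (ρ := rkP A r) cls_h1 cls_h2
  have hz : rkP A r (fun _ => false) = Ordinal.type (fun a b : A => r a b) :=
    rkP_eq (N := 0) (fun _ _ => rfl)
  refine ⟨cls_countable, ?_, ?_⟩
  · show cb (Cls A r) (_ + 1) = ∅
    rw [hcb]
    ext x
    simp only [Set.mem_ofPred_eq, Set.mem_empty_iff_false, iff_false, not_and, not_le]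
    intro hx
    obtain ⟨N, hN⟩ := cls_fin hx
    rw [rkP_eq hN, Order.lt_add_one_iff]
    exact rkL_le _ (hx N)
  · intro β hβ
    by_contra hlt
    rw [not_le] at hlt
    have hβ' : cb (Cls A r) (β + 1) = ∅ := hβ
    rw [hcb] at hβ'
    have : (fun _ => false) ∈ {x | x ∈ Cls A r ∧ β + 1 ≤ rkP A r x} := by
      refine ⟨zero_mem_cls, ?_⟩
      rw [hz, Order.add_one_le_iff]
      exact hlt
    rw [hβ'] at this
    exact this

end Class

theorem stp_comp : Computable fun p : (List ℕ × ℕ) × Bool => stp p.1 p.2 := by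
  have h : Computable fun p : (List ℕ × ℕ) × Bool =>
      bif p.2 then (p.1.2 :: p.1.1, 0) else (p.1.1, p.1.2 + 1) := by
    refine ccond (by fun_prop) (by fun_prop) (by fun_prop)
  refine h.of_eq fun p => ?_
  unfold stp
  cases p.2 <;> rfl

theorem dec_comp : Computable fun σ : List Bool => (σ.foldl stp ([], 0)).1 := by
  have h := RE.list_foldl (f := fun σ : List Bool => σ) (g := fun _ => (([], 0) : List ℕ × ℕ))
    (h := fun _ (p : (List ℕ × ℕ) × Bool) => stp p.1 p.2) Computable.id (Computable.const _)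
    (stp_comp.comp Computable.snd)
  exact Computable.fst.comp h

theorem cls_pi01 {A : Set ℕ} {r : ℕ → ℕ → Prop} (hA : ComputablePred (fun n => n ∈ A))
    (hr : ComputablePred (fun p : ℕ × ℕ => r p.1 p.2)) : IsPi01 (Cls A r) := by
  rw [isPi01_iff]
  refine ⟨{σ | ¬ Good A r (σ.foldl stp ([], 0)).1}, ?_, ?_⟩
  · have h1 : REPred fun σ : List Bool => ∃ n ∈ (σ.foldl stp ([], 0)).1, n.unpair.1 ∉ A := by
      refine RE.ex_mem (p := fun (_ : List Bool) (n : ℕ) => n.unpair.1 ∉ A) ?_ dec_comp
      exact RE.comp (f := fun x : List Bool × ℕ => x.2.unpair.1) hA.not.to_re (by fun_prop)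
    have h2 : REPred fun σ : List Bool => ∃ i a b : ℕ, (σ.foldl stp ([], 0)).1[i]? = some a ∧
        (σ.foldl stp ([], 0)).1[i + 1]? = some b ∧ ¬ r a.unpair.1 b.unpair.1 := by
      refine RE.exN (p := fun (σ : List Bool) i => ∃ a b : ℕ,
        (σ.foldl stp ([], 0)).1[i]? = some a ∧
        (σ.foldl stp ([], 0)).1[i + 1]? = some b ∧ ¬ r a.unpair.1 b.unpair.1) ?_
      refine RE.exN (p := fun (x : List Bool × ℕ) a => ∃ b : ℕ,
        (x.1.foldl stp ([], 0)).1[x.2]? = some a ∧
        (x.1.foldl stp ([], 0)).1[x.2 + 1]? = some b ∧ ¬ r a.unpair.1 b.unpair.1) ?_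
      refine RE.exN (p := fun (x : (List Bool × ℕ) × ℕ) b =>
        (x.1.1.foldl stp ([], 0)).1[x.1.2]? = some x.2 ∧
        (x.1.1.foldl stp ([], 0)).1[x.1.2 + 1]? = some b ∧ ¬ r x.2.unpair.1 b.unpair.1) ?_
      have hd : Computable fun x : ((List Bool × ℕ) × ℕ) × ℕ =>
          (x.1.1.1.foldl stp ([], 0)).1 :=
        dec_comp.comp (f := fun σ : List Bool => (σ.foldl stp ([], 0)).1)
          (g := fun x : ((List Bool × ℕ) × ℕ) × ℕ => x.1.1.1) (by fun_prop)
      refine RE.and (RE.eq (cgetElem hd (by fun_prop)) (by fun_prop))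
        (RE.and (RE.eq (cgetElem hd (by fun_prop)) (by fun_prop)) ?_)
      exact RE.comp (f := fun x : ((List Bool × ℕ) × ℕ) × ℕ =>
        (x.1.2.unpair.1, x.2.unpair.1)) hr.not.to_re (by fun_prop)
    refine (RE.or h1 h2).of_eq fun σ => ?_
    show _ ↔ ¬ Good A r _
    unfold Good
    rw [not_and_or]
    push Not
    rfl
  · ext x
    simp only [Cls, Set.mem_ofPred_eq, not_not, sta_eq]

/-- For every computable ordinal `α` there is a countable `Π⁰₁` class of rank `α`. -/
theorem exists_rank {α : Ordinal.{0}} (h : IsComputableOrdinal α) : (R α).Nonempty := by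
  obtain ⟨A, r, hA, hr, hwo, rfl⟩ := h
  have := hwo
  exact ⟨⟨Cls A r, cls_pi01 hA hr⟩, cls_hasRank⟩

end Pool.Agent.Helper446.CB.Ex
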