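import Pool.Agent.Helper446.CB.Sem
import Pool.Agent.Helper446.CB.DefP

/-!
Definability of the families `{F | D^n(F) = ∅}`.
-/

namespace Pool.Agent.Helper446.CB

open Pool.Agent.Helper446.Defs

/-- The clopen class `C` misses `F_i`. -/
def E (i : ℕ) (F C : EPi) : Prop := IsClopen C.1 ∧ C.1 ∩ Fd F.1 i = ∅

/-- The clopen class `C` misses the closed set coded by `g`. -/
def H (i : ℕ) (F g C : EPi) : Prop := IsClopen C.1 ∧ C.1 ∩ Gd F.1 g.1 i = ∅

theorem not_E {i : ℕ} {F C : EPi} (hC : IsClopen C.1) : ¬ E i F C ↔ ¬ C.1 ∩ Fd F.1 i = ∅ :=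
  ⟨fun h h2 => h ⟨hC, h2⟩, fun h h2 => h h2.2⟩

/-- The characterisation of `D^{n+1}(F) = ∅`. -/
theorem main_equiv' (F : EPi) (n : ℕ) : cb F.1 ((n + 1 : ℕ) : Ordinal.{0}) = ∅ ↔
    (∀ i < n + 1, ∀ C : EPi, IsClopen C.1 → ¬ E i F C → ∃ C' : EPi,
      C' ≤ C ∧ (IsClopen C'.1 ∧ ¬ E i F C') ∧ E (i + 1) F C') ∧
    ¬ ∃ g : EPi, (∃ C : EPi, IsClopen C.1 ∧ ¬ H (n + 1) F g C) ∧
      ∀ C : EPi, IsClopen C.1 → ¬ H (n + 1) F g C →
        ∃ C₁ : EPi, ∃ C₂ : EPi, (C₁ ≤ C ∧ C₂ ≤ C) ∧ C₁.1 ∩ C₂.1 = ∅ ∧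
          (IsClopen C₁.1 ∧ ¬ E (n + 1) F C₁) ∧ (IsClopen C₂.1 ∧ ¬ E (n + 1) F C₂) := by
  rw [main_equiv F n]
  refine and_congr ?_ (not_congr ?_)
  · refine forall_congr' fun i => forall_congr' fun hi => forall_congr' fun C =>
      forall_congr' fun hC => ?_
    rw [not_E hC]
    refine forall_congr' fun _ => exists_congr fun C' => ?_
    constructor
    · rintro ⟨⟨h1, h2⟩, h3, h4⟩
      exact ⟨h2, ⟨h1, (not_E h1).2 h3⟩, h1, h4⟩
    · rintro ⟨h2, ⟨h1, h3⟩, -, h4⟩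
      exact ⟨⟨h1, h2⟩, (not_E h1).1 h3, h4⟩
  · refine exists_congr fun g => and_congr Iff.rfl (forall_congr' fun C => forall_congr' fun hC =>
      forall_congr' fun hne => exists_congr fun C₁ => exists_congr fun C₂ => ?_)
    constructor
    · rintro ⟨⟨h1, h2⟩, h3, h4, h5, h6⟩
      exact ⟨h3, h4, ⟨h1, (not_E h1).2 h5⟩, h2, (not_E h2).2 h6⟩
    · rintro ⟨h3, h4, ⟨h1, h5⟩, h2, h6⟩
      exact ⟨⟨h1, h2⟩, h3, h4, (not_E h1).1 h5, (not_E h2).1 h6⟩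

theorem defE (i : ℕ) (h : ∀ j, i = j + 1 → Def1 fun F => cb F.1 (j : Ordinal.{0}) = ∅) :
    Def2 (E i) := by
  intro Γ a b
  cases i with
  | zero =>
    refine ((defClopen b).and (defIsEmpty b)).of_iff fun v => ?_
    show _ ↔ IsClopen (v b).1 ∧ (v b).1 ∩ Set.univ = ∅
    rw [Set.inter_univ]
  | succ j =>
    have hj : Def1 fun F => cb F.1 (j : Ordinal.{0}) = ∅ := h j rfl
    refine ((defClopen b).and (DefP.ex (R := fun v (x : EPi) => x.1 = (v a).1 ∩ (v b).1 ∧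
      cb x.1 (j : Ordinal.{0}) = ∅) ((defInter _ _ _).and (hj _)))).of_iff fun v => ?_
    refine and_congr_right fun hC => ?_
    have key : cb ((v a).1 ∩ (v b).1) (j : Ordinal.{0}) = (v b).1 ∩ cb (v a).1 j := by
      rw [cb_inter hC.isOpen, Set.inter_comm]
    constructor
    · rintro ⟨x, hx1, hx2⟩
      rw [hx1, key] at hx2
      exact hx2
    · intro h
      refine ⟨⟨(v a).1 ∩ (v b).1, IsPi01.inter (v a).2 (v b).2⟩, rfl, ?_⟩
      rw [key]
      exact h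

theorem defH (i : ℕ) (h : ∀ j < i, Def1 fun F => cb F.1 (j : Ordinal.{0}) = ∅) :
    Def3 (H i) := by
  induction i with
  | zero =>
    intro Γ a b c
    exact (defClopen c).and (defDisj c b)
  | succ i ih =>
    have ih' : Def3 (H i) := ih fun j hj => h j (by omega)
    have hE : Def2 (E (i + 1)) := defE (i + 1) fun j hj => h j (by omega)
    intro Γ a b c
    refine ((defClopen c).and (DefP.ex (R := fun v (U : EPi) => IsClopen U.1 ∧
      (∀ V : EPi, IsClopen V.1 → V ≤ v c → V.1 ∩ U.1 = ∅ → E (i + 1) (v a) V) ∧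
      ∀ V : EPi, V ≤ U → E (i + 1) (v a) V → H i (v a) (v b) V) ?_)).of_iff fun v => ?_
    · refine (defClopen _).and (DefP.and ?_ ?_)
      · refine DefP.all (R := fun (v : Γ ⊕ Unit → EPi) (V : EPi) => IsClopen V.1 →
          V ≤ v (Sum.inl c) → V.1 ∩ (v (Sum.inr ())).1 = ∅ → E (i + 1) (v (Sum.inl a)) V) ?_
        exact (defClopen _).imp ((DefP.le _ _).imp ((defDisj _ _).imp (hE _ _)))
      · refine DefP.all (R := fun (v : Γ ⊕ Unit → EPi) (V : EPi) => V ≤ v (Sum.inr ()) →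
          E (i + 1) (v (Sum.inl a)) V → H i (v (Sum.inl a)) (v (Sum.inl b)) V) ?_
        exact (DefP.le _ _).imp ((hE _ _).imp (ih' _ _ _))
    · refine and_congr_right fun hC => ?_
      have hFc : IsClosed (v a).1 := IsPi01.isClosed (v a).2
      show _ ↔ (v c).1 ∩ op (Fd (v a).1 (i + 1)) (Gd (v a).1 (v b).1 i) = ∅
      rw [sem_op hC (isClosed_Fd hFc _)]
      constructor
      · rintro ⟨U, hU, h1, h2⟩
        refine ⟨U.1, hU, fun V hV hVC hVU => ?_, fun V hV hVU hVY => ?_⟩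
        · exact (h1 ⟨V, IsPi01.of_clopen hV⟩ hV hVC hVU).2
        · exact (h2 ⟨V, IsPi01.of_clopen hV⟩ hVU ⟨hV, hVY⟩).2
      · rintro ⟨U, hU, h1, h2⟩
        refine ⟨⟨U, IsPi01.of_clopen hU⟩, hU, fun V hV hVC hVU => ?_, fun V hVU hVY => ?_⟩
        · exact ⟨hV, h1 V.1 hV hVC hVU⟩
        · exact ⟨hVY.1, h2 V.1 hVY.1 hVU hVY.2⟩

/-- The families `{F | D^n(F) = ∅}` are definable. -/
theorem def_null (n : ℕ) : Def1 fun F => cb F.1 (n : Ordinal.{0}) = ∅ := by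
  induction n using Nat.strong_induction_on with
  | _ n ih =>
    cases n with
    | zero =>
      intro Γ i
      exact (defIsEmpty i).of_iff fun v => by dsimp only; rw [Nat.cast_zero, cb_zero]
    | succ n =>
      have hE : ∀ i < n + 2, Def2 (E i) := fun i hi => defE i fun j hj => ih j (by omega)
      have hH : Def3 (H (n + 1)) := defH (n + 1) ih
      intro Γ a
      refine (DefP.and ?_ ?_).of_iff fun v => (main_equiv' (v a) n).symm
      · refine DefP.all_lt (R := fun i v => ∀ C : EPi, IsClopen C.1 → ¬ E i (v a) C →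
          ∃ C' : EPi, C' ≤ C ∧ (IsClopen C'.1 ∧ ¬ E i (v a) C') ∧ E (i + 1) (v a) C') _ ?_
        intro i hi
        refine DefP.all (R := fun (v : Γ → EPi) (C : EPi) => IsClopen C.1 → ¬ E i (v a) C →
          ∃ C' : EPi, C' ≤ C ∧ (IsClopen C'.1 ∧ ¬ E i (v a) C') ∧ E (i + 1) (v a) C') ?_
        refine (defClopen _).imp ((hE i (by omega) _ _).not.imp ?_)
        refine DefP.ex (R := fun (v : Γ ⊕ Unit → EPi) (C' : EPi) => C' ≤ v (Sum.inr ()) ∧
          (IsClopen C'.1 ∧ ¬ E i (v (Sum.inl a)) C') ∧ E (i + 1) (v (Sum.inl a)) C') ?_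
        exact (DefP.le _ _).and (((defClopen _).and (hE i (by omega) _ _).not).and
          (hE (i + 1) (by omega) _ _))
      · refine DefP.not (DefP.ex (R := fun (v : Γ → EPi) (g : EPi) =>
          (∃ C : EPi, IsClopen C.1 ∧ ¬ H (n + 1) (v a) g C) ∧
          ∀ C : EPi, IsClopen C.1 → ¬ H (n + 1) (v a) g C →
            ∃ C₁ : EPi, ∃ C₂ : EPi, (C₁ ≤ C ∧ C₂ ≤ C) ∧ C₁.1 ∩ C₂.1 = ∅ ∧
              (IsClopen C₁.1 ∧ ¬ E (n + 1) (v a) C₁) ∧
              (IsClopen C₂.1 ∧ ¬ E (n + 1) (v a) C₂)) ?_)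
        refine DefP.and ?_ ?_
        · refine DefP.ex (R := fun (v : Γ ⊕ Unit → EPi) (C : EPi) => IsClopen C.1 ∧
            ¬ H (n + 1) (v (Sum.inl a)) (v (Sum.inr ())) C) ?_
          exact (defClopen _).and (hH _ _ _).not
        · refine DefP.all (R := fun (v : Γ ⊕ Unit → EPi) (C : EPi) => IsClopen C.1 →
            ¬ H (n + 1) (v (Sum.inl a)) (v (Sum.inr ())) C →
            ∃ C₁ : EPi, ∃ C₂ : EPi, (C₁ ≤ C ∧ C₂ ≤ C) ∧ C₁.1 ∩ C₂.1 = ∅ ∧
              (IsClopen C₁.1 ∧ ¬ E (n + 1) (v (Sum.inl a)) C₁) ∧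
              (IsClopen C₂.1 ∧ ¬ E (n + 1) (v (Sum.inl a)) C₂)) ?_
          refine (defClopen _).imp ((hH _ _ _).not.imp ?_)
          refine DefP.ex (R := fun (v : (Γ ⊕ Unit) ⊕ Unit → EPi) (C₁ : EPi) =>
            ∃ C₂ : EPi, (C₁ ≤ v (Sum.inr ()) ∧ C₂ ≤ v (Sum.inr ())) ∧ C₁.1 ∩ C₂.1 = ∅ ∧
              (IsClopen C₁.1 ∧ ¬ E (n + 1) (v (Sum.inl (Sum.inl a))) C₁) ∧
              (IsClopen C₂.1 ∧ ¬ E (n + 1) (v (Sum.inl (Sum.inl a))) C₂)) ?_
          refine DefP.ex (R := fun (v : ((Γ ⊕ Unit) ⊕ Unit) ⊕ Unit → EPi) (C₂ : EPi) =>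
            (v (Sum.inr ()) ≤ v (Sum.inl (Sum.inr ())) ∧ C₂ ≤ v (Sum.inl (Sum.inr ()))) ∧
            (v (Sum.inr ())).1 ∩ C₂.1 = ∅ ∧
              (IsClopen (v (Sum.inr ())).1 ∧
                ¬ E (n + 1) (v (Sum.inl (Sum.inl (Sum.inl a)))) (v (Sum.inr ()))) ∧
              (IsClopen C₂.1 ∧ ¬ E (n + 1) (v (Sum.inl (Sum.inl (Sum.inl a)))) C₂)) ?_
          refine ((DefP.le _ _).and (DefP.le _ _)).and ((defDisj _ _).and (DefP.and ?_ ?_))
          · exact (defClopen _).and (hE (n + 1) (by omega) _ _).not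
          · exact (defClopen _).and (hE (n + 1) (by omega) _ _).not

end Pool.Agent.Helper446.CB
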