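import Pool.Agent.Helper446.Comp

/-!
The arithmetical hierarchy for predicates on coded types: closure properties, unique witnesses,
uniformisation.
-/

namespace Pool.Agent.Helper446.CB

open Encodable Pool.Agent.Helper446.RE

/-- `Σ⁰_n` predicates. -/
def Sig : (n : ℕ) → {α : Type} → [Primcodable α] → (α → Prop) → Prop
  | 0, _, _, p => ComputablePred p
  | n + 1, α, _, p => ∃ q : α × ℕ → Prop, Sig n q ∧ ∀ a, p a ↔ ∃ m, ¬ q (a, m)

/-- `Π⁰_n` predicates. -/
def Pi (n : ℕ) {α : Type} [Primcodable α] (p : α → Prop) : Prop := Sig n fun a => ¬ p a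

variable {α β γ : Type} [Primcodable α] [Primcodable β] [Primcodable γ]

theorem Sig.of_iff {n : ℕ} {p q : α → Prop} (h : Sig n p) (hpq : ∀ a, p a ↔ q a) : Sig n q := by
  have : p = q := funext fun a => propext (hpq a)
  rwa [← this]

theorem Pi.of_iff {n : ℕ} {p q : α → Prop} (h : Pi n p) (hpq : ∀ a, p a ↔ q a) : Pi n q := by
  have : p = q := funext fun a => propext (hpq a)
  rwa [← this]

theorem Sig.comp {n : ℕ} {p : β → Prop} (h : Sig n p) {f : α → β} (hf : Computable f) :
    Sig n fun a => p (f a) := by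
  induction n generalizing α β with
  | zero => exact RE.cp_comp h hf
  | succ n ih =>
    obtain ⟨q, hq, h⟩ := h
    refine ⟨fun x => q (f x.1, x.2), ih hq (by fun_prop), fun a => h (f a)⟩

theorem Pi.comp {n : ℕ} {p : β → Prop} (h : Pi n p) {f : α → β} (hf : Computable f) :
    Pi n fun a => p (f a) := Sig.comp (p := fun b => ¬ p b) h hf

theorem Sig.not {n : ℕ} {p : α → Prop} (h : Sig n p) : Pi n fun a => ¬ p a := by
  unfold Pi
  simpa using h

theorem Pi.not {n : ℕ} {p : α → Prop} (h : Pi n p) : Sig n fun a => ¬ p a := h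

theorem pi_zero {p : α → Prop} : Pi 0 p ↔ ComputablePred p := by
  unfold Pi Sig
  constructor
  · intro h; simpa using h.not
  · intro h; exact h.not

theorem Pi.sig {n : ℕ} {p : α → Prop} (h : Pi n p) : Sig (n + 1) p :=
  ⟨fun x => ¬ p x.1, Sig.comp (p := fun a => ¬ p a) h (f := fun x : α × ℕ => x.1) (by fun_prop),
    fun a => by simp⟩

theorem Sig.pi {n : ℕ} {p : α → Prop} (h : Sig n p) : Pi (n + 1) p := Pi.sig h.not

theorem Sig.succ {n : ℕ} {p : α → Prop} (h : Sig n p) : Sig (n + 1) p := by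
  induction n generalizing α with
  | zero => exact Pi.sig (pi_zero.2 h)
  | succ n ih =>
    obtain ⟨q, hq, h⟩ := h
    exact ⟨q, ih hq, h⟩

theorem Pi.succ {n : ℕ} {p : α → Prop} (h : Pi n p) : Pi (n + 1) p := Sig.succ h

theorem Sig.mono {n m : ℕ} (hnm : n ≤ m) {p : α → Prop} (h : Sig n p) : Sig m p := by
  induction m, hnm using Nat.le_induction with
  | base => exact h
  | succ m _ ih => exact ih.succ

theorem Pi.mono {n m : ℕ} (hnm : n ≤ m) {p : α → Prop} (h : Pi n p) : Pi m p := Sig.mono hnm h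

theorem Pi.toSig {n m : ℕ} (hnm : n < m) {p : α → Prop} (h : Pi n p) : Sig m p :=
  Sig.mono hnm h.sig

theorem Sig.toPi {n m : ℕ} (hnm : n < m) {p : α → Prop} (h : Sig n p) : Pi m p :=
  Pi.mono hnm h.pi

theorem Sig.of_cp {n : ℕ} {p : α → Prop} (h : ComputablePred p) : Sig n p :=
  Sig.mono (Nat.zero_le n) h

theorem Pi.of_cp {n : ℕ} {p : α → Prop} (h : ComputablePred p) : Pi n p := Sig.of_cp h.not

theorem cp_and {p q : α → Prop} (hp : ComputablePred p) (hq : ComputablePred q) :
    ComputablePred fun a => p a ∧ q a :=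
  RE.cp_of_re (RE.and hp.to_re hq.to_re)
    ((RE.or hp.not.to_re hq.not.to_re).of_eq fun a => by rw [not_and_or])

theorem cp_or {p q : α → Prop} (hp : ComputablePred p) (hq : ComputablePred q) :
    ComputablePred fun a => p a ∨ q a :=
  RE.cp_of_re (RE.or hp.to_re hq.to_re)
    ((RE.and hp.not.to_re hq.not.to_re).of_eq fun a => by rw [not_or])

theorem sig_and_or (n : ℕ) : ∀ {α : Type} [Primcodable α] {p q : α → Prop}, Sig n p → Sig n q →
    Sig n (fun a => p a ∧ q a) ∧ Sig n (fun a => p a ∨ q a) := by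
  induction n with
  | zero =>
    intro α _ p q hp hq
    exact ⟨cp_and hp hq, cp_or hp hq⟩
  | succ n ih =>
    intro α _ p q hp hq
    obtain ⟨p', hp', hp⟩ := hp
    obtain ⟨q', hq', hq⟩ := hq
    constructor
    · refine ⟨fun x => p' (x.1, x.2.unpair.1) ∨ q' (x.1, x.2.unpair.2), ?_, fun a => ?_⟩
      · exact (ih (hp'.comp (f := fun x : α × ℕ => (x.1, x.2.unpair.1)) (by fun_prop))
          (hq'.comp (f := fun x : α × ℕ => (x.1, x.2.unpair.2)) (by fun_prop))).2
      · dsimp only
        rw [hp, hq]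
        constructor
        · rintro ⟨⟨m, hm⟩, k, hk⟩
          exact ⟨Nat.pair m k, by simp [hm, hk]⟩
        · rintro ⟨m, hm⟩
          push Not at hm
          exact ⟨⟨_, hm.1⟩, _, hm.2⟩
    · refine ⟨fun x => p' x ∧ q' x, (ih hp' hq').1, fun a => ?_⟩
      dsimp only
      rw [hp, hq]
      constructor
      · rintro (⟨m, hm⟩ | ⟨m, hm⟩)
        · exact ⟨m, fun h => hm h.1⟩
        · exact ⟨m, fun h => hm h.2⟩
      · rintro ⟨m, hm⟩
        rw [not_and_or] at hm
        rcases hm with hm | hm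
        exacts [Or.inl ⟨m, hm⟩, Or.inr ⟨m, hm⟩]

theorem Sig.and {n : ℕ} {p q : α → Prop} (hp : Sig n p) (hq : Sig n q) :
    Sig n fun a => p a ∧ q a := (sig_and_or n hp hq).1

theorem Sig.or {n : ℕ} {p q : α → Prop} (hp : Sig n p) (hq : Sig n q) :
    Sig n fun a => p a ∨ q a := (sig_and_or n hp hq).2

theorem Pi.and {n : ℕ} {p q : α → Prop} (hp : Pi n p) (hq : Pi n q) :
    Pi n fun a => p a ∧ q a := (Sig.or hp hq).of_iff fun a => by rw [not_and_or]

theorem Pi.or {n : ℕ} {p q : α → Prop} (hp : Pi n p) (hq : Pi n q) :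
    Pi n fun a => p a ∨ q a := (Sig.and hp hq).of_iff fun a => by rw [not_or]

theorem Sig.imp {n : ℕ} {p q : α → Prop} (hp : Pi n p) (hq : Sig n q) :
    Sig n fun a => p a → q a := (Sig.or hp hq).of_iff fun a => by rw [imp_iff_not_or]

theorem Pi.imp {n : ℕ} {p q : α → Prop} (hp : Sig n p) (hq : Pi n q) :
    Pi n fun a => p a → q a := (Pi.or hp.not hq).of_iff fun a => by rw [imp_iff_not_or]

theorem Sig.exN {n : ℕ} {p : α → ℕ → Prop} (hp : Sig (n + 1) fun x : α × ℕ => p x.1 x.2) :
    Sig (n + 1) fun a => ∃ k, p a k := by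
  obtain ⟨q, hq, h⟩ := hp
  refine ⟨fun x => q ((x.1, x.2.unpair.1), x.2.unpair.2), hq.comp (by fun_prop), fun a => ?_⟩
  constructor
  · rintro ⟨k, hk⟩
    obtain ⟨m, hm⟩ := (h (a, k)).1 hk
    exact ⟨Nat.pair k m, by simpa using hm⟩
  · rintro ⟨j, hj⟩
    exact ⟨j.unpair.1, (h (a, _)).2 ⟨_, hj⟩⟩

/-- A computable surjection from the natural numbers. -/
def gd (b0 : β) (k : ℕ) : β := (decode (α := β) k).getD b0

theorem gd_comp (b0 : β) : Computable (gd b0) :=
  (Primrec.option_getD.comp Primrec.decode (Primrec.const b0)).to_comp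

@[fun_prop] theorem gd_comp' (b0 : β) {f : α → ℕ} (hf : Computable f) :
    Computable fun a => gd b0 (f a) := (gd_comp b0).comp hf

theorem gd_encode (b0 b : β) : gd b0 (encode b) = b := by simp [gd]

theorem Sig.ex {n : ℕ} {p : α → β → Prop} (hp : Sig (n + 1) fun x : α × β => p x.1 x.2) :
    Sig (n + 1) fun a => ∃ b, p a b := by
  by_cases hβ : Nonempty β
  · obtain ⟨b0⟩ := hβ
    have h1 : Sig (n + 1) fun a => ∃ k, p a (gd b0 k) := by
      refine Sig.exN (p := fun a k => p a (gd b0 k)) ?_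
      exact hp.comp (f := fun x : α × ℕ => (x.1, gd b0 x.2)) (by fun_prop)
    refine h1.of_iff fun a => ⟨fun ⟨k, hk⟩ => ⟨_, hk⟩, fun ⟨b, hb⟩ => ⟨encode b, ?_⟩⟩
    rwa [gd_encode]
  · refine (Sig.of_cp (p := fun _ : α => False) ?_).of_iff fun a => ?_
    · exact (RE.cp_eq (Computable.const ()) (Computable.const ())).not.of_eq (fun _ => by simp)
    · simp only [false_iff]
      rintro ⟨b, -⟩
      exact hβ ⟨b⟩

theorem Pi.all {n : ℕ} {p : α → β → Prop} (hp : Pi (n + 1) fun x : α × β => p x.1 x.2) :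
    Pi (n + 1) fun a => ∀ b, p a b := by
  have h : Sig (n + 1) fun a => ∃ b, ¬ p a b := Sig.ex (p := fun a b => ¬ p a b) hp
  exact Sig.of_iff h fun a => by rw [not_forall]

theorem cp_ball {p : α → β → Prop} (hp : ComputablePred fun x : α × β => p x.1 x.2)
    {l : α → List β} (hl : Computable l) : ComputablePred fun a => ∀ b ∈ l a, p a b := by
  refine RE.cp_of_re (RE.all_mem hp.to_re hl) ?_
  refine (RE.ex_mem (p := fun a b => ¬ p a b) hp.not.to_re hl).of_eq fun a => ?_
  push Not
  rfl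

theorem cp_bex {p : α → β → Prop} (hp : ComputablePred fun x : α × β => p x.1 x.2)
    {l : α → List β} (hl : Computable l) : ComputablePred fun a => ∃ b ∈ l a, p a b := by
  refine RE.cp_of_re (RE.ex_mem hp.to_re hl) ?_
  refine (RE.all_mem (p := fun a b => ¬ p a b) hp.not.to_re hl).of_eq fun a => ?_
  push Not
  rfl

@[fun_prop] theorem crange {f : α → ℕ} (hf : Computable f) :
    Computable fun a => List.range (f a) := Primrec.list_range.to_comp.comp hf

theorem sig_ball_bex (n : ℕ) : ∀ {α β : Type} [Primcodable α] [Primcodable β] {p : α → β → Prop},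
    (Sig n fun x : α × β => p x.1 x.2) → ∀ {l : α → List β}, Computable l →
    Sig n (fun a => ∀ b ∈ l a, p a b) ∧ Sig n (fun a => ∃ b ∈ l a, p a b) := by
  induction n with
  | zero =>
    intro α β _ _ p hp l hl
    exact ⟨cp_ball hp hl, cp_bex hp hl⟩
  | succ n ih =>
    intro α β _ _ p hp l hl
    constructor
    · obtain ⟨q, hq, h⟩ := hp
      refine ⟨fun x : α × ℕ => ∃ b ∈ l x.1, ∀ m ∈ List.range x.2, q ((x.1, b), m), ?_,
        fun a => ?_⟩
      · refine (ih (p := fun (x : α × ℕ) (b : β) => ∀ m ∈ List.range x.2, q ((x.1, b), m)) ?_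
          (l := fun x => l x.1) (by fun_prop)).2
        refine (ih (p := fun (x : (α × ℕ) × β) (m : ℕ) => q ((x.1.1, x.2), m)) ?_
          (l := fun x : (α × ℕ) × β => List.range x.1.2) (by fun_prop)).1
        exact hq.comp (f := fun x : ((α × ℕ) × β) × ℕ => ((x.1.1.1, x.1.2), x.2)) (by fun_prop)
      · constructor
        · intro h1
          have h2 : ∀ b, ∃ m, b ∈ l a → ¬ q ((a, b), m) := by
            intro b
            by_cases hb : b ∈ l a
            · obtain ⟨m, hm⟩ := (h (a, b)).1 (h1 b hb)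
              exact ⟨m, fun _ => hm⟩
            · exact ⟨0, fun h => absurd h hb⟩
          choose M hM using h2
          refine ⟨((l a).map M).sum + 1, ?_⟩
          rintro ⟨b, hb, hb2⟩
          refine hM b hb (hb2 (M b) ?_)
          rw [List.mem_range]
          have : M b ≤ ((l a).map M).sum := List.single_le_sum (by simp) _
            (List.mem_map.2 ⟨b, hb, rfl⟩)
          omega
        · rintro ⟨N, hN⟩ b hb
          push Not at hN
          obtain ⟨m, -, hm⟩ := hN b hb
          exact (h (a, b)).2 ⟨m, hm⟩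
    · refine Sig.ex (p := fun a b => b ∈ l a ∧ p a b) (Sig.and (Sig.of_cp ?_) hp)
      exact cp_mem (f := fun x : α × β => x.2) (l := fun x : α × β => l x.1) (by fun_prop)
        (by fun_prop)

theorem Sig.ball {n : ℕ} {p : α → β → Prop} (hp : Sig n fun x : α × β => p x.1 x.2)
    {l : α → List β} (hl : Computable l) : Sig n fun a => ∀ b ∈ l a, p a b :=
  (sig_ball_bex n hp hl).1

theorem Sig.bex {n : ℕ} {p : α → β → Prop} (hp : Sig n fun x : α × β => p x.1 x.2)
    {l : α → List β} (hl : Computable l) : Sig n fun a => ∃ b ∈ l a, p a b :=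
  (sig_ball_bex n hp hl).2

theorem Pi.ball {n : ℕ} {p : α → β → Prop} (hp : Pi n fun x : α × β => p x.1 x.2)
    {l : α → List β} (hl : Computable l) : Pi n fun a => ∀ b ∈ l a, p a b := by
  refine Sig.of_iff (Sig.bex (p := fun a b => ¬ p a b) hp hl) fun a => ?_
  push Not
  rfl

theorem Pi.bex {n : ℕ} {p : α → β → Prop} (hp : Pi n fun x : α × β => p x.1 x.2)
    {l : α → List β} (hl : Computable l) : Pi n fun a => ∃ b ∈ l a, p a b := by
  refine Sig.of_iff (Sig.ball (p := fun a b => ¬ p a b) hp hl) fun a => ?_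
  push Not
  rfl

theorem Sig.all_lt {n : ℕ} {p : α → ℕ → Prop} (hp : Sig n fun x : α × ℕ => p x.1 x.2)
    {f : α → ℕ} (hf : Computable f) : Sig n fun a => ∀ i < f a, p a i :=
  (Sig.ball hp (l := fun a => List.range (f a)) (by fun_prop)).of_iff fun a => by
    simp only [List.mem_range]

theorem Sig.ex_lt {n : ℕ} {p : α → ℕ → Prop} (hp : Sig n fun x : α × ℕ => p x.1 x.2)
    {f : α → ℕ} (hf : Computable f) : Sig n fun a => ∃ i < f a, p a i :=
  (Sig.bex hp (l := fun a => List.range (f a)) (by fun_prop)).of_iff fun a => by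
    simp only [List.mem_range]

theorem Pi.all_lt {n : ℕ} {p : α → ℕ → Prop} (hp : Pi n fun x : α × ℕ => p x.1 x.2)
    {f : α → ℕ} (hf : Computable f) : Pi n fun a => ∀ i < f a, p a i :=
  (Pi.ball hp (l := fun a => List.range (f a)) (by fun_prop)).of_iff fun a => by
    simp only [List.mem_range]

theorem Pi.ex_lt {n : ℕ} {p : α → ℕ → Prop} (hp : Pi n fun x : α × ℕ => p x.1 x.2)
    {f : α → ℕ} (hf : Computable f) : Pi n fun a => ∃ i < f a, p a i :=
  (Pi.bex hp (l := fun a => List.range (f a)) (by fun_prop)).of_iff fun a => by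
    simp only [List.mem_range]

/-- `Σ⁰₁` is the same as r.e. -/
theorem sig_one {p : α → Prop} : Sig 1 p ↔ REPred p := by
  constructor
  · rintro ⟨q, hq, h⟩
    refine (RE.exN (p := fun a m => ¬ q (a, m)) ?_).of_eq fun a => (h a).symm
    exact (ComputablePred.not hq).to_re
  · intro h
    obtain ⟨q, hq, h⟩ := RE.re_iff.1 h
    have hq' : Computable fun x : α × ℕ => q x.1 x.2 := hq
    refine ⟨fun x => q x.1 x.2 = false, ?_, fun a => by simp [h]⟩
    exact RE.cp_eq hq' (Computable.const false)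

theorem pi_one {p : α → Prop} : Pi 1 p ↔ REPred fun a => ¬ p a := sig_one

/-- Unique witnesses: a `Σ⁰_{k+2}` predicate is the projection of a `Π⁰_{k+1}` predicate with
unique witnesses. -/
theorem Sig.unique_witness {k : ℕ} {p : α → Prop} (h : Sig (k + 2) p) :
    ∃ Q : α × ℕ → Prop, Pi (k + 1) Q ∧ (∀ a, p a ↔ ∃ w, Q (a, w)) ∧
      ∀ a w w', Q (a, w) → Q (a, w') → w = w' := by
  obtain ⟨q, ⟨r, hr, hqr⟩, hpq⟩ := h
  let Ls : ℕ → List ℕ := fun w => Denumerable.ofNat (List ℕ) w
  have hLs : Computable Ls := Computable.ofNat _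
  have hp : ∀ a, p a ↔ ∃ m, ∀ j, r ((a, m), j) := by
    intro a
    rw [hpq]
    refine exists_congr fun m => ?_
    rw [hqr]
    push Not
    rfl
  refine ⟨fun x => (∀ j, r ((x.1, (Ls x.2).length), j)) ∧
    ∀ i < (Ls x.2).length, (¬ r ((x.1, i), ((Ls x.2)[i]?).getD 0)) ∧
      ∀ j < ((Ls x.2)[i]?).getD 0, r ((x.1, i), j), ?_, ?_, ?_⟩
  · have hget : Computable fun x : (α × ℕ) × ℕ => ((Ls x.1.2)[x.2]?).getD 0 := by
      have h1 : Computable fun x : (α × ℕ) × ℕ => (Ls x.1.2)[x.2]? := by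
        have := hLs
        fun_prop
      exact (Primrec.option_getD.comp Primrec.id (Primrec.const 0)).to_comp.comp h1
    refine Pi.and ?_ ?_
    · refine Pi.all (p := fun (x : α × ℕ) j => r ((x.1, (Ls x.2).length), j)) ?_
      refine (hr.comp (f := fun x : (α × ℕ) × ℕ => ((x.1.1, (Ls x.1.2).length), x.2)) ?_).pi
      have := hLs
      fun_prop
    · refine Pi.all_lt (p := fun (x : α × ℕ) i => (¬ r ((x.1, i), ((Ls x.2)[i]?).getD 0)) ∧
        ∀ j < ((Ls x.2)[i]?).getD 0, r ((x.1, i), j)) ?_ ?_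
      · refine Pi.and ?_ ?_
        · refine Pi.succ (Sig.not ?_)
          exact hr.comp (f := fun x : (α × ℕ) × ℕ => ((x.1.1, x.2), ((Ls x.1.2)[x.2]?).getD 0))
            (by fun_prop)
        · refine Sig.pi (Sig.all_lt (p := fun (x : (α × ℕ) × ℕ) j => r ((x.1.1, x.2), j)) ?_ hget)
          exact hr.comp (f := fun x : ((α × ℕ) × ℕ) × ℕ => ((x.1.1.1, x.1.2), x.2)) (by fun_prop)
      · have := hLs
        fun_prop
  · intro a
    rw [hp]
    constructor
    · intro hex
      classical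
      have hm := Nat.find_spec hex
      set m := Nat.find hex with hmdef
      have hlt : ∀ i < m, ∃ j, ¬ r ((a, i), j) := by
        intro i hi
        have := Nat.find_min hex hi
        push Not at this
        exact this
      let g : ℕ → ℕ := fun i => if hi : i < m then Nat.find (hlt i hi) else 0
      have hg1 : ∀ i < m, ¬ r ((a, i), g i) := by
        intro i hi
        simp only [g, hi, dif_pos]
        exact Nat.find_spec (hlt i hi)
      have hg2 : ∀ i < m, ∀ j < g i, r ((a, i), j) := by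
        intro i hi j hj
        simp only [g, hi, dif_pos] at hj
        have := Nat.find_min (hlt i hi) hj
        simpa using this
      refine ⟨encode ((List.range m).map g), ?_⟩
      have hL : Ls (encode ((List.range m).map g)) = (List.range m).map g := by
        simp [Ls]
      have hget : ∀ i < m, (((List.range m).map g)[i]?).getD 0 = g i := by
        intro i hi
        simp [hi]
      simp only [hL, List.length_map, List.length_range]
      refine ⟨hm, fun i hi => ?_⟩
      rw [hget i hi]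
      exact ⟨hg1 i hi, hg2 i hi⟩
    · rintro ⟨w, hw, -⟩
      exact ⟨_, hw⟩
  · intro a w w' hw hw'
    dsimp only at hw hw'
    have hlen : (Ls w).length = (Ls w').length := by
      rcases lt_trichotomy (Ls w).length (Ls w').length with h | h | h
      · exact absurd (hw.1 _) (hw'.2 _ h).1
      · exact h
      · exact absurd (hw'.1 _) (hw.2 _ h).1
    have hLL : Ls w = Ls w' := by
      apply List.ext_getElem?
      intro i
      by_cases hi : i < (Ls w).length
      · have hi' : i < (Ls w').length := by omega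
        have e1 : (Ls w)[i]? = some (((Ls w)[i]?).getD 0) := by
          rw [List.getElem?_eq_getElem hi]; rfl
        have e2 : (Ls w')[i]? = some (((Ls w')[i]?).getD 0) := by
          rw [List.getElem?_eq_getElem hi']; rfl
        rw [e1, e2]
        congr 1
        rcases lt_trichotomy (((Ls w)[i]?).getD 0) (((Ls w')[i]?).getD 0) with h | h | h
        · exact absurd ((hw'.2 i hi').2 _ h) (hw.2 i hi).1
        · exact h
        · exact absurd ((hw.2 i hi).2 _ h) (hw'.2 i hi').1
      · rw [List.getElem?_eq_none (by omega), List.getElem?_eq_none (by omega)]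
    have := congrArg encode hLL
    simpa [Ls] using this

/-- Uniformisation of `Σ⁰_{k+1}` relations. -/
theorem Sig.uniformize {k : ℕ} {V : α → β → Prop} (h : Sig (k + 1) fun x : α × β => V x.1 x.2) :
    ∃ U : α → β → Prop, (Sig (k + 1) fun x : α × β => U x.1 x.2) ∧ (∀ a b, U a b → V a b) ∧
      (∀ a, (∃ b, V a b) → ∃ b, U a b) ∧ ∀ a b b', U a b → U a b' → b = b' := by
  by_cases hβ : Nonempty β
  swap
  · refine ⟨V, h, fun a b h => h, fun a h => h, fun a b => absurd ⟨b⟩ hβ⟩
  obtain ⟨b0⟩ := hβ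
  obtain ⟨q, hq, hV⟩ := h
  let V' : α → ℕ → Prop := fun a w => ¬ q ((a, gd b0 w.unpair.1), w.unpair.2)
  have hV' : Pi k fun x : α × ℕ => V' x.1 x.2 := by
    refine Sig.not ?_
    exact hq.comp (f := fun x : α × ℕ => ((x.1, gd b0 x.2.unpair.1), x.2.unpair.2)) (by fun_prop)
  refine ⟨fun a b => ∃ w, V' a w ∧ (∀ w' < w, ¬ V' a w') ∧ b = gd b0 w.unpair.1, ?_, ?_, ?_, ?_⟩
  · refine Sig.exN (p := fun (x : α × β) w => V' x.1 w ∧ (∀ w' < w, ¬ V' x.1 w') ∧
      x.2 = gd b0 w.unpair.1) ?_
    refine Sig.and ?_ (Sig.and ?_ ?_)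
    · exact (hV'.comp (f := fun x : (α × β) × ℕ => (x.1.1, x.2)) (by fun_prop)).sig
    · refine Sig.all_lt (p := fun (x : (α × β) × ℕ) w' => ¬ V' x.1.1 w') ?_ (by fun_prop)
      refine Sig.succ ?_
      exact hV'.not.comp (f := fun x : ((α × β) × ℕ) × ℕ => (x.1.1.1, x.2)) (by fun_prop)
    · refine Sig.of_cp (RE.cp_eq (by fun_prop) (by fun_prop))
  · rintro a b ⟨w, hw, -, rfl⟩
    exact (hV (a, _)).2 ⟨_, hw⟩
  · rintro a ⟨b, hb⟩
    obtain ⟨m, hm⟩ := (hV (a, b)).1 hb
    classical
    have hex : ∃ w, V' a w := ⟨Nat.pair (encode b) m, by simpa [V', gd_encode] using hm⟩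
    exact ⟨_, Nat.find hex, Nat.find_spec hex, fun w' hw' => Nat.find_min hex hw', rfl⟩
  · rintro a b b' ⟨w, h1, h2, rfl⟩ ⟨w', h1', h2', rfl⟩
    have : w = w' := by
      rcases lt_trichotomy w w' with h | h | h
      · exact absurd h1 (h2' _ h)
      · exact h
      · exact absurd h1' (h2 _ h)
    rw [this]

/-- Arithmetical predicates. -/
def Arith (p : α → Prop) : Prop := ∃ n, Sig n p

theorem Arith.of_iff {p q : α → Prop} (h : Arith p) (hpq : ∀ a, p a ↔ q a) : Arith q := by
  obtain ⟨n, h⟩ := h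
  exact ⟨n, h.of_iff hpq⟩

theorem Arith.of_cp {p : α → Prop} (h : ComputablePred p) : Arith p := ⟨0, h⟩

theorem Arith.comp {p : β → Prop} (h : Arith p) {f : α → β} (hf : Computable f) :
    Arith fun a => p (f a) := by
  obtain ⟨n, h⟩ := h
  exact ⟨n, h.comp hf⟩

theorem Arith.not {p : α → Prop} (h : Arith p) : Arith fun a => ¬ p a := by
  obtain ⟨n, h⟩ := h
  exact ⟨n + 1, h.not.sig⟩

theorem Arith.and {p q : α → Prop} (hp : Arith p) (hq : Arith q) :
    Arith fun a => p a ∧ q a := by
  obtain ⟨n, hp⟩ := hp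
  obtain ⟨m, hq⟩ := hq
  exact ⟨max n m, (hp.mono (le_max_left _ _)).and (hq.mono (le_max_right _ _))⟩

theorem Arith.or {p q : α → Prop} (hp : Arith p) (hq : Arith q) :
    Arith fun a => p a ∨ q a := by
  obtain ⟨n, hp⟩ := hp
  obtain ⟨m, hq⟩ := hq
  exact ⟨max n m, (hp.mono (le_max_left _ _)).or (hq.mono (le_max_right _ _))⟩

theorem Arith.imp {p q : α → Prop} (hp : Arith p) (hq : Arith q) :
    Arith fun a => p a → q a := (hp.not.or hq).of_iff fun a => by rw [imp_iff_not_or]

theorem Arith.ex {p : α → β → Prop} (hp : Arith fun x : α × β => p x.1 x.2) :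
    Arith fun a => ∃ b, p a b := by
  obtain ⟨n, hp⟩ := hp
  exact ⟨n + 1, Sig.ex hp.succ⟩

theorem Arith.all {p : α → β → Prop} (hp : Arith fun x : α × β => p x.1 x.2) :
    Arith fun a => ∀ b, p a b :=
  (Arith.ex (p := fun a b => ¬ p a b) hp.not).not.of_iff fun a => by push Not; rfl

end Pool.Agent.Helper446.CB
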