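import Pool.Agent.Helper446.CB.Cl


namespace Pool.Agent.Helper446.CB.Ix

open Pool.Agent.Helper446.Defs Pool.Agent.Helper446.RE

section nar

open Encodable

/-- the `e`-th c.e. set of strings -/
def Wd (e : ℕ) (σ : List Bool) : Prop := ∃ s, wst (List Bool) e s σ = true

/-- the `e`-th class -/
def idx (e : ℕ) : EPi :=
  ⟨{x | ∀ n, ¬ Wd e (seg x n)}, isPi01_iff.2 ⟨{σ | Wd e σ}, wst_re e, rfl⟩⟩

theorem idx_surj (P : EPi) : ∃ e, idx e = P := by
  obtain ⟨W, hW, h⟩ := isPi01_iff.1 P.2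
  obtain ⟨e, he⟩ := wst_univ hW
  refine ⟨e, Subtype.ext ?_⟩
  rw [h]
  ext x
  change (∀ n, ¬ Wd e (seg x n)) ↔ ∀ n, seg x n ∉ W
  exact forall_congr' fun n => not_congr (he _).symm

theorem wd_re : REPred fun x : ℕ × List Bool => Wd x.1 x.2 := by
  refine exN (p := fun (x : ℕ × List Bool) s => wst (List Bool) x.1 s x.2 = true) (of_bool ?_)
  exact wst_comp.comp (f := fun p : (ℕ × ℕ) × List Bool => wst (List Bool) p.1.1 p.1.2 p.2)
    (g := fun x : (ℕ × List Bool) × ℕ => ((x.1.1, x.2), x.1.2)) (by fun_prop)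

theorem idx_ClF : ClF (0 + 1) fun e => (idx e).1 := by
  refine ⟨fun e σ => ¬ Wd e σ, ?_, fun e x => Iff.rfl⟩
  rw [zero_add, pi_one]
  simpa using wd_re

theorem arith_extIdx : Arith fun x : ℕ × List Bool => x.2 ∈ Ext (idx x.1).1 :=
  ⟨_, idx_ClF.ext.sig⟩

theorem idx_le_iff (i j : ℕ) : idx i ≤ idx j ↔
    ∀ σ : List Bool, σ ∈ Ext (idx i).1 → σ ∈ Ext (idx j).1 := by
  constructor
  · intro h σ hσ
    exact ext_mono h hσ
  · intro h x hx
    exact mem_of_ext (idx_ClF.isClosed j) fun n => h _ (seg_mem_ext hx n)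

theorem arith_le : Arith fun x : ℕ × ℕ => idx x.1 ≤ idx x.2 := by
  refine Arith.of_iff (p := fun x : ℕ × ℕ =>
    ∀ σ : List Bool, σ ∈ Ext (idx x.1).1 → σ ∈ Ext (idx x.2).1) ?_
    (fun x => (idx_le_iff x.1 x.2).symm)
  refine Arith.all (p := fun (x : ℕ × ℕ) (σ : List Bool) =>
    σ ∈ Ext (idx x.1).1 → σ ∈ Ext (idx x.2).1) ?_
  exact Arith.imp
    (arith_extIdx.comp (f := fun x : (ℕ × ℕ) × List Bool => (x.1.1, x.2)) (by fun_prop))
    (arith_extIdx.comp (f := fun x : (ℕ × ℕ) × List Bool => (x.1.2, x.2)) (by fun_prop))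

theorem arith_eq : Arith fun x : ℕ × ℕ => idx x.1 = idx x.2 :=
  (Arith.and arith_le (arith_le.comp (f := fun x : ℕ × ℕ => (x.2, x.1)) (by fun_prop))).of_iff
    fun _ => le_antisymm_iff.symm

theorem comp_getD (k : ℕ) : Computable fun x : ℕ × List ℕ => x.2.getD k 0 := by
  have h : Computable fun x : ℕ × List ℕ => (x.2[k]?).getD 0 :=
    Computable.option_getD (by fun_prop) (by fun_prop)
  exact h.of_eq fun x => by rw [List.getD_eq_getElem?_getD]

theorem term_idx {n : ℕ} (t : FirstOrder.Language.order.Term (Fin 1 ⊕ Fin n)) :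
    ∃ f : ℕ × List ℕ → ℕ, Computable f ∧ ∀ x, t.realize (Sum.elim (fun _ => idx x.1)
      (fun i : Fin n => idx (x.2.getD (n - 1 - i) 0))) = idx (f x) := by
  cases t with
  | var v =>
    rcases v with i | i
    · exact ⟨Prod.fst, Computable.fst, fun x => rfl⟩
    · exact ⟨fun x => x.2.getD (n - 1 - i) 0, comp_getD _, fun x => rfl⟩
  | func f ts => exact isEmptyElim f

theorem arith_formula {n : ℕ} (φ : FirstOrder.Language.order.BoundedFormula (Fin 1) n) :
    Arith fun x : ℕ × List ℕ => φ.Realize (fun _ => idx x.1)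
      (fun i : Fin n => idx (x.2.getD (n - 1 - i) 0)) := by
  induction φ with
  | falsum =>
    refine (Arith.of_cp (p := fun _ : ℕ × List ℕ => False) ?_).of_iff fun x => ?_
    · exact (RE.cp_eq (Computable.const ()) (Computable.const ())).not.of_eq (fun _ => by simp)
    · exact Iff.rfl
  | @equal n t1 t2 =>
    obtain ⟨f1, hf1, h1⟩ := term_idx t1
    obtain ⟨f2, hf2, h2⟩ := term_idx t2
    refine (arith_eq.comp (f := fun x => (f1 x, f2 x)) (hf1.pair hf2)).of_iff fun x => ?_
    change _ ↔ t1.realize _ = t2.realize _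
    rw [h1, h2]
  | @rel n l R ts =>
    cases R with
    | le =>
      obtain ⟨f1, hf1, h1⟩ := term_idx (ts 0)
      obtain ⟨f2, hf2, h2⟩ := term_idx (ts 1)
      refine (arith_le.comp (f := fun x => (f1 x, f2 x)) (hf1.pair hf2)).of_iff fun x => ?_
      change _ ↔ (ts 0).realize _ ≤ (ts 1).realize _
      rw [h1, h2]
  | imp f1 f2 ih1 ih2 => exact ih1.imp ih2
  | @all n f ih =>
    have h1 : Arith fun x : ℕ × List ℕ => ∀ k : ℕ, f.Realize (fun _ => idx x.1)
        (fun i : Fin (n + 1) => idx ((k :: x.2).getD (n + 1 - 1 - i) 0)) := by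
      refine Arith.all (p := fun (x : ℕ × List ℕ) (k : ℕ) => f.Realize (fun _ => idx x.1)
        (fun i : Fin (n + 1) => idx ((k :: x.2).getD (n + 1 - 1 - i) 0))) ?_
      exact ih.comp (f := fun x : (ℕ × List ℕ) × ℕ => (x.1.1, x.2 :: x.1.2)) (by fun_prop)
    refine h1.of_iff fun x => ?_
    rw [FirstOrder.Language.BoundedFormula.realize_all]
    have key : ∀ k : ℕ, (fun i : Fin (n + 1) => idx ((k :: x.2).getD (n + 1 - 1 - i) 0)) =
        Fin.snoc (α := fun _ => EPi) (fun i : Fin n => idx (x.2.getD (n - 1 - i) 0)) (idx k) := by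
      intro k
      funext i
      refine Fin.lastCases ?_ (fun j => ?_) i
      · rw [Fin.snoc_last]
        simp
      · rw [Fin.snoc_castSucc]
        have : n + 1 - 1 - ((j.castSucc : Fin (n + 1)) : ℕ) = (n - 1 - (j : ℕ)) + 1 := by
          have := j.2
          simp only [Fin.val_castSucc]
          omega
        rw [this, List.getD_cons_succ]
    constructor
    · intro h a
      obtain ⟨k, rfl⟩ := idx_surj a
      rw [← key k]
      exact h k
    · intro h k
      rw [key k]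
      exact h (idx k)

theorem wst_iff_dom {α : Type} [Primcodable α] (e : ℕ) (x : α) :
    (∃ s, wst α e s x = true) ↔
      (Nat.Partrec.Code.eval (Denumerable.ofNat Nat.Partrec.Code e) (encode x)).Dom := by
  unfold wst
  rw [Part.dom_iff_mem]
  constructor
  · rintro ⟨k, hk⟩
    obtain ⟨y, hy⟩ := Option.isSome_iff_exists.1 hk
    exact ⟨y, Nat.Partrec.Code.evaln_complete.2 ⟨k, hy⟩⟩
  · rintro ⟨y, hy⟩
    obtain ⟨k, hk⟩ := Nat.Partrec.Code.evaln_complete.1 hy
    refine ⟨k, ?_⟩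
    rw [Option.mem_def] at hk
    rw [hk]; rfl

/-- the s-m-n theorem for uniformly `Π⁰₁` families -/
theorem exists_index {K : ℕ → EPi} (h : ClF 1 fun i => (K i).1) :
    ∃ f : ℕ → ℕ, Computable f ∧ ∀ i, idx (f i) = K i := by
  obtain ⟨T, hT, h⟩ := h
  rw [pi_one] at hT
  obtain ⟨e, he⟩ := wst_univ hT
  refine ⟨fun i => encode (Nat.Partrec.Code.curry (Denumerable.ofNat Nat.Partrec.Code e) i),
    ?_, ?_⟩
  · exact Computable.encode.comp ((Nat.Partrec.Code.primrec₂_curry.comp
      (Primrec.const _) Primrec.id).to_comp)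
  · intro i
    refine Subtype.ext ?_
    ext x
    rw [h i x]
    change (∀ n, ¬ Wd _ (seg x n)) ↔ _
    refine forall_congr' fun n => ?_
    rw [← not_not (a := T i (seg x n))]
    refine not_congr ?_
    unfold Wd
    rw [wst_iff_dom, Denumerable.ofNat_encode, Nat.Partrec.Code.eval_curry]
    have h1 := he (i, seg x n)
    rw [wst_iff_dom] at h1
    exact h1.symm

theorem arith_eval : Arith fun x : ℕ × ℕ =>
    x.2 ∈ Nat.Partrec.Code.eval (Denumerable.ofNat Nat.Partrec.Code x.1) x.1 := by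
  refine Arith.of_iff (p := fun x : ℕ × ℕ => ∃ s : ℕ,
    Nat.Partrec.Code.evaln s (Denumerable.ofNat Nat.Partrec.Code x.1) x.1 = some x.2) ?_ ?_
  · refine Arith.ex (p := fun (x : ℕ × ℕ) (s : ℕ) =>
      Nat.Partrec.Code.evaln s (Denumerable.ofNat Nat.Partrec.Code x.1) x.1 = some x.2) ?_
    refine Arith.of_cp (RE.cp_eq ?_ (by fun_prop))
    have h1 : Computable fun x : (ℕ × Nat.Partrec.Code) × ℕ =>
        (Nat.Partrec.Code.evaln x.1.1 x.1.2 x.2) := Nat.Partrec.Code.primrec_evaln.to_comp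
    have h2 : Computable fun x : (ℕ × ℕ) × ℕ => Denumerable.ofNat Nat.Partrec.Code x.1.1 :=
      (Computable.ofNat Nat.Partrec.Code).comp (by fun_prop)
    exact h1.comp (((by fun_prop : Computable fun x : (ℕ × ℕ) × ℕ => x.2).pair h2).pair
      (by fun_prop))
  · intro x
    rw [Nat.Partrec.Code.evaln_complete]
    rfl

end nar

/-- A definable family of `Π⁰₁` classes has an arithmetical index set; so not all arithmetical
predicates are uniformly reducible to it. -/
theorem not_all_reducible {S : Set EPi} (hS : IsDefinable S)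
    (hred : ∀ A : ℕ → Prop, Arith A → ∃ K : ℕ → EPi, (ClF 1 fun i => (K i).1) ∧
      ∀ i, A i ↔ K i ∈ S) : False := by
  obtain ⟨φ, hφ⟩ := hS
  have hU : Arith fun e : ℕ => idx e ∈ S := by
    have h1 := arith_formula φ
    refine (h1.comp (f := fun e : ℕ => (e, ([] : List ℕ))) (by fun_prop)).of_iff fun e => ?_
    rw [hφ]
    change _ ↔ FirstOrder.Language.BoundedFormula.Realize φ (fun _ => idx e) default
    have : (fun i : Fin 0 => idx ((e, ([] : List ℕ)).2.getD (0 - 1 - i) 0)) = default :=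
      Subsingleton.elim _ _
    rw [this]
  have hA : Arith fun e : ℕ => ∀ y : ℕ,
      y ∈ Nat.Partrec.Code.eval (Denumerable.ofNat Nat.Partrec.Code e) e → ¬ (idx y ∈ S) := by
    refine Arith.all (p := fun (e y : ℕ) =>
      y ∈ Nat.Partrec.Code.eval (Denumerable.ofNat Nat.Partrec.Code e) e → ¬ (idx y ∈ S)) ?_
    exact Arith.imp arith_eval
      (hU.not.comp (f := fun x : ℕ × ℕ => x.2) (by fun_prop))
  obtain ⟨K, hK, hAK⟩ := hred _ hA
  obtain ⟨f, hf, hfK⟩ := exists_index hK
  obtain ⟨c, hc⟩ := Nat.Partrec.Code.exists_code.1 (Partrec.nat_iff.1 hf.partrec)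
  have h1 := hAK (Encodable.encode c)
  rw [← hfK, Denumerable.ofNat_encode, hc] at h1
  simp only [PFun.coe_val, Part.mem_some_iff, forall_eq] at h1
  exact iff_not_self h1.symm

end Pool.Agent.Helper446.CB.Ix

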