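import Pool.Agent.Helper446.CB.Pi01


namespace Pool.Agent.Helper446.CB.Iv

open Pool.Agent.Helper446.Defs Pool.Agent.Helper446.RE

/-- A point is in a class iff it is in all clopen classes containing it. -/
theorem mem_iff_clopen (P : EPi) (x : ℕ → Bool) :
    x ∈ P.1 ↔ ∀ C : EPi, IsClopen C.1 → P ≤ C → x ∈ C.1 := by
  constructor
  · intro hx C _ hPC
    exact hPC hx
  · intro h
    by_contra hx
    have hcl : IsOpen (P.1)ᶜ := (IsPi01.isClosed P.2).isOpen_compl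
    obtain ⟨n, hn⟩ := isOpen_iff.1 hcl x hx
    have hC : IsClopen (cyl (seg x n))ᶜ := (isClopen_cyl _).compl
    have := h ⟨_, IsPi01.of_clopen hC⟩ hC (fun y hy hy2 => hn hy2 hy)
    exact this (self_mem_cyl x n)

theorem eq_of_clopen {x y : ℕ → Bool} (H : ∀ C : EPi, IsClopen C.1 → x ∈ C.1 → y ∈ C.1) :
    x = y := by
  funext i
  have h := H ⟨_, IsPi01.of_clopen (isClopen_cyl (seg x (i + 1)))⟩ (isClopen_cyl _)
    (self_mem_cyl x (i + 1))
  have h2 : seg y (i + 1) = seg x (i + 1) := mem_cyl_seg.1 h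
  exact ((seg_eq_iff.1 h2) i (by omega)).symm

theorem map_bot (Φ : EPi ≃o EPi) : (Φ ⟨∅, IsPi01.empty⟩).1 = ∅ := by
  have h : Φ ⟨∅, IsPi01.empty⟩ ≤ ⟨∅, IsPi01.empty⟩ := by
    rw [← Φ.le_symm_apply]
    exact Set.empty_subset _
  exact Set.subset_eq_empty h rfl

theorem map_top (Φ : EPi ≃o EPi) : (Φ ⟨Set.univ, IsPi01.univ⟩).1 = Set.univ := by
  have h : (⟨Set.univ, IsPi01.univ⟩ : EPi) ≤ Φ ⟨Set.univ, IsPi01.univ⟩ := by
    rw [← Φ.symm_apply_le]
    exact Set.subset_univ _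
  exact Set.univ_subset_iff.1 h

theorem map_compl (Φ : EPi ≃o EPi) (C D : EPi) (h : D.1 = C.1ᶜ) : (Φ D).1 = (Φ C).1ᶜ := by
  have h1 : (Φ C).1 ∩ (Φ D).1 = ∅ := by
    have hX : Φ.symm ⟨(Φ C).1 ∩ (Φ D).1, IsPi01.inter (Φ C).2 (Φ D).2⟩ ≤ ⟨∅, IsPi01.empty⟩ := by
      intro x hx
      have hc : Φ.symm ⟨(Φ C).1 ∩ (Φ D).1, IsPi01.inter (Φ C).2 (Φ D).2⟩ ≤ C := by
        rw [Φ.symm_apply_le]
        exact Set.inter_subset_left
      have hd : Φ.symm ⟨(Φ C).1 ∩ (Φ D).1, IsPi01.inter (Φ C).2 (Φ D).2⟩ ≤ D := by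
        rw [Φ.symm_apply_le]
        exact Set.inter_subset_right
      have h3 : x ∈ C.1 := hc hx
      have h4 : x ∈ D.1 := hd hx
      rw [h] at h4
      exact h4 h3
    rw [Φ.symm_apply_le] at hX
    have h5 := map_bot Φ
    exact Set.subset_eq_empty hX h5
  have h2 : (Φ C).1 ∪ (Φ D).1 = Set.univ := by
    have hX : ⟨Set.univ, IsPi01.univ⟩ ≤
        Φ.symm ⟨(Φ C).1 ∪ (Φ D).1, IsPi01.union (Φ C).2 (Φ D).2⟩ := by
      intro x _
      have hc : C ≤ Φ.symm ⟨(Φ C).1 ∪ (Φ D).1, IsPi01.union (Φ C).2 (Φ D).2⟩ := by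
        rw [Φ.le_symm_apply]
        exact Set.subset_union_left
      have hd : D ≤ Φ.symm ⟨(Φ C).1 ∪ (Φ D).1, IsPi01.union (Φ C).2 (Φ D).2⟩ := by
        rw [Φ.le_symm_apply]
        exact Set.subset_union_right
      by_cases hx : x ∈ C.1
      · exact hc hx
      · refine hd ?_
        rw [h]
        exact hx
    rw [Φ.le_symm_apply] at hX
    have h5 := map_top Φ
    have h6 : (Φ ⟨Set.univ, IsPi01.univ⟩).1 ⊆ (Φ C).1 ∪ (Φ D).1 := hX
    rw [h5] at h6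
    exact Set.univ_subset_iff.1 h6
  ext x
  constructor
  · intro hx hx2
    have : x ∈ (Φ C).1 ∩ (Φ D).1 := ⟨hx2, hx⟩
    rw [h1] at this
    exact this
  · intro hx
    have : x ∈ (Φ C).1 ∪ (Φ D).1 := by rw [h2]; trivial
    rcases this with h3 | h3
    · exact (hx h3).elim
    · exact h3

theorem map_clopen (Φ : EPi ≃o EPi) (C : EPi) (hC : IsClopen C.1) : IsClopen (Φ C).1 := by
  refine ⟨IsPi01.isClosed (Φ C).2, ?_⟩
  have h := map_compl Φ C ⟨C.1ᶜ, IsPi01.of_clopen hC.compl⟩ rfl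
  have h2 : IsClosed (Φ ⟨C.1ᶜ, IsPi01.of_clopen hC.compl⟩).1 := IsPi01.isClosed (Subtype.property _)
  rw [h] at h2
  exact isClosed_compl_iff.1 h2

theorem exists_point (Φ : EPi ≃o EPi) (x : ℕ → Bool) :
    ∃ y : ℕ → Bool, ∀ C : EPi, IsClopen C.1 → (y ∈ (Φ C).1 ↔ x ∈ C.1) := by
  have hne : (⋂ C : {C : EPi // IsClopen C.1 ∧ x ∈ C.1}, (Φ C.1).1).Nonempty := by
    have : Nonempty {C : EPi // IsClopen C.1 ∧ x ∈ C.1} :=
      ⟨⟨⟨Set.univ, IsPi01.univ⟩, isClopen_univ, Set.mem_univ x⟩⟩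
    refine IsCompact.nonempty_iInter_of_directed_nonempty_isCompact_isClosed _ ?_ ?_ ?_ ?_
    · rintro ⟨C, hC, hxC⟩ ⟨D, hD, hxD⟩
      refine ⟨⟨⟨C.1 ∩ D.1, IsPi01.inter C.2 D.2⟩, hC.inter hD, hxC, hxD⟩, ?_, ?_⟩
      · exact Φ.monotone (show (⟨C.1 ∩ D.1, IsPi01.inter C.2 D.2⟩ : EPi) ≤ C from
          Set.inter_subset_left)
      · exact Φ.monotone (show (⟨C.1 ∩ D.1, IsPi01.inter C.2 D.2⟩ : EPi) ≤ D from
          Set.inter_subset_right)
    · rintro ⟨C, hC, hxC⟩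
      rw [Set.nonempty_iff_ne_empty]
      intro h
      have h1 : Φ C ≤ Φ ⟨∅, IsPi01.empty⟩ := by
        intro z hz
        have : z ∈ (Φ C).1 := hz
        rw [show (Φ C).1 = ∅ from h] at this
        exact this.elim
      rw [Φ.le_iff_le] at h1
      exact h1 hxC
    · rintro ⟨C, hC, hxC⟩
      exact (IsPi01.isClosed (Φ C).2).isCompact
    · rintro ⟨C, hC, hxC⟩
      exact IsPi01.isClosed (Φ C).2
  obtain ⟨y, hy⟩ := hne
  refine ⟨y, fun C hC => ⟨fun h => ?_, fun h => ?_⟩⟩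
  · by_contra hx
    have h1 := Set.mem_iInter.1 hy ⟨⟨C.1ᶜ, IsPi01.of_clopen hC.compl⟩, hC.compl, hx⟩
    have h2 := map_compl Φ C ⟨C.1ᶜ, IsPi01.of_clopen hC.compl⟩ rfl
    dsimp only at h1
    rw [h2] at h1
    exact h1 h
  · exact Set.mem_iInter.1 hy ⟨C, hC, h⟩

theorem continuous_of_point (Φ : EPi ≃o EPi) (h : (ℕ → Bool) → (ℕ → Bool))
    (hh : ∀ x, ∀ C : EPi, IsClopen C.1 → (h x ∈ (Φ C).1 ↔ x ∈ C.1)) : Continuous h := by
  rw [continuous_def]
  intro U hU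
  rw [isOpen_iff_forall_mem_open]
  intro x hx
  obtain ⟨n, hn⟩ := isOpen_iff.1 hU (h x) hx
  have hD : IsClopen (cyl (seg (h x) n)) := isClopen_cyl _
  obtain ⟨D, hDdef⟩ : ∃ D : EPi, D.1 = cyl (seg (h x) n) := ⟨⟨_, IsPi01.of_clopen hD⟩, rfl⟩
  rw [← hDdef] at hD
  have hC : IsClopen (Φ.symm D).1 := map_clopen Φ.symm D hD
  refine ⟨(Φ.symm D).1, ?_, hC.isOpen, ?_⟩
  · intro y hy
    have h1 := (hh y _ hC).2 hy
    rw [Φ.apply_symm_apply, hDdef] at h1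
    exact hn h1
  · rw [← hh x _ hC, Φ.apply_symm_apply, hDdef]
    exact self_mem_cyl _ _

/-- Every automorphism of the lattice of `Π⁰₁` classes is induced by a homeomorphism of Cantor
space. -/
theorem exists_homeomorph (Φ : EPi ≃o EPi) :
    ∃ h : (ℕ → Bool) ≃ₜ (ℕ → Bool), ∀ P : EPi, (Φ P).1 = h '' P.1 := by
  choose h hh using exists_point Φ
  choose g hg using exists_point Φ.symm
  have hgh : ∀ x, g (h x) = x := by
    intro x
    refine (eq_of_clopen fun C hC hx => ?_).symm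
    have h1 := (hh x C hC).2 hx
    have h2 := (hg (h x) (Φ C) (map_clopen Φ C hC)).2 h1
    rwa [Φ.symm_apply_apply] at h2
  have hhg : ∀ y, h (g y) = y := by
    intro y
    refine (eq_of_clopen fun D hD hy => ?_).symm
    have h1 := (hg y D hD).2 hy
    have h2 := (hh (g y) (Φ.symm D) (map_clopen Φ.symm D hD)).2 h1
    rwa [Φ.apply_symm_apply] at h2
  have hmem : ∀ (P : EPi) x, h x ∈ (Φ P).1 ↔ x ∈ P.1 := by
    intro P x
    rw [mem_iff_clopen (Φ P), mem_iff_clopen P]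
    constructor
    · intro H C hC hPC
      exact (hh x C hC).1 (H (Φ C) (map_clopen Φ C hC) (Φ.monotone hPC))
    · intro H D hD hPD
      have hC : IsClopen (Φ.symm D).1 := map_clopen Φ.symm D hD
      have h1 := (hh x _ hC).2 (H (Φ.symm D) hC (by rwa [Φ.le_symm_apply]))
      rwa [Φ.apply_symm_apply] at h1
  refine ⟨⟨⟨h, g, hgh, hhg⟩, continuous_of_point Φ h hh, continuous_of_point Φ.symm g hg⟩, ?_⟩
  intro P
  ext y
  constructor
  · intro hy
    refine ⟨g y, ?_, hhg y⟩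
    rw [← hmem, hhg]
    exact hy
  · rintro ⟨x, hx, rfl⟩
    exact (hmem P x).2 hx

theorem hasRank_map (Φ : EPi ≃o EPi) (P : EPi) (α : Ordinal.{0}) (hP : HasRank P.1 α) :
    HasRank (Φ P).1 α := by
  obtain ⟨h, hh⟩ := exists_homeomorph Φ
  have hcb : ∀ β, cb (Φ P).1 β = h '' cb P.1 β := by
    intro β
    rw [hh P]
    exact cb_image (IsPi01.isClosed P.2) h.continuous.continuousOn h.injective.injOn β
  refine ⟨?_, ?_⟩
  · rw [hh P]
    exact hP.1.image _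
  · have : {β : Ordinal.{0} | cb (Φ P).1 (β + 1) = ∅} =
        {β : Ordinal.{0} | cb P.1 (β + 1) = ∅} := by
      ext β
      simp only [Set.mem_ofPred_eq, hcb, Set.image_eq_empty]
    rw [this]
    exact hP.2

/-- The family of classes of rank `α` is invariant. -/
theorem invariant (α : Ordinal.{0}) : IsInvariant (R α) := by
  intro Φ
  ext Q
  constructor
  · rintro ⟨P, hP, rfl⟩
    exact hasRank_map Φ P α hP
  · intro hQ
    refine ⟨Φ.symm Q, hasRank_map Φ.symm Q α hQ, Φ.apply_symm_apply Q⟩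

end Pool.Agent.Helper446.CB.Iv
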