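import Pool.Agent.Helper446.Comp
import Pool.Agent.Helper446.CB.Basic


namespace Pool.Agent.Helper446.CB.KBr

open Pool.Agent.Helper446.Defs Pool.Agent.Helper446.RE

/-- The Kleene-Brouwer order of finite sequences. -/
def kb : List ℕ → List ℕ → Prop
  | [], _ => False
  | _ :: _, [] => True
  | x :: L, y :: M => x < y ∨ (x = y ∧ kb L M)

theorem kb_irrefl (L : List ℕ) : ¬ kb L L := by
  induction L with
  | nil => exact id
  | cons x L ih => simp [kb, ih]

theorem kb_trans : ∀ {L M N : List ℕ}, kb L M → kb M N → kb L N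
  | [], _, _, h, _ => h.elim
  | _ :: _, [], _, _, h => h.elim
  | _ :: _, _ :: _, [], _, _ => trivial
  | x :: L, y :: M, z :: N, h1, h2 => by
    simp only [kb] at h1 h2 ⊢
    rcases h1 with h1 | ⟨rfl, h1⟩
    · rcases h2 with h2 | ⟨rfl, h2⟩
      · exact Or.inl (h1.trans h2)
      · exact Or.inl h1
    · rcases h2 with h2 | ⟨rfl, h2⟩
      · exact Or.inl h2
      · exact Or.inr ⟨rfl, kb_trans h1 h2⟩

theorem kb_tri : ∀ (L M : List ℕ), kb L M ∨ L = M ∨ kb M L
  | [], [] => Or.inr (Or.inl rfl)
  | [], _ :: _ => Or.inr (Or.inr trivial)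
  | _ :: _, [] => Or.inl trivial
  | x :: L, y :: M => by
    simp only [kb, List.cons.injEq]
    rcases lt_trichotomy x y with h | h | h
    · exact Or.inl (Or.inl h)
    · rcases kb_tri L M with h' | h' | h'
      · exact Or.inl (Or.inr ⟨h, h'⟩)
      · exact Or.inr (Or.inl ⟨h, h'⟩)
      · exact Or.inr (Or.inr (Or.inr ⟨h.symm, h'⟩))
    · exact Or.inr (Or.inr (Or.inl h))

theorem kb_append (L : List ℕ) (y : ℕ) : kb (L ++ [y]) L := by
  induction L with
  | nil => exact trivial
  | cons x L ih => exact Or.inr ⟨rfl, ih⟩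

/-- `L` is a descending sequence below `x`. -/
def Desc (r : ℕ → ℕ → Prop) : ℕ → List ℕ → Prop
  | _, [] => True
  | x, y :: L => r y x ∧ Desc r y L

theorem desc_append (r : ℕ → ℕ → Prop) (y : ℕ) : ∀ (L : List ℕ) (x : ℕ), Desc r x L →
    r y (L.getLastD x) → Desc r x (L ++ [y])
  | [], _, _, h => ⟨h, trivial⟩
  | z :: L, _, h, h' => ⟨h.1, desc_append r y L z h.2 (by rwa [List.getLastD_cons] at h')⟩

theorem kb_acc (r : ℕ → ℕ → Prop) [hwf : IsWellFounded ℕ r] (x : ℕ) : ∀ L, Desc r x L →
    Acc (fun L M => Desc r x L ∧ Desc r x M ∧ kb L M) L := by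
  induction x using hwf.wf.induction with
  | _ x ih =>
    have h1 : ∀ n L, r n x → Desc r n L →
        Acc (fun L M => Desc r x L ∧ Desc r x M ∧ kb L M) (n :: L) := by
      intro n
      induction n using Nat.strong_induction_on with
      | _ n ihn =>
        intro L hn hL
        have h2 := ih n hn L hL
        induction h2 with
        | intro L _ ihL =>
          constructor
          rintro M ⟨hM, -, hkb⟩
          rcases M with _ | ⟨m, M⟩
          · exact hkb.elim
          · simp only [kb] at hkb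
            rcases hkb with hlt | ⟨rfl, hkb⟩
            · exact ihn m hlt M hM.1 hM.2
            · exact ihL M ⟨hM.2, hL, hkb⟩ hM.2
    intro L hL
    rcases L with _ | ⟨n, L⟩
    · constructor
      rintro M ⟨hM, -, hkb⟩
      rcases M with _ | ⟨m, M⟩
      · exact hkb.elim
      · exact h1 m M hM.1 hM.2
    · exact h1 n L hL.1 hL.2

/-- The Kleene-Brouwer order on the descending sequences. -/
def kbS (r : ℕ → ℕ → Prop) (a : ℕ) (L M : {L : List ℕ // Desc r a L}) : Prop := kb L.1 M.1

instance kbS_wo (r : ℕ → ℕ → Prop) [hwf : IsWellFounded ℕ r] (a : ℕ) :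
    IsWellOrder {L : List ℕ // Desc r a L} (kbS r a) where
  wf := by
    constructor
    rintro ⟨L, hL⟩
    have h := kb_acc r a L hL
    induction h with
    | intro L _ ih =>
      constructor
      rintro ⟨M, hM⟩ hkb
      exact ih M ⟨hM, hL, hkb⟩ hM
  trichotomous := by
    rintro ⟨L, hL⟩ ⟨M, hM⟩ h1 h2
    rcases kb_tri L M with h | h | h
    · exact absurd h h1
    · exact Subtype.ext h
    · exact absurd h h2

theorem rank_le_typein (r : ℕ → ℕ → Prop) [hwf : IsWellFounded ℕ r] (a : ℕ) (x : ℕ) :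
    ∀ (L : List ℕ) (hL : Desc r a L), L.getLastD a = x →
      IsWellFounded.rank r x ≤ Ordinal.typein (kbS r a) ⟨L, hL⟩ := by
  induction x using hwf.wf.induction with
  | _ x ih =>
    intro L hL hx
    rw [IsWellFounded.rank_eq]
    apply Ordinal.iSup_le
    rintro ⟨y, hy⟩
    have hLy : Desc r a (L ++ [y]) := desc_append r y L a hL (by rw [hx]; exact hy)
    have h1 := ih y hy (L ++ [y]) hLy (by simp)
    have h2 : Ordinal.typein (kbS r a) ⟨L ++ [y], hLy⟩ < Ordinal.typein (kbS r a) ⟨L, hL⟩ :=
      (Ordinal.typein_lt_typein _).2 (kb_append L y)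
    exact Order.succ_le_of_lt (lt_of_le_of_lt h1 h2)

theorem kb_iff : ∀ (L M : List ℕ), kb L M ↔ ∃ i, i < L.length ∧ (∀ j < i, L[j]? = M[j]?) ∧
    (i = M.length ∨ (i < M.length ∧ L[i]?.getD 0 < M[i]?.getD 0))
  | [], M => by simp [kb]
  | x :: L, [] => by
    simp only [kb, true_iff]
    exact ⟨0, by simp, by simp, Or.inl rfl⟩
  | x :: L, y :: M => by
    simp only [kb, kb_iff L M]
    constructor
    · rintro (h | ⟨rfl, i, h1, h2, h3⟩)
      · exact ⟨0, by simp, by simp, Or.inr ⟨by simp, by simpa using h⟩⟩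
      · refine ⟨i + 1, by simpa using h1, ?_, ?_⟩
        · intro j hj
          rcases j with _ | j
          · simp
          · simpa using h2 j (by omega)
        · rcases h3 with h3 | ⟨h3, h4⟩
          · exact Or.inl (by simpa using h3)
          · exact Or.inr ⟨by simpa using h3, by simpa using h4⟩
    · rintro ⟨i, h1, h2, h3⟩
      rcases i with _ | i
      · left
        rcases h3 with h3 | ⟨h3, h4⟩
        · simp at h3
        · simpa using h4
      · right
        refine ⟨by simpa using h2 0 (by omega), i, by simpa using h1, ?_, ?_⟩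
        · intro j hj
          simpa using h2 (j + 1) (by omega)
        · rcases h3 with h3 | ⟨h3, h4⟩
          · exact Or.inl (by simpa using h3)
          · exact Or.inr ⟨by simpa using h3, by simpa using h4⟩

theorem cp_and {α : Type} [Primcodable α] {p q : α → Prop} (hp : ComputablePred p)
    (hq : ComputablePred q) : ComputablePred fun a => p a ∧ q a := by
  obtain ⟨d1, h1⟩ := hp
  obtain ⟨d2, h2⟩ := hq
  exact ⟨fun a => inferInstance, (RE.cand h1 h2).of_eq fun a => by simp⟩

theorem kb_re : REPred fun p : List ℕ × List ℕ => kb p.1 p.2 := by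
  have h : REPred fun p : List ℕ × List ℕ => ∃ i, i < p.1.length ∧
      (∀ j < i, p.1[j]? = p.2[j]?) ∧
      (i = p.2.length ∨ (i < p.2.length ∧ p.1[i]?.getD 0 < p.2[i]?.getD 0)) := by
    refine RE.exN (p := fun (p : List ℕ × List ℕ) i => i < p.1.length ∧
      (∀ j < i, p.1[j]? = p.2[j]?) ∧
      (i = p.2.length ∨ (i < p.2.length ∧ p.1[i]?.getD 0 < p.2[i]?.getD 0))) ?_
    refine RE.and (RE.lt (by fun_prop) (by fun_prop)) (RE.and ?_ (RE.or ?_ (RE.and ?_ ?_)))
    · refine RE.all_lt (p := fun (x : (List ℕ × List ℕ) × ℕ) j => x.1.1[j]? = x.1.2[j]?) ?_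
        (by fun_prop)
      exact RE.eq (by fun_prop) (by fun_prop)
    · exact RE.eq (by fun_prop) (by fun_prop)
    · exact RE.lt (by fun_prop) (by fun_prop)
    · refine RE.lt ?_ ?_
      · exact Computable.option_getD (by fun_prop) (by fun_prop)
      · exact Computable.option_getD (by fun_prop) (by fun_prop)
  exact h.of_eq fun p => (kb_iff p.1 p.2).symm

theorem kb_cp : ComputablePred fun p : List ℕ × List ℕ => kb p.1 p.2 := by
  refine RE.cp_of_re kb_re ?_
  have h : REPred fun p : List ℕ × List ℕ => p.1 = p.2 ∨ kb p.2 p.1 := by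
    refine RE.or (RE.eq (by fun_prop) (by fun_prop)) ?_
    exact RE.comp kb_re (f := fun p : List ℕ × List ℕ => (p.2, p.1)) (by fun_prop)
  refine h.of_eq fun p => ?_
  constructor
  · rintro (h | h)
    · rw [h]; exact kb_irrefl _
    · intro h'; exact kb_irrefl _ (kb_trans h h')
  · intro h
    rcases kb_tri p.1 p.2 with h' | h' | h'
    · exact absurd h' h
    · exact Or.inl h'
    · exact Or.inr h'

theorem desc_iff (r : ℕ → ℕ → Prop) : ∀ (L : List ℕ) (a : ℕ), Desc r a L ↔
    ∀ i < L.length, r (L[i]?.getD 0) ((a :: L)[i]?.getD 0)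
  | [], a => by simp [Desc]
  | y :: L, a => by
    simp only [Desc, desc_iff r L y]
    constructor
    · rintro ⟨h1, h2⟩ i hi
      rcases i with _ | i
      · simpa using h1
      · simpa using h2 i (by simpa using hi)
    · intro h
      refine ⟨by simpa using h 0 (by simp), fun i hi => ?_⟩
      simpa using h (i + 1) (by simpa using hi)

theorem desc_cp {r : ℕ → ℕ → Prop} (hr : ComputablePred fun p : ℕ × ℕ => r p.1 p.2) (a : ℕ) :
    ComputablePred fun L : List ℕ => Desc r a L := by
  have hc : Computable fun x : List ℕ × ℕ => (x.1[x.2]?.getD 0, (a :: x.1)[x.2]?.getD 0) := by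
    refine Computable.pair ?_ ?_
    · exact Computable.option_getD (by fun_prop) (by fun_prop)
    · exact Computable.option_getD (by fun_prop) (by fun_prop)
  refine RE.cp_of_re ?_ ?_
  · have h : REPred fun L : List ℕ => ∀ i < L.length,
        r (L[i]?.getD 0) ((a :: L)[i]?.getD 0) := by
      refine RE.all_lt (p := fun (L : List ℕ) i => r (L[i]?.getD 0) ((a :: L)[i]?.getD 0)) ?_
        (by fun_prop)
      exact RE.comp hr.to_re hc
    exact h.of_eq fun L => (desc_iff r L a).symm
  · have h : REPred fun L : List ℕ => ∃ i, i < L.length ∧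
        ¬ r (L[i]?.getD 0) ((a :: L)[i]?.getD 0) := by
      refine RE.exN (p := fun (L : List ℕ) i => i < L.length ∧
        ¬ r (L[i]?.getD 0) ((a :: L)[i]?.getD 0)) ?_
      refine RE.and (RE.lt (by fun_prop) (by fun_prop)) ?_
      exact RE.comp (p := fun p : ℕ × ℕ => ¬ r p.1 p.2) hr.not.to_re hc
    refine h.of_eq fun L => ?_
    rw [desc_iff]
    push Not
    rfl

/-- The Kleene-Brouwer order of the tree of descending sequences: every ordinal below the rank of
a computable well-founded relation is computable. -/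
theorem computable_of_rank {r : ℕ → ℕ → Prop} (hr : ComputablePred fun p : ℕ × ℕ => r p.1 p.2)
    [hwf : IsWellFounded ℕ r] (a : ℕ) {β : Ordinal.{0}} (hβ : β ≤ IsWellFounded.rank r a) :
    IsComputableOrdinal β := by
  have hlt : β < Ordinal.type (kbS r a) := by
    refine lt_of_le_of_lt (hβ.trans (rank_le_typein r a a [] trivial rfl)) ?_
    exact Ordinal.typein_lt_type _ _
  obtain ⟨m, hm⟩ := Ordinal.typein_surj (kbS r a) hlt
  set D : ℕ → List ℕ := Denumerable.ofNat (List ℕ) with hD
  have hDc : Computable D := Computable.ofNat (List ℕ)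
  refine ⟨{n | Desc r a (D n) ∧ kb (D n) m.1}, fun i j => kb (D i) (D j), ?_, ?_, ?_⟩
  · refine cp_and ?_ ?_
    · exact RE.cp_comp (desc_cp hr a) hDc
    · exact RE.cp_comp kb_cp (f := fun n => (D n, m.1)) (hDc.pair (Computable.const _))
  · exact RE.cp_comp kb_cp (f := fun p : ℕ × ℕ => (D p.1, D p.2))
      ((hDc.comp Computable.fst).pair (hDc.comp Computable.snd))
  · let e : {n | Desc r a (D n) ∧ kb (D n) m.1} ≃ {b // kbS r a b m} :=
      { toFun := fun n => ⟨⟨D n.1, n.2.1⟩, n.2.2⟩
        invFun := fun b => ⟨Encodable.encode b.1.1, by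
          show Desc r a (D _) ∧ kb (D _) m.1
          rw [hD, Denumerable.ofNat_encode]
          exact ⟨b.1.2, b.2⟩⟩
        left_inv := fun n => Subtype.ext (Denumerable.encode_ofNat n.1)
        right_inv := fun b => Subtype.ext (Subtype.ext (Denumerable.ofNat_encode b.1.1)) }
    let iso : (fun i j : {n | Desc r a (D n) ∧ kb (D n) m.1} => kb (D i) (D j)) ≃r
        Subrel (kbS r a) (kbS r a · m) := ⟨e, Iff.rfl⟩
    have hwo : IsWellOrder {n | Desc r a (D n) ∧ kb (D n) m.1}
        (fun i j => kb (D i) (D j)) := iso.toRelEmbedding.isWellOrder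
    refine ⟨hwo, ?_⟩
    rw [← hm, ← Ordinal.type_subrel]
    exact Ordinal.type_eq.2 ⟨iso⟩

end Pool.Agent.Helper446.CB.KBr
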