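import Pool.Agent.Helper446.CB.Deriv


namespace Pool.Agent.Helper446.CB.RB

open Pool.Agent.Helper446.Defs Pool.Agent.Helper446.RE

/-- entry of a list of strings -/
def nthL (L : List (List Bool)) (i : ℕ) : List Bool := (L[i]?).getD []

theorem nthL_mem {L : List (List Bool)} {i : ℕ} (h : i < L.length) : nthL L i ∈ L := by
  unfold nthL
  rw [List.getElem?_eq_getElem h]
  exact List.getElem_mem h

theorem cp_and {α : Type*} [Primcodable α] {p q : α → Prop} (hp : ComputablePred p)
    (hq : ComputablePred q) : ComputablePred fun a => p a ∧ q a := by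
  refine cp_of_re (RE.and hp.to_re hq.to_re) ?_
  refine (RE.or hp.not.to_re hq.not.to_re).of_eq fun a => ?_
  tauto

theorem cp_all_lt {α : Type*} [Primcodable α] {p : α → ℕ → Prop}
    (hp : ComputablePred fun x : α × ℕ => p x.1 x.2) {f : α → ℕ}
    (hf : Computable f) : ComputablePred fun a => ∀ i < f a, p a i := by
  refine cp_of_re (RE.all_lt hp.to_re hf) ?_
  have h : REPred fun a => ∃ i, i < f a ∧ ¬ p a i := by
    refine RE.exN (p := fun a i => i < f a ∧ ¬ p a i) ?_
    exact RE.and (RE.lt (by fun_prop) (by fun_prop)) hp.not.to_re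
  refine h.of_eq fun a => ?_
  push Not
  rfl

theorem nthL_comp {α : Type*} [Primcodable α] {f : α → List (List Bool)} {g : α → ℕ}
    (hf : Computable f) (hg : Computable g) : Computable fun a => nthL (f a) (g a) := by
  have h := (Primrec.option_getD (α := List Bool)).to_comp
  have h2 : Computable fun a => ((f a)[g a]? : Option (List Bool)) := by fun_prop
  exact h.comp h2 (Computable.const [])

theorem cp_prefix {α : Type*} [Primcodable α] {f g : α → List Bool}
    (hf : Computable f) (hg : Computable g) : ComputablePred fun a => f a <+: g a := by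
  have h : ComputablePred fun a => f a = (g a).take (f a).length :=
    cp_eq hf (ctake hg (clength hf))
  refine h.of_eq fun a => ?_
  rw [List.prefix_iff_eq_take]

/-- splitting of fronts -/
def Split (T : Set (List Bool)) (L M : List (List Bool)) : Prop :=
  0 < L.length ∧ M.length = 2 * L.length ∧
    (∀ i < L.length, (nthL L i <+: nthL M (2 * i) ∧ nthL L i <+: nthL M (2 * i + 1)) ∧
      (¬ nthL M (2 * i) <+: nthL M (2 * i + 1) ∧ ¬ nthL M (2 * i + 1) <+: nthL M (2 * i))) ∧
    ∀ i < M.length, nthL M i ∈ T

/-- decoding of fronts -/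
def decL (n : ℕ) : List (List Bool) := ((Encodable.decode n : Option (List (List Bool)))).getD []

theorem decL_comp {α : Type*} [Primcodable α] {f : α → ℕ}
    (hf : Computable f) : Computable fun a => decL (f a) := by
  have h := (Primrec.option_getD (α := List (List Bool))).to_comp
  have h2 : Computable fun a => (Encodable.decode (f a) : Option (List (List Bool))) := by fun_prop
  exact h.comp h2 (Computable.const [])

theorem split_comp {T : Set (List Bool)} (hT : ComputablePred fun σ => σ ∈ T) :
    ComputablePred fun p : ℕ × ℕ => Split T (decL p.2) (decL p.1) := by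
  have hL : Computable fun p : ℕ × ℕ => decL p.2 := decL_comp (by fun_prop)
  have hM : Computable fun p : ℕ × ℕ => decL p.1 := decL_comp (by fun_prop)
  have hL' : Computable fun p : (ℕ × ℕ) × ℕ => decL p.1.2 := decL_comp (by fun_prop)
  have hM' : Computable fun p : (ℕ × ℕ) × ℕ => decL p.1.1 := decL_comp (by fun_prop)
  refine cp_and (cp_lt (Computable.const 0) (clength hL)) (cp_and (cp_eq (clength hM)
    (cmul (Computable.const 2) (clength hL))) (cp_and ?_ ?_))
  · refine cp_all_lt (p := fun p i =>
      (nthL (decL p.2) i <+: nthL (decL p.1) (2 * i) ∧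
        nthL (decL p.2) i <+: nthL (decL p.1) (2 * i + 1)) ∧
      (¬ nthL (decL p.1) (2 * i) <+: nthL (decL p.1) (2 * i + 1) ∧
        ¬ nthL (decL p.1) (2 * i + 1) <+: nthL (decL p.1) (2 * i))) ?_ (clength hL)
    have h1 := nthL_comp hL' (g := fun p => p.2) (by fun_prop)
    have h2 := nthL_comp hM' (g := fun p => 2 * p.2) (by fun_prop)
    have h3 := nthL_comp hM' (g := fun p => 2 * p.2 + 1) (by fun_prop)
    exact cp_and (cp_and (cp_prefix h1 h2) (cp_prefix h1 h3))
      (cp_and (cp_prefix h2 h3).not (cp_prefix h3 h2).not)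
  · refine cp_all_lt (p := fun p i => nthL (decL p.1) i ∈ T) ?_ (clength hM)
    exact cp_comp hT (nthL_comp hM' (by fun_prop))

/-- limit of an increasing sequence of strings -/
theorem exists_limit {s : ℕ → List Bool} (hmono : ∀ k, s k <+: s (k + 1))
    (hlen : ∀ k, k ≤ (s k).length) : ∃ x : ℕ → Bool, ∀ k, seg x (s k).length = s k := by
  have hmono' : ∀ j k, j ≤ k → s j <+: s k := by
    intro j k hjk
    induction k, hjk using Nat.le_induction with
    | base => exact List.prefix_rfl
    | succ k _ ih => exact ih.trans (hmono k)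
  refine ⟨fun i => ((s (i + 1))[i]?).getD false, ?_⟩
  intro k
  apply List.ext_getElem?
  intro i
  by_cases hi : i < (s k).length
  · rw [seg_getElem? _ hi]
    have h1 : (s (i + 1))[i]? = (s k)[i]? := by
      rcases le_total (i + 1) k with h2 | h2
      · exact (prefix_getElem? (hmono' _ _ h2) (by have := hlen (i + 1); omega)).symm
      · exact prefix_getElem? (hmono' _ _ h2) hi
    rw [h1, List.getElem?_eq_getElem hi]
    rfl
  · rw [List.getElem?_eq_none (by rw [seg_length]; omega), List.getElem?_eq_none (by omega)]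

/-- branch index -/
def bidx (b : ℕ → Bool) : ℕ → ℕ
  | 0 => 0
  | k + 1 => 2 * bidx b k + (b k).toNat

theorem split_wf {T : Set (List Bool)}
    (hpre : ∀ σ τ : List Bool, σ <+: τ → τ ∈ T → σ ∈ T)
    (hc : {x : ℕ → Bool | ∀ n, seg x n ∈ T}.Countable) (L : ℕ → List (List Bool))
    (h : ∀ k, Split T (L k) (L (k + 1))) : False := by
  have hidx : ∀ b k, bidx b k < (L k).length := by
    intro b k
    induction k with
    | zero => exact (h 0).1
    | succ k ih =>
      have h1 := (h k).2.1
      have h2 : (b k).toNat ≤ 1 := Bool.toNat_le _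
      show 2 * bidx b k + (b k).toNat < _
      omega
  have hsT : ∀ b k, nthL (L (k + 1)) (bidx b (k + 1)) ∈ T := fun b k =>
    (h k).2.2.2 _ (hidx b (k + 1))
  have hstep : ∀ b k, nthL (L k) (bidx b k) <+: nthL (L (k + 1)) (bidx b (k + 1)) ∧
      nthL (L k) (bidx b k) ≠ nthL (L (k + 1)) (bidx b (k + 1)) := by
    intro b k
    obtain ⟨⟨h1, h2⟩, h3, h4⟩ := (h k).2.2.1 _ (hidx b k)
    cases hb : b k
    · have : bidx b (k + 1) = 2 * bidx b k := by
        show 2 * bidx b k + (b k).toNat = _
        rw [hb]; rfl
      rw [this]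
      refine ⟨h1, fun he => h3 ?_⟩
      rw [← he]; exact h2
    · have : bidx b (k + 1) = 2 * bidx b k + 1 := by
        show 2 * bidx b k + (b k).toNat = _
        rw [hb]; rfl
      rw [this]
      refine ⟨h2, fun he => h4 ?_⟩
      rw [← he]; exact h1
  have hlen : ∀ b k, k ≤ (nthL (L k) (bidx b k)).length := by
    intro b k
    induction k with
    | zero => exact Nat.zero_le _
    | succ k ih =>
      obtain ⟨h1, h2⟩ := hstep b k
      have h3 := h1.length_le
      have h4 : (nthL (L k) (bidx b k)).length ≠ (nthL (L (k + 1)) (bidx b (k + 1))).length :=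
        fun he => h2 (h1.eq_of_length he)
      omega
  have hlim : ∀ b, ∃ x : ℕ → Bool, ∀ k, seg x (nthL (L k) (bidx b k)).length =
      nthL (L k) (bidx b k) := fun b =>
    exists_limit (fun k => (hstep b k).1) (hlen b)
  choose X hX using hlim
  have hXT : ∀ b n, seg (X b) n ∈ T := by
    intro b n
    have h1 := hX b (n + 1)
    refine hpre _ _ ?_ (hsT b n)
    rw [← h1]
    exact seg_prefix _ (by have := hlen b (n + 1); omega)
  have hinj : Function.Injective X := by
    intro b b' hbb
    by_contra hne
    have hex : ∃ k, b k ≠ b' k := by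
      by_contra hcon
      push Not at hcon
      exact hne (funext hcon)
    classical
    have hk := Nat.find_spec hex
    have hmin : ∀ j < Nat.find hex, b j = b' j := by
      intro j hj
      by_contra hcon
      exact Nat.find_min hex hj hcon
    set k := Nat.find hex with hkdef
    have hidxeq : ∀ j ≤ k, bidx b j = bidx b' j := by
      intro j
      induction j with
      | zero => intro _; rfl
      | succ j ih =>
        intro hj
        show 2 * bidx b j + (b j).toNat = 2 * bidx b' j + (b' j).toNat
        rw [ih (by omega), hmin j (by omega)]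
    have h0 := hidxeq k le_rfl
    obtain ⟨-, h3, h4⟩ := (h k).2.2.1 _ (hidx b k)
    have hcomp : nthL (L (k + 1)) (bidx b (k + 1)) <+: nthL (L (k + 1)) (bidx b' (k + 1)) ∨
        nthL (L (k + 1)) (bidx b' (k + 1)) <+: nthL (L (k + 1)) (bidx b (k + 1)) := by
      have h5 := hX b (k + 1)
      have h6 := hX b' (k + 1)
      rw [← hbb] at h6
      rcases le_total (nthL (L (k + 1)) (bidx b (k + 1))).length
        (nthL (L (k + 1)) (bidx b' (k + 1))).length with h7 | h7
      · exact Or.inl (eq_or_prefix h5 h6 h7)
      · exact Or.inr (eq_or_prefix h6 h5 h7)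
    have e1 : bidx b (k + 1) = 2 * bidx b k + (b k).toNat := rfl
    have e2 : bidx b' (k + 1) = 2 * bidx b k + (b' k).toNat := by rw [h0]; rfl
    rw [e1, e2] at hcomp
    cases hb : b k <;> cases hb' : b' k
    · exact hk (by rw [hb, hb'])
    · rw [hb, hb'] at hcomp
      rcases hcomp with h | h
      exacts [h3 h, h4 h]
    · rw [hb, hb'] at hcomp
      rcases hcomp with h | h
      exacts [h4 h, h3 h]
    · exact hk (by rw [hb, hb'])
  have hcount : (Set.univ : Set (ℕ → Bool)).Countable := by
    have h1 : Set.MapsTo X Set.univ {x : ℕ → Bool | ∀ n, seg x n ∈ T} := fun b _ => hXT b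
    exact Set.MapsTo.countable_of_injOn h1 hinj.injOn hc
  rw [Set.countable_univ_iff] at hcount
  obtain ⟨F, hF⟩ := exists_surjective_nat (ℕ → Bool)
  obtain ⟨n, hn⟩ := hF fun k => !(F k k)
  have := congrFun hn n
  simp at this

theorem nthL_flatMap (f g : List Bool → List Bool) (L : List (List Bool)) :
    (L.flatMap fun s => [f s, g s]).length = 2 * L.length ∧
    ∀ i < L.length, nthL (L.flatMap fun s => [f s, g s]) (2 * i) = f (nthL L i) ∧
      nthL (L.flatMap fun s => [f s, g s]) (2 * i + 1) = g (nthL L i) := by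
  induction L with
  | nil => simp
  | cons a L ih =>
    obtain ⟨h1, h2⟩ := ih
    refine ⟨?_, ?_⟩
    · rw [List.flatMap_cons, List.length_append, h1]
      simp only [List.length_cons, List.length_nil]
      omega
    · intro i hi
      rw [List.flatMap_cons]
      cases i with
      | zero => constructor <;> rfl
      | succ i =>
        have hi' : i < L.length := by simpa using hi
        obtain ⟨h3, h4⟩ := h2 i hi'
        constructor
        · rw [show 2 * (i + 1) = (2 * i) + 1 + 1 by ring]
          exact h3
        · rw [show 2 * (i + 1) + 1 = (2 * i + 1) + 1 + 1 by ring]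
          exact h4

theorem decL_encode (L : List (List Bool)) : decL (Encodable.encode L) = L := by
  unfold decL
  rw [Encodable.encodek]; rfl

/-- The Cantor-Bendixson rank of a countable `Π⁰₁` class is bounded by the rank of a computable
well-founded relation (finite attempts to build a perfect subtree). -/
theorem rank_bound {P : Set (ℕ → Bool)} (hP : IsPi01 P) (hc : P.Countable) {α : Ordinal.{0}}
    (hne : (cb P α).Nonempty) :
    ∃ (r : ℕ → ℕ → Prop) (_ : IsWellFounded ℕ r),
      (ComputablePred fun p : ℕ × ℕ => r p.1 p.2) ∧ ∃ a, α ≤ IsWellFounded.rank r a := by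
  classical
  obtain ⟨T, hT, hpre, rfl⟩ := hP
  have hwf : IsWellFounded ℕ (fun m n => Split T (decL n) (decL m)) := by
    constructor
    rw [wellFounded_iff_isEmpty_descending_chain]
    refine ⟨fun ⟨f, hf⟩ => ?_⟩
    exact split_wf hpre hc (fun k => decL (f k)) hf
  refine ⟨fun m n => Split T (decL n) (decL m), hwf, split_comp hT, ?_⟩
  have key : ∀ β : Ordinal.{0}, ∀ L : List (List Bool), 0 < L.length →
      (∀ σ ∈ L, (cb {x | ∀ n, seg x n ∈ T} β ∩ cyl σ).Nonempty) →
      β ≤ IsWellFounded.rank (fun m n => Split T (decL n) (decL m)) (Encodable.encode L) := by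
    intro β
    induction β using WellFoundedLT.induction with
    | ind β ih =>
      intro L hL hLP
      refine le_of_forall_lt fun γ hγ => ?_
      have hex : ∀ σ ∈ L, ∃ τ1 τ2 : List Bool, (σ <+: τ1 ∧ σ <+: τ2) ∧
          (¬ τ1 <+: τ2 ∧ ¬ τ2 <+: τ1) ∧ (τ1 ∈ T ∧ τ2 ∈ T) ∧
          (cb {x | ∀ n, seg x n ∈ T} γ ∩ cyl τ1).Nonempty ∧
          (cb {x | ∀ n, seg x n ∈ T} γ ∩ cyl τ2).Nonempty := by
        intro σ hσ
        obtain ⟨x, hx, hxσ⟩ := hLP σ hσ
        have hx1 : x ∈ cb {x | ∀ n, seg x n ∈ T} (γ + 1) :=
          cb_anti (Order.add_one_le_of_lt hγ) hx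
        rw [cb_succ, mem_deriv_iff] at hx1
        obtain ⟨hx2, hx3⟩ := hx1
        obtain ⟨y, hy, hyx, hseg⟩ := hx3 σ.length
        obtain ⟨j, hj⟩ : ∃ j, y j ≠ x j := by
          by_contra hcon
          push Not at hcon
          exact hyx (funext hcon)
        have hm : σ.length ≤ max σ.length (j + 1) := le_max_left _ _
        have hne' : seg x (max σ.length (j + 1)) ≠ seg y (max σ.length (j + 1)) := by
          intro he
          rw [seg_eq_iff] at he
          exact hj (he j (lt_of_lt_of_le (Nat.lt_succ_self j) (le_max_right _ _))).symm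
        rw [mem_cyl] at hxσ
        have hyσ : seg y σ.length = σ := by rw [hseg, hxσ]
        refine ⟨seg x (max σ.length (j + 1)), seg y (max σ.length (j + 1)), ⟨?_, ?_⟩, ⟨?_, ?_⟩,
          ⟨?_, ?_⟩, ?_, ?_⟩
        · conv_lhs => rw [← hxσ]
          exact seg_prefix x hm
        · conv_lhs => rw [← hyσ]
          exact seg_prefix y hm
        · intro hp
          exact hne' (hp.eq_of_length (by simp))
        · intro hp
          exact hne' (hp.eq_of_length (by simp)).symm
        · exact cb_subset _ hx2 _
        · exact cb_subset _ hy _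
        · exact ⟨x, hx2, self_mem_cyl _ _⟩
        · exact ⟨y, hy, self_mem_cyl _ _⟩
      choose! f g hfg1 hfg2 hfg3 hf4 hg4 using hex
      obtain ⟨hM1, hM2⟩ := nthL_flatMap f g L
      set M := L.flatMap fun s => [f s, g s] with hMdef
      have hM0 : 0 < M.length := by omega
      have hmem : ∀ τ ∈ M, ∃ σ ∈ L, τ = f σ ∨ τ = g σ := by
        intro τ hτ
        rw [hMdef, List.mem_flatMap] at hτ
        obtain ⟨σ, hσ, hτ⟩ := hτ
        refine ⟨σ, hσ, ?_⟩
        simpa using hτ
      have hsplit : Split T L M := by
        refine ⟨hL, hM1, fun i hi => ?_, fun i hi => ?_⟩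
        · obtain ⟨h1, h2⟩ := hM2 i hi
          rw [h1, h2]
          exact ⟨hfg1 _ (nthL_mem hi), hfg2 _ (nthL_mem hi)⟩
        · obtain ⟨σ, hσ, h1⟩ := hmem _ (nthL_mem hi)
          rcases h1 with h1 | h1
          · rw [h1]; exact (hfg3 _ hσ).1
          · rw [h1]; exact (hfg3 _ hσ).2
      have hrel : (fun m n => Split T (decL n) (decL m)) (Encodable.encode M)
          (Encodable.encode L) := by
        show Split T (decL (Encodable.encode L)) (decL (Encodable.encode M))
        rw [decL_encode, decL_encode]
        exact hsplit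
      have hlt := IsWellFounded.rank_lt_of_rel (r := fun m n => Split T (decL n) (decL m))
        (a := Encodable.encode M) (b := Encodable.encode L) hrel
      refine lt_of_le_of_lt (ih γ hγ M hM0 ?_) hlt
      intro τ hτ
      obtain ⟨σ, hσ, h1⟩ := hmem _ hτ
      rcases h1 with h1 | h1
      · rw [h1]; exact hf4 _ hσ
      · rw [h1]; exact hg4 _ hσ
  refine ⟨Encodable.encode [([] : List Bool)], key α _ (by simp) ?_⟩
  intro σ hσ
  rw [List.mem_singleton] at hσ
  subst hσ
  obtain ⟨x, hx⟩ := hne
  exact ⟨x, hx, rfl⟩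

end Pool.Agent.Helper446.CB.RB
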