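import Pool.Agent.Helper446.CB.FinDef
import Pool.Agent.Helper446.CB.Inv
import Pool.Agent.Helper446.CB.KB
import Pool.Agent.Helper446.CB.RankBound
import Pool.Agent.Helper446.CB.Index
import Pool.Agent.Helper446.CB.Exist
import Pool.Agent.Helper446.CB.Antideriv

/-!
Assembly.
-/

namespace Pool.Agent.Helper446.CB

open Pool.Agent.Helper446.Defs

/-! ### Finite ranks -/

theorem countable_of_cb_countable {P : Set (ℕ → Bool)} (n : ℕ)
    (h : (cb P (n : Ordinal.{0})).Countable) : P.Countable := by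
  induction n with
  | zero => simpa using h
  | succ n ih =>
    apply ih
    rw [cb_nat_succ] at h
    have h1 := countable_diff_deriv (cb P n)
    have h2 : cb P n ⊆ (cb P n \ deriv (cb P n)) ∪ deriv (cb P n) := by
      intro x hx
      by_cases hxd : x ∈ deriv (cb P n)
      · exact Or.inr hxd
      · exact Or.inl ⟨hx, hxd⟩
    exact (h1.union h).mono h2

theorem hasRank_nat {P : Set (ℕ → Bool)} (n : ℕ) : HasRank P n ↔
    cb P ((n + 1 : ℕ) : Ordinal.{0}) = ∅ ∧ ∀ m < n, ¬ cb P ((m + 1 : ℕ) : Ordinal.{0}) = ∅ := by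
  constructor
  · rintro ⟨-, h1, h2⟩
    refine ⟨by rw [Nat.cast_add, Nat.cast_one]; exact h1, fun m hm h3 => ?_⟩
    rw [Nat.cast_add, Nat.cast_one] at h3
    have := h2 h3
    rw [Nat.cast_le] at this
    omega
  · rintro ⟨h1, h2⟩
    refine ⟨countable_of_cb_countable (n + 1) (by rw [h1]; exact Set.countable_empty), ?_, ?_⟩
    · rw [Nat.cast_add, Nat.cast_one] at h1
      exact h1
    · intro β hβ
      by_contra hcon
      push Not at hcon
      obtain ⟨m, rfl⟩ := Ordinal.lt_omega0.1 (hcon.trans (Ordinal.natCast_lt_omega0 n))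
      rw [Nat.cast_lt] at hcon
      refine h2 m hcon ?_
      rw [Nat.cast_add, Nat.cast_one]
      exact hβ

theorem definable_nat (n : ℕ) : IsDefinable (R (n : Ordinal.{0})) := by
  have h : Def1 fun F : EPi => HasRank F.1 (n : Ordinal.{0}) := by
    intro Γ i
    refine (DefP.and (def_null (n + 1) i) (DefP.all_lt
      (R := fun m v => ¬ cb (v i).1 ((m + 1 : ℕ) : Ordinal.{0}) = ∅) n
      (fun m _ => (def_null (m + 1) i).not))).of_iff fun v => ?_
    exact (hasRank_nat n).symm
  exact isDefinable_of_def1 h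

/-! ### Infinite ranks -/

theorem antideriv_iter {ι : Type} [Primcodable ι] (n : ℕ) : ∀ {K : ι → Set (ℕ → Bool)},
    ClF (2 * n + 1) K → ∃ F : ι → Set (ℕ → Bool), ClF 1 F ∧ ∀ i,
      ∃ e : (ℕ → Bool) → (ℕ → Bool), ContinuousOn e (K i) ∧ Set.InjOn e (K i) ∧
        cb (F i) (n : Ordinal.{0}) = e '' K i := by
  induction n with
  | zero =>
    intro K hK
    refine ⟨K, hK, fun i => ⟨id, continuousOn_id, Set.injOn_id _, ?_⟩⟩
    rw [Nat.cast_zero, cb_zero, Set.image_id]
  | succ n ih =>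
    intro K hK
    obtain ⟨F', hF', h'⟩ := Ad.antideriv (m := 2 * n) (K := K) hK
    obtain ⟨F, hF, h⟩ := ih hF'
    refine ⟨F, hF, fun i => ?_⟩
    obtain ⟨e', hc', hi', he'⟩ := h' i
    obtain ⟨e, hc, hi, he⟩ := h i
    have hmaps : Set.MapsTo e' (K i) (F' i) := by
      intro x hx
      have : e' x ∈ deriv (F' i) := by rw [he']; exact ⟨x, hx, rfl⟩
      exact this.1
    refine ⟨e ∘ e', hc.comp hc' hmaps, hi.comp hi' hmaps, ?_⟩
    rw [cb_nat_succ, he, deriv_image (hF'.isClosed i) hc hi subset_rfl, he', Set.image_comp]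

theorem not_definable {α : Ordinal.{0}} (hα : Ordinal.omega0 ≤ α) (hne : (R α).Nonempty) :
    ¬ IsDefinable (R α) := by
  intro hdef
  obtain ⟨P, hP⟩ := hne
  refine Ix.not_all_reducible hdef fun A hA => ?_
  obtain ⟨n, hA⟩ := hA
  have hP1 : Cl 1 P.1 := cl_one_iff.2 P.2
  have hK : ClF (2 * n + 1) fun i : ℕ => {x | A i ∧ x ∈ P.1} := by
    obtain ⟨T, hT, h⟩ := hP1
    refine ⟨fun i σ => A i ∧ T () σ, ?_, fun i x => ?_⟩
    · refine Pi.and ?_ ?_
      · exact (hA.comp (f := fun x : ℕ × List Bool => x.1) (by fun_prop)).toPi (by omega)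
      · exact (hT.comp (f := fun x : ℕ × List Bool => ((), x.2)) (by fun_prop)).mono (by omega)
    · have := h () x
      constructor
      · rintro ⟨h1, h2⟩ k
        exact ⟨h1, this.1 h2 k⟩
      · intro h1
        exact ⟨(h1 0).1, this.2 fun k => (h1 k).2⟩
  obtain ⟨F, hF, h⟩ := antideriv_iter n hK
  refine ⟨fun i => ⟨F i, cl_one_iff.1 (hF.single i)⟩, hF, fun i => ?_⟩
  obtain ⟨e, hc, hi, he⟩ := h i
  have hclosed : IsClosed {x | A i ∧ x ∈ P.1} := hK.isClosed i
  have hcb : ∀ β : Ordinal.{0}, cb (F i) (n + β) = e '' cb {x | A i ∧ x ∈ P.1} β := by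
    intro β
    rw [← cb_add, he, cb_image hclosed hc hi]
  show A i ↔ HasRank (F i) α
  constructor
  · intro hAi
    have hKP : {x | A i ∧ x ∈ P.1} = P.1 := by
      ext x
      exact ⟨fun h => h.2, fun h => ⟨hAi, h⟩⟩
    rw [hKP] at hcb he
    refine ⟨countable_of_cb_countable n ?_, ?_, ?_⟩
    · rw [he]
      exact hP.1.image e
    · have h1 := hcb (α + 1)
      have h2 : cb P.1 (α + 1) = ∅ := hP.2.1
      rw [h2, Set.image_empty, ← add_assoc, Ordinal.natCast_add_of_omega0_le hα] at h1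
      exact h1
    · intro β hβ
      apply hP.2.2
      have hβ' : cb (F i) (β + 1) = ∅ := hβ
      have h1 : cb (F i) (n + (β + 1)) ⊆ cb (F i) (β + 1) :=
        cb_anti (le_add_of_nonneg_left (by simp))
      rw [hβ', hcb, Set.subset_empty_iff, Set.image_eq_empty] at h1
      exact h1
  · rintro ⟨-, -, h2⟩
    by_contra hAi
    have hKe : {x | A i ∧ x ∈ P.1} = ∅ := by
      ext x
      exact ⟨fun h => (hAi h.1).elim, fun h => h.elim⟩
    rw [hKe, Set.image_empty] at he
    have h3 : cb (F i) ((n : Ordinal.{0}) + 1) = ∅ := by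
      rw [cb_succ, he, deriv_empty]
    have h4 : α ≤ n := h2 h3
    exact absurd (hα.trans h4) (not_le.2 (Ordinal.natCast_lt_omega0 n))

/-! ### Which ranks occur -/

theorem exists_not_computable : ∃ α : Ordinal.{0}, ¬ IsComputableOrdinal α := by
  refine ⟨Ordinal.omega 1, ?_⟩
  rintro ⟨A, r, -, -, hwo, h⟩
  have h1 := congrArg Ordinal.card h
  rw [Ordinal.card_type, Ordinal.card_omega] at h1
  have h2 : Cardinal.mk A ≤ Cardinal.aleph0 := Cardinal.mk_le_aleph0
  rw [h1] at h2
  exact absurd h2 (not_le.2 Cardinal.aleph0_lt_aleph_one)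

theorem computable_of_lt {α : Ordinal.{0}} (h : α < omegaCK) : IsComputableOrdinal α := by
  by_contra hcon
  exact absurd (csInf_le' hcon) (not_le.2 h)

theorem lt_omegaCK {α : Ordinal.{0}} (h : ∀ β ≤ α, IsComputableOrdinal β) : α < omegaCK := by
  by_contra hcon
  push Not at hcon
  have h1 : omegaCK ∈ {α : Ordinal.{0} | ¬ IsComputableOrdinal α} :=
    csInf_mem (s := {α : Ordinal.{0} | ¬ IsComputableOrdinal α}) exists_not_computable
  exact h1 (h _ hcon)

theorem computable_zero : IsComputableOrdinal 0 := by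
  have hwf : IsWellFounded ℕ (fun _ _ : ℕ => False) := ⟨⟨fun a => ⟨a, fun _ h => h.elim⟩⟩⟩
  refine KBr.computable_of_rank (r := fun _ _ => False) ?_ 0 (by simp)
  exact (RE.cp_eq (Computable.const ()) (Computable.const ())).not.of_eq fun _ => by simp

theorem cb_rank_nonempty {P : Set (ℕ → Bool)} (hP : IsClosed P) (hne : P.Nonempty)
    {α : Ordinal.{0}} (h : HasRank P α) : (cb P α).Nonempty := by
  rw [Set.nonempty_iff_ne_empty]
  intro hcon
  rcases Ordinal.zero_or_succ_or_isSuccLimit α with rfl | ⟨β, rfl⟩ | hlim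
  · rw [cb_zero] at hcon
    exact hne.ne_empty hcon
  · have h1 : Order.succ β ≤ β := h.2.2 (by
      show cb P (β + 1) = ∅
      rwa [← Order.succ_eq_add_one])
    exact absurd h1 (not_le.2 (Order.lt_succ β))
  · obtain ⟨β, hβ, h1⟩ := cb_limit_eq_empty hP hlim hcon
    have h2 : α ≤ β := h.2.2 (by
      show cb P (β + 1) = ∅
      rw [cb_succ, h1, deriv_empty])
    exact absurd h2 (not_le.2 hβ)

theorem nonempty_iff (α : Ordinal.{0}) : (R α).Nonempty ↔ α < omegaCK := by
  constructor
  · rintro ⟨P, hP⟩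
    refine lt_omegaCK fun β hβ => ?_
    by_cases hne : P.1.Nonempty
    · obtain ⟨r, hr, hr1, a, ha⟩ := RB.rank_bound P.2 hP.1
        (cb_rank_nonempty (IsPi01.isClosed P.2) hne hP)
      exact KBr.computable_of_rank hr1 a (hβ.trans ha)
    · rw [Set.not_nonempty_iff_eq_empty] at hne
      have h0 : α ≤ 0 := hP.2.2 (by
        show cb P.1 (0 + 1) = ∅
        rw [cb_succ, cb_zero, hne, deriv_empty])
      have : β = 0 := nonpos_iff_eq_zero.1 (hβ.trans h0)
      rw [this]
      exact computable_zero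
  · intro h
    exact Ex.exists_rank (computable_of_lt h)

theorem definable_empty : IsDefinable (∅ : Set EPi) := by
  refine ⟨⊥, ?_⟩
  ext F
  simp

/-- The definability of the families `R_α`. -/
theorem definable_iff (α : Ordinal.{0}) :
    IsDefinable (R α) ↔ α < Ordinal.omega0 ∨ omegaCK ≤ α := by
  constructor
  · intro h
    by_contra hcon
    push Not at hcon
    exact not_definable hcon.1 ((nonempty_iff α).2 hcon.2) h
  · rintro (h | h)
    · obtain ⟨n, rfl⟩ := Ordinal.lt_omega0.1 h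
      exact definable_nat n
    · have : R α = ∅ := by
        rw [← Set.not_nonempty_iff_eq_empty, nonempty_iff]
        exact not_lt.2 h
      rw [this]
      exact definable_empty

end Pool.Agent.Helper446.CB
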