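import Pool.Agent.Helper446.CB.Main

/-!
Definability of finiteness and of minimality in the lattice of `Π⁰₁` classes.
-/

namespace Pool.Agent.Helper446.CB

open Pool.Agent.Helper446.Defs

/-- `P` is infinite, and every `Π⁰₁` subclass of `P` is finite or has finite complement in `P`. -/
def IsMinimal (P : EPi) : Prop :=
  P.1.Infinite ∧ ∀ Q : EPi, Q ≤ P → Q.1.Finite ∨ (P.1 \ Q.1).Finite

theorem finite_iff (P : EPi) : P.1.Finite ↔ cb P.1 ((1 : ℕ) : Ordinal.{0}) = ∅ := by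
  have hcl : IsClosed P.1 := IsPi01.isClosed P.2
  rw [Nat.cast_one, cb_one]
  constructor
  · intro h
    rw [Set.eq_empty_iff_forall_notMem]
    intro x hx
    have h2 : IsOpen (P.1 \ {x})ᶜ := (h.subset Set.sdiff_subset).isClosed.isOpen_compl
    refine hx.2 _ h2 ?_
    ext y
    constructor
    · rintro ⟨h3, h4⟩
      by_contra hne
      exact h3 ⟨h4, hne⟩
    · rintro rfl
      exact ⟨fun h => h.2 rfl, hx.1⟩
  · intro h
    have h1 : ∀ x ∈ P.1, ∃ U : Set (ℕ → Bool), IsOpen U ∧ U ∩ P.1 = {x} := by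
      intro x hx
      by_contra hcon
      push Not at hcon
      have : x ∈ deriv P.1 := ⟨hx, hcon⟩
      rw [h] at this
      exact this
    choose! U hU hUx using h1
    obtain ⟨t, ht1⟩ := hcl.isCompact.elim_finite_subcover (fun x : P.1 => U x.1)
      (fun x => hU x.1 x.2) (by
        intro x hx
        have h3 : x ∈ U x ∩ P.1 := by rw [hUx x hx]; rfl
        exact Set.mem_iUnion.2 ⟨⟨x, hx⟩, h3.1⟩)
    refine (t.finite_toSet.image fun x : P.1 => x.1).subset ?_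
    intro x hx
    obtain ⟨y, hy, hxy⟩ := Set.mem_iUnion₂.1 (ht1 hx)
    have h3 : x ∈ U y.1 ∩ P.1 := ⟨hxy, hx⟩
    rw [hUx y.1 y.2] at h3
    exact ⟨y, hy, h3.symm⟩

theorem def_finite : Def1 fun P => P.1.Finite := by
  intro Γ i
  exact (def_null 1 i).of_iff fun v => (finite_iff (v i)).symm

theorem diff_finite_iff (P Q : EPi) : (P.1 \ Q.1).Finite ↔
    ∃ E : EPi, E.1.Finite ∧ ∀ X : EPi, Q ≤ X → E ≤ X → P ≤ X := by
  constructor
  · intro h
    have h1 : ∀ x ∈ P.1 \ Q.1, ∃ n, cyl (seg x n) ⊆ (Q.1)ᶜ := fun x hx =>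
      isOpen_iff.1 (IsPi01.isClosed Q.2).isOpen_compl x hx.2
    choose! n hn using h1
    have hC : IsClopen (⋃ x ∈ P.1 \ Q.1, cyl (seg x (n x))) :=
      h.isClopen_biUnion fun x _ => isClopen_cyl _
    refine ⟨⟨P.1 ∩ ⋃ x ∈ P.1 \ Q.1, cyl (seg x (n x)), IsPi01.inter P.2 (IsPi01.of_clopen hC)⟩,
      ?_, ?_⟩
    · refine h.subset ?_
      rintro y ⟨hy, hy2⟩
      obtain ⟨x, hx, hyx⟩ := Set.mem_iUnion₂.1 hy2
      exact ⟨hy, hn x hx hyx⟩
    · intro X hQX hEX y hy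
      by_cases hyQ : y ∈ Q.1
      · exact hQX hyQ
      · refine hEX ⟨hy, Set.mem_iUnion₂.2 ⟨y, ⟨hy, hyQ⟩, self_mem_cyl y _⟩⟩
  · rintro ⟨E, hE, h⟩
    refine hE.subset ?_
    rintro y ⟨hy, hyQ⟩
    have h1 : y ∈ Q.1 ∪ E.1 := h ⟨Q.1 ∪ E.1, IsPi01.union Q.2 E.2⟩ Set.subset_union_left
      Set.subset_union_right hy
    exact h1.resolve_left hyQ

theorem def_minimal : Def1 IsMinimal := by
  intro Γ i
  refine ((def_finite i).not.and (DefP.all (R := fun (v : Γ → EPi) (Q : EPi) => Q ≤ v i →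
    Q.1.Finite ∨ ∃ E : EPi, E.1.Finite ∧ ∀ X : EPi, Q ≤ X → E ≤ X → v i ≤ X) ?_)).of_iff
    fun v => ?_
  · refine (DefP.le _ _).imp ((def_finite _).or (DefP.ex (R := fun (v : Γ ⊕ Unit → EPi)
      (E : EPi) => E.1.Finite ∧ ∀ X : EPi, v (Sum.inr ()) ≤ X → E ≤ X → v (Sum.inl i) ≤ X) ?_))
    refine (def_finite _).and (DefP.all (R := fun (v : (Γ ⊕ Unit) ⊕ Unit → EPi)
      (X : EPi) => v (Sum.inl (Sum.inr ())) ≤ X → v (Sum.inr ()) ≤ X →
      v (Sum.inl (Sum.inl i)) ≤ X) ?_)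
    exact (DefP.le _ _).imp ((DefP.le _ _).imp (DefP.le _ _))
  · refine and_congr Iff.rfl (forall_congr' fun Q => forall_congr' fun _ => or_congr Iff.rfl ?_)
    exact (diff_finite_iff (v i) Q).symm

end Pool.Agent.Helper446.CB
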