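import Pool.Agent.Helper446.CB.Coding

/-!
The semantic part of the definition of the families `{F | D^n(F) = ∅}`.
-/

namespace Pool.Agent.Helper446.CB

open Pool.Agent.Helper446.Defs

/-- `op Y X = Y ∩ closure (X \ Y)`. -/
def op (Y X : Set (ℕ → Bool)) : Set (ℕ → Bool) := Y ∩ closure (X \ Y)

theorem isClosed_op {Y X : Set (ℕ → Bool)} (hY : IsClosed Y) : IsClosed (op Y X) :=
  hY.inter isClosed_closure

/-- The chain `2^ω, F, D(F), D²(F), …`. -/
noncomputable def Fd (F : Set (ℕ → Bool)) : ℕ → Set (ℕ → Bool)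
  | 0 => Set.univ
  | i + 1 => cb F i

/-- The closed sets coded by `g`. -/
noncomputable def Gd (F g : Set (ℕ → Bool)) : ℕ → Set (ℕ → Bool)
  | 0 => g
  | i + 1 => op (Fd F (i + 1)) (Gd F g i)

theorem isClosed_Fd {F : Set (ℕ → Bool)} (hF : IsClosed F) (i : ℕ) : IsClosed (Fd F i) := by
  cases i with
  | zero => exact isClosed_univ
  | succ i => exact isClosed_cb hF i

theorem isClosed_Gd {F g : Set (ℕ → Bool)} (hF : IsClosed F) (hg : IsClosed g) (i : ℕ) :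
    IsClosed (Gd F g i) := by
  cases i with
  | zero => exact hg
  | succ i => exact isClosed_op (isClosed_Fd hF _)

theorem Fd_succ_subset {F : Set (ℕ → Bool)} (i : ℕ) : Fd F (i + 1) ⊆ Fd F i := by
  cases i with
  | zero => exact Set.subset_univ _
  | succ i =>
    show cb F ((i + 1 : ℕ) : Ordinal.{0}) ⊆ cb F i
    rw [cb_nat_succ]
    exact deriv_subset

/-- Separation of a compact set from a disjoint closed set by a clopen set. -/
theorem exists_sep {A B : Set (ℕ → Bool)} (hA : IsClosed A) (hB : IsClosed B)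
    (h : A ∩ B = ∅) : ∃ U : Set (ℕ → Bool), IsClopen U ∧ A ⊆ U ∧ U ∩ B = ∅ := by
  let U : ℕ → Set (ℕ → Bool) := fun n => {x | ∃ y ∈ A, seg y n = seg x n}
  have hU : ∀ n, IsClopen (U n) := by
    intro n
    rw [clopen_iff]
    refine ⟨n, fun x y hxy => ?_⟩
    simp only [U, Set.mem_ofPred_eq, hxy]
  have hAU : ∀ n, A ⊆ U n := fun n x hx => ⟨x, hx, rfl⟩
  by_contra hcon
  push Not at hcon
  have hne : (⋂ n, U n ∩ B).Nonempty := by
    refine IsCompact.nonempty_iInter_of_directed_nonempty_isCompact_isClosed _ ?_ ?_ ?_ ?_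
    · intro n m
      refine ⟨max n m, ?_, ?_⟩
      · rintro x ⟨⟨y, hy, hyx⟩, hx⟩
        exact ⟨⟨y, hy, seg_mono_eq hyx (le_max_left _ _)⟩, hx⟩
      · rintro x ⟨⟨y, hy, hyx⟩, hx⟩
        exact ⟨⟨y, hy, seg_mono_eq hyx (le_max_right _ _)⟩, hx⟩
    · intro n
      exact hcon (U n) (hU n) (hAU n)
    · intro n; exact ((hU n).isClosed.inter hB).isCompact
    · intro n; exact (hU n).isClosed.inter hB
  obtain ⟨x, hx⟩ := hne
  rw [Set.mem_iInter] at hx
  have hxA : x ∈ A := mem_closed_of_seg hA fun n => (hx n).1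
  have : x ∈ A ∩ B := ⟨hxA, (hx 0).2⟩
  rw [h] at this
  exact this

theorem sem_op {C X Y : Set (ℕ → Bool)} (hC : IsClopen C) (hY : IsClosed Y) :
    C ∩ op Y X = ∅ ↔ ∃ U : Set (ℕ → Bool), IsClopen U ∧
      (∀ V : Set (ℕ → Bool), IsClopen V → V ⊆ C → V ∩ U = ∅ → V ∩ Y = ∅) ∧
      ∀ V : Set (ℕ → Bool), IsClopen V → V ⊆ U → V ∩ Y = ∅ → V ∩ X = ∅ := by
  constructor
  · intro h
    obtain ⟨U, hU, h1, h2⟩ := exists_sep (hC.isClosed.inter hY) (isClosed_closure (s := X \ Y))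
      (by rw [Set.inter_assoc]; exact h)
    refine ⟨U, hU, fun V _ hVC hVU => ?_, fun V _ hVU hVY => ?_⟩
    · rw [Set.eq_empty_iff_forall_notMem] at hVU ⊢
      rintro x ⟨hxV, hxY⟩
      exact hVU x ⟨hxV, h1 ⟨hVC hxV, hxY⟩⟩
    · rw [Set.eq_empty_iff_forall_notMem] at hVY h2 ⊢
      rintro x ⟨hxV, hxX⟩
      exact h2 x ⟨hVU hxV, subset_closure ⟨hxX, fun hxY => hVY x ⟨hxV, hxY⟩⟩⟩
  · rintro ⟨U, hU, h1, h2⟩
    rw [Set.eq_empty_iff_forall_notMem]
    rintro x ⟨hxC, hxY, hxcl⟩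
    have hxU : x ∈ U := by
      by_contra hcon
      have := h1 (C ∩ Uᶜ) (hC.inter hU.compl) Set.inter_subset_left (by
        rw [Set.inter_assoc, Set.compl_inter_self, Set.inter_empty])
      rw [Set.eq_empty_iff_forall_notMem] at this
      exact this x ⟨⟨hxC, hcon⟩, hxY⟩
    obtain ⟨y, hyU, hyX, hyY⟩ := mem_closure_iff.1 hxcl U hU.isOpen hxU
    obtain ⟨n, hn⟩ := isOpen_iff.1 (hU.isOpen.inter hY.isOpen_compl) y ⟨hyU, hyY⟩
    have := h2 (cyl (seg y n)) (isClopen_cyl _) (hn.trans Set.inter_subset_left) (by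
      rw [Set.eq_empty_iff_forall_notMem]
      rintro z ⟨hz, hzY⟩
      exact (hn hz).2 hzY)
    rw [Set.eq_empty_iff_forall_notMem] at this
    exact this y ⟨self_mem_cyl y n, hyX⟩

theorem ext_univ (σ : List Bool) : σ ∈ Ext (Set.univ : Set (ℕ → Bool)) := by
  refine ⟨fun i => (σ[i]?).getD false, Set.mem_univ _, ?_⟩
  apply List.ext_getElem?
  intro i
  by_cases hi : i < σ.length
  · rw [seg_getElem? _ hi, List.getElem?_eq_getElem hi]
    rfl
  · rw [List.getElem?_eq_none (by rw [seg_length]; omega), List.getElem?_eq_none (by omega)]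

/-- A closed set all of whose points are limit points survives all derivatives. -/
theorem subset_cb_of_perfect {Q : Set (ℕ → Bool)} (hQ : deriv Q = Q) (α : Ordinal.{0}) :
    cb Q α = Q := by
  induction α using Ordinal.limitRecOn with
  | zero => simp
  | add_one β ih => rw [cb_succ, ih, hQ]
  | limit β hβ ih =>
    rw [cb_limit _ hβ]
    refine subset_antisymm ?_ ?_
    · exact (Set.iInter₂_subset 0 hβ.bot_lt).trans (by rw [cb_zero])
    · exact Set.subset_iInter₂ fun γ hγ => by rw [ih γ hγ]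

/-- If `D^{n+1}(F) = ∅` then each `F_{i+1}` is nowhere dense in `F_i`. -/
theorem nowhere_dense {F : Set (ℕ → Bool)} (hF : IsClosed F) {n : ℕ}
    (h : cb F ((n + 1 : ℕ) : Ordinal.{0}) = ∅)
    {i : ℕ} (hi : i < n + 1) {C : Set (ℕ → Bool)} (hC : IsOpen C) (hne : (C ∩ Fd F i).Nonempty) :
    ∃ x k, x ∈ Fd F i ∧ cyl (seg x k) ⊆ C ∧ cyl (seg x k) ∩ Fd F (i + 1) = ∅ := by
  cases i with
  | zero =>
    have hCF : ¬ C ⊆ F := by
      intro hCF
      have h1 := cb_mono hCF ((n + 1 : ℕ) : Ordinal.{0})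
      rw [subset_cb_of_perfect (deriv_clopen hC), h] at h1
      obtain ⟨x, hx, -⟩ := hne
      exact h1 hx
    rw [Set.not_subset] at hCF
    obtain ⟨x, hxC, hxF⟩ := hCF
    obtain ⟨k, hk⟩ := isOpen_iff.1 (hC.inter hF.isOpen_compl) x ⟨hxC, hxF⟩
    refine ⟨x, k, Set.mem_univ x, hk.trans Set.inter_subset_left, ?_⟩
    rw [Set.eq_empty_iff_forall_notMem]
    rintro y ⟨hy, hyF⟩
    have h2 : y ∈ cb F ((0 : ℕ) : Ordinal.{0}) := hyF
    rw [Nat.cast_zero, cb_zero] at h2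
    exact (hk hy).2 h2
  | succ i =>
    change (C ∩ cb F i).Nonempty at hne
    show ∃ x k, x ∈ cb F i ∧ cyl (seg x k) ⊆ C ∧
      cyl (seg x k) ∩ cb F ((i + 1 : ℕ) : Ordinal.{0}) = ∅
    rw [cb_nat_succ]
    have hQ : ¬ cb F i ∩ C ⊆ deriv (cb F i) := by
      intro hcon
      have h1 : deriv (cb F i ∩ C) = cb F i ∩ C := by
        refine subset_antisymm deriv_subset ?_
        rw [deriv_inter hC]
        exact Set.subset_inter hcon Set.inter_subset_right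
      have h2 := cb_mono (P := cb F i ∩ C) (Q := cb F i) Set.inter_subset_left
        ((n + 1 - i : ℕ) : Ordinal.{0})
      rw [subset_cb_of_perfect h1, cb_add, ← Nat.cast_add,
        Nat.add_sub_cancel' (by omega : i ≤ n + 1), h] at h2
      obtain ⟨x, hx1, hx2⟩ := hne
      exact h2 ⟨hx2, hx1⟩
    rw [Set.not_subset] at hQ
    obtain ⟨x, ⟨hx, hxC⟩, hxd⟩ := hQ
    rw [mem_deriv_iff] at hxd
    push Not at hxd
    obtain ⟨k, hk⟩ := hxd hx
    obtain ⟨l, hl⟩ := isOpen_iff.1 hC x hxC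
    refine ⟨x, max k l, hx, (cyl_seg_anti x (le_max_right _ _)).trans hl, ?_⟩
    rw [Set.eq_empty_iff_forall_notMem]
    rintro y ⟨hy, hyd⟩
    have hyx : y = x := by
      by_contra hne
      exact hk y hyd.1 hne (mem_cyl_seg.1 (cyl_seg_anti x (le_max_left _ _) hy))
    subst hyx
    rw [mem_deriv_iff] at hyd
    obtain ⟨z, hz, hne, hs⟩ := hyd.2 k
    exact hk z hz hne hs

theorem exists_code {F : Set (ℕ → Bool)} (hF : Cl 1 F) {n : ℕ}
    (hnd : ∀ i < n + 1, ∀ C : Set (ℕ → Bool), IsClopen C → (C ∩ Fd F i).Nonempty →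
      ∃ x k, x ∈ Fd F i ∧ cyl (seg x k) ⊆ C ∧ cyl (seg x k) ∩ Fd F (i + 1) = ∅) :
    ∀ m ≤ n + 1, ∀ K ⊆ Fd F m, Cl (2 * m + 1) K → ∃ g : EPi, Gd F g.1 m = K := by
  intro m
  induction m with
  | zero =>
    intro _ K _ hK
    exact ⟨⟨K, cl_one_iff.1 hK⟩, rfl⟩
  | succ m ih =>
    intro hm K hKF hK
    have hX : Sig (2 * m + 1) (fun σ : List Bool => σ ∈ Ext (Fd F m)) ∧
        Pi (2 * m + 1) (fun σ : List Bool => σ ∈ Ext (Fd F m)) := by
      cases m with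
      | zero =>
        have h1 : ComputablePred fun σ : List Bool => σ ∈ Ext (Fd F 0) :=
          (RE.cp_eq (Computable.const ()) (Computable.const ())).of_eq fun σ => by
            simp only [true_iff]
            exact ext_univ σ
        exact ⟨Sig.of_cp h1, Pi.of_cp h1⟩
      | succ j =>
        have h1 : Pi (2 * j + 1) fun σ : List Bool => σ ∈ Ext (Fd F (j + 1)) :=
          (hF.cb_nat j).ext
        exact ⟨h1.toSig (by omega), h1.mono (by omega)⟩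
    obtain ⟨G, hG1, hG2, hG3⟩ := Co.coding (k := 2 * m) (isClosed_Fd hF.isClosed m) hX.1 hX.2
      (Y := Fd F (m + 1)) (hF.cb_nat m) (Fd_succ_subset m) (K := K) hK hKF (by
        intro σ hσ
        rw [mem_ext_iff, Set.inter_comm] at hσ
        obtain ⟨x, k, h1, h2, h3⟩ := hnd m (by omega) _ (isClopen_cyl σ) hσ
        have hxσ : seg x σ.length = σ := h2 (self_mem_cyl x k)
        refine ⟨seg x (max k σ.length), ?_, seg_mem_ext h1 _, ?_⟩
        · rw [seg_prefix_iff]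
          exact ⟨le_max_right _ _, hxσ⟩
        · intro h4
          rw [mem_ext_iff] at h4
          obtain ⟨y, hy1, hy2⟩ := h4
          have : y ∈ cyl (seg x k) ∩ Fd F (m + 1) :=
            ⟨cyl_seg_anti x (le_max_left _ _) hy2, hy1⟩
          rw [h3] at this
          exact this)
    obtain ⟨g, hg⟩ := ih (by omega) G hG2 hG1
    refine ⟨g, ?_⟩
    show op (Fd F (m + 1)) (Gd F g.1 m) = K
    rw [hg]
    exact hG3

/-- The characterisation of `D^{n+1}(F) = ∅`. -/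
theorem main_equiv (F : EPi) (n : ℕ) : cb F.1 ((n + 1 : ℕ) : Ordinal.{0}) = ∅ ↔
    (∀ i < n + 1, ∀ C : EPi, IsClopen C.1 → ¬ C.1 ∩ Fd F.1 i = ∅ → ∃ C' : EPi,
      (IsClopen C'.1 ∧ C' ≤ C) ∧ ¬ C'.1 ∩ Fd F.1 i = ∅ ∧ C'.1 ∩ Fd F.1 (i + 1) = ∅) ∧
    ¬ ∃ g : EPi, (∃ C : EPi, IsClopen C.1 ∧ ¬ (IsClopen C.1 ∧ C.1 ∩ Gd F.1 g.1 (n + 1) = ∅)) ∧
      ∀ C : EPi, IsClopen C.1 → ¬ (IsClopen C.1 ∧ C.1 ∩ Gd F.1 g.1 (n + 1) = ∅) →
        ∃ C₁ : EPi, ∃ C₂ : EPi, (IsClopen C₁.1 ∧ IsClopen C₂.1) ∧ (C₁ ≤ C ∧ C₂ ≤ C) ∧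
          C₁.1 ∩ C₂.1 = ∅ ∧ ¬ C₁.1 ∩ Fd F.1 (n + 1) = ∅ ∧ ¬ C₂.1 ∩ Fd F.1 (n + 1) = ∅ := by
  have hFc : IsClosed F.1 := IsPi01.isClosed F.2
  constructor
  · intro h
    constructor
    · intro i hi C hC hne
      obtain ⟨x, k, h1, h2, h3⟩ := nowhere_dense hFc h hi hC.isOpen
        (Set.nonempty_iff_ne_empty.2 hne)
      refine ⟨⟨cyl (seg x k), IsPi01.of_clopen (isClopen_cyl _)⟩, ⟨isClopen_cyl _, h2⟩, ?_, h3⟩
      exact Set.nonempty_iff_ne_empty.1 ⟨x, self_mem_cyl x k, h1⟩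
    · rintro ⟨g, ⟨C, hC, hne⟩, h2⟩
      have hne' : (C.1 ∩ Gd F.1 g.1 (n + 1)).Nonempty := by
        rw [Set.nonempty_iff_ne_empty]
        exact fun h => hne ⟨hC, h⟩
      obtain ⟨x, -, hx⟩ := hne'
      have hxn : x ∈ cb F.1 n := hx.1
      have hxd : x ∉ deriv (cb F.1 n) := by
        rw [← cb_nat_succ, h]
        exact fun h => h
      rw [mem_deriv_iff] at hxd
      push Not at hxd
      obtain ⟨k, hk⟩ := hxd hxn
      have huniq : ∀ y ∈ cb F.1 n, y ∈ cyl (seg x k) → y = x := by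
        intro y hy hyx
        by_contra hne
        exact hk y hy hne (mem_cyl_seg.1 hyx)
      obtain ⟨C₁, C₂, -, ⟨h3, h4⟩, h5, h6, h7⟩ :=
        h2 ⟨cyl (seg x k), IsPi01.of_clopen (isClopen_cyl _)⟩ (isClopen_cyl _) (by
          rintro ⟨-, h⟩
          have h' : (cyl (seg x k) ∩ Gd F.1 g.1 (n + 1)).Nonempty := ⟨x, self_mem_cyl x k, hx⟩
          exact h'.ne_empty h)
      obtain ⟨y, hy1, hy2⟩ := Set.nonempty_iff_ne_empty.2 h6
      obtain ⟨z, hz1, hz2⟩ := Set.nonempty_iff_ne_empty.2 h7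
      rw [huniq y hy2 (h3 hy1)] at hy1
      rw [huniq z hz2 (h4 hz1)] at hz1
      have : x ∈ C₁.1 ∩ C₂.1 := ⟨hy1, hz1⟩
      rw [h5] at this
      exact this
  · rintro ⟨h1, h2⟩
    by_contra hne
    apply h2
    have hF1 : Cl 1 F.1 := cl_one_iff.2 F.2
    obtain ⟨g, hg⟩ := exists_code hF1 (n := n) (by
      intro i hi C hC hne
      obtain ⟨C', ⟨h3, h4⟩, h5, h6⟩ := h1 i hi ⟨C, IsPi01.of_clopen hC⟩ hC
        (Set.nonempty_iff_ne_empty.1 hne)
      obtain ⟨x, hx1, hx2⟩ := Set.nonempty_iff_ne_empty.2 h5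
      obtain ⟨k, hk⟩ := isOpen_iff.1 h3.isOpen x hx1
      refine ⟨x, k, hx2, hk.trans h4, ?_⟩
      rw [Set.eq_empty_iff_forall_notMem] at h6 ⊢
      rintro y ⟨hy1, hy2⟩
      exact h6 y ⟨hk hy1, hy2⟩) (n + 1) le_rfl (cb F.1 ((n + 1 : ℕ) : Ordinal.{0}))
      (Fd_succ_subset (n + 1)) (hF1.cb_nat (n + 1))
    refine ⟨g, ⟨⟨Set.univ, IsPi01.univ⟩, isClopen_univ, ?_⟩, ?_⟩
    · rintro ⟨-, h⟩
      rw [hg, Set.univ_inter] at h
      exact hne h
    · intro C hC hCne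
      have hCne' : (C.1 ∩ cb F.1 ((n + 1 : ℕ) : Ordinal.{0})).Nonempty := by
        rw [Set.nonempty_iff_ne_empty, ← hg]
        exact fun h => hCne ⟨hC, h⟩
      obtain ⟨x, hxC, hx⟩ := hCne'
      rw [cb_nat_succ, mem_deriv_iff] at hx
      obtain ⟨hx, hx2⟩ := hx
      obtain ⟨k, hk⟩ := isOpen_iff.1 hC.isOpen x hxC
      obtain ⟨y, hy, hyx, hs⟩ := hx2 k
      obtain ⟨j, hj⟩ : ∃ j, y j ≠ x j := by
        by_contra hcon
        push Not at hcon
        exact hyx (funext hcon)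
      have hyC : y ∈ cyl (seg x k) := mem_cyl_seg.2 hs
      have hyk : cyl (seg y k) ⊆ C.1 := by rw [hs]; exact hk
      refine ⟨⟨cyl (seg x (max k (j + 1))), IsPi01.of_clopen (isClopen_cyl _)⟩,
        ⟨cyl (seg y (max k (j + 1))), IsPi01.of_clopen (isClopen_cyl _)⟩,
        ⟨isClopen_cyl _, isClopen_cyl _⟩,
        ⟨(cyl_seg_anti x (le_max_left _ _)).trans hk,
          (cyl_seg_anti y (le_max_left _ _)).trans hyk⟩, ?_, ?_, ?_⟩
      · rw [Set.eq_empty_iff_forall_notMem]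
        rintro z ⟨hz1, hz2⟩
        have h3 : seg y (max k (j + 1)) = seg x (max k (j + 1)) := by
          rw [← mem_cyl_seg.1 hz1, ← mem_cyl_seg.1 hz2]
        exact hj (seg_eq_iff.1 h3 j (lt_of_lt_of_le (Nat.lt_succ_self j) (le_max_right _ _)))
      · exact Set.nonempty_iff_ne_empty.1 ⟨x, self_mem_cyl x _, hx⟩
      · exact Set.nonempty_iff_ne_empty.1 ⟨y, self_mem_cyl y _, hy⟩

end Pool.Agent.Helper446.CB
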