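import Pool.Agent.Helper446.Comp
import Pool.Agent.Helper446.CB.Basic

/-!
Initial segments of points of Cantor space, topology, Koenig's lemma.
-/

namespace Pool.Agent.Helper446.CB

open Encodable Pool.Agent.Helper446.RE Pool.Agent.Helper446.Defs

@[simp] theorem seg_length (x : ℕ → Bool) (n : ℕ) : (seg x n).length = n := by
  simp [seg]

theorem seg_getElem? (x : ℕ → Bool) {n i : ℕ} (h : i < n) : (seg x n)[i]? = some (x i) := by
  simp [seg, h]

theorem seg_eq_iff {x y : ℕ → Bool} {n : ℕ} : seg x n = seg y n ↔ ∀ i < n, x i = y i := by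
  constructor
  · intro h i hi
    have h1 := seg_getElem? x hi
    rw [h, seg_getElem? y hi] at h1
    simpa using h1.symm
  · intro h
    unfold seg
    apply List.map_congr_left
    intro i hi
    exact h i (List.mem_range.1 hi)

theorem seg_take (x : ℕ → Bool) {n m : ℕ} (h : m ≤ n) : (seg x n).take m = seg x m := by
  unfold seg
  rw [← List.map_take, List.take_range, Nat.min_eq_left h]

theorem seg_mono_eq {x y : ℕ → Bool} {n m : ℕ} (h : seg x n = seg y n) (hm : m ≤ n) :
    seg x m = seg y m := by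
  rw [← seg_take x hm, ← seg_take y hm, h]

theorem seg_zero (x : ℕ → Bool) : seg x 0 = [] := rfl

theorem seg_succ (x : ℕ → Bool) (n : ℕ) : seg x (n + 1) = seg x n ++ [x n] := by
  simp [seg, List.range_succ]

theorem ctake {α : Type*} [Primcodable α] {f : α → List Bool} {g : α → ℕ} (hf : Computable f)
    (hg : Computable g) : Computable fun a => (f a).take (g a) :=
  Primrec.list_take.to_comp.comp hg hf

theorem prefix_getElem? {l m : List Bool} (h : l <+: m) {i : ℕ} (hi : i < l.length) :
    m[i]? = l[i]? := by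
  obtain ⟨t, rfl⟩ := h
  rw [List.getElem?_append_left hi]

theorem seg_prefix (x : ℕ → Bool) {m n : ℕ} (h : m ≤ n) : seg x m <+: seg x n := by
  rw [← seg_take x h]; exact List.take_prefix _ _

/-- A prefix of an initial segment is an initial segment. -/
theorem eq_seg_of_prefix {x : ℕ → Bool} {σ : List Bool} {n : ℕ} (h : σ <+: seg x n) :
    σ = seg x σ.length := by
  have h1 : σ.length ≤ n := by simpa using h.length_le
  rw [← seg_take x h1]
  exact List.prefix_iff_eq_take.1 h

theorem seg_prefix_iff {x : ℕ → Bool} {σ : List Bool} {n : ℕ} :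
    σ <+: seg x n ↔ σ.length ≤ n ∧ seg x σ.length = σ := by
  constructor
  · intro h
    exact ⟨by simpa using h.length_le, (eq_seg_of_prefix h).symm⟩
  · rintro ⟨h1, h2⟩
    rw [← h2]
    exact seg_prefix x h1

/-- Two initial segments of one point are comparable. -/
theorem eq_or_prefix {x : ℕ → Bool} {σ τ : List Bool} (hσ : seg x σ.length = σ)
    (hτ : seg x τ.length = τ) (h : σ.length ≤ τ.length) : σ <+: τ := by
  rw [← hσ, ← hτ]
  exact seg_prefix x h

/-- All binary strings of length `n`. -/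
def allStr : ℕ → List (List Bool)
  | 0 => [[]]
  | n + 1 => (allStr n).map (fun σ => false :: σ) ++ (allStr n).map (fun σ => true :: σ)

theorem mem_allStr {n : ℕ} {σ : List Bool} : σ ∈ allStr n ↔ σ.length = n := by
  induction n generalizing σ with
  | zero => simp [allStr]
  | succ n ih =>
    cases σ with
    | nil => simp [allStr]
    | cons b σ =>
      cases b <;> simp [allStr, ih]

theorem allStr_comp : Computable allStr := by
  have hstep : Primrec₂ fun (_ : ℕ) (p : ℕ × List (List Bool)) =>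
      p.2.map (fun σ => false :: σ) ++ p.2.map (fun σ => true :: σ) := by
    refine Primrec.list_append.comp ?_ ?_
    · exact Primrec.list_map (Primrec.snd.comp Primrec.snd)
        (Primrec.list_cons.comp (Primrec.const false) Primrec.snd).to₂
    · exact Primrec.list_map (Primrec.snd.comp Primrec.snd)
        (Primrec.list_cons.comp (Primrec.const true) Primrec.snd).to₂
  have h := Primrec.nat_rec' (f := fun n : ℕ => n) (g := fun _ => ([[]] : List (List Bool)))
    Primrec.id (Primrec.const _) hstep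
  refine (h.to_comp).of_eq fun n => ?_
  induction n with
  | zero => rfl
  | succ n ih => simp only [allStr]; rw [← ih]

/-- Koenig: a node with extensions in the tree of all lengths is extendible. -/
theorem exists_path {T : Set (List Bool)} (hpre : ∀ σ τ : List Bool, σ <+: τ → τ ∈ T → σ ∈ T)
    (σ : List Bool) (h : ∀ n, ∃ τ, τ.length = n ∧ σ ++ τ ∈ T) :
    ∃ x : ℕ → Bool, (∀ n, seg x n ∈ T) ∧ seg x σ.length = σ := by
  classical
  let G : List Bool → Prop := fun σ => ∀ n, ∃ τ, τ.length = n ∧ σ ++ τ ∈ T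
  have hG : ∀ σ, G σ → ∃ b : Bool, G (σ ++ [b]) := by
    intro σ hσ
    by_contra hcon
    push Not at hcon
    have h0 := hcon false
    have h1 := hcon true
    simp only [G] at h0 h1
    push Not at h0 h1
    obtain ⟨n0, h0⟩ := h0
    obtain ⟨n1, h1⟩ := h1
    obtain ⟨τ, hτ, hτT⟩ := hσ (max n0 n1 + 1)
    cases τ with
    | nil => simp at hτ
    | cons b τ =>
      rw [List.length_cons] at hτ
      have hlen : τ.length = max n0 n1 := by omega
      have key : ∀ k, k ≤ τ.length → σ ++ [b] ++ τ.take k ∈ T := by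
        intro k _
        refine hpre _ _ ?_ hτT
        rw [List.append_assoc, List.singleton_append]
        exact (List.prefix_append_right_inj _).2
          (List.cons_prefix_cons.2 ⟨rfl, List.take_prefix _ _⟩)
      cases b
      · exact h0 (τ.take n0) (by rw [List.length_take]; omega) (key n0 (by omega))
      · exact h1 (τ.take n1) (by rw [List.length_take]; omega) (key n1 (by omega))
  choose! nb hnb using hG
  let s : ℕ → List Bool := fun k => Nat.rec (motive := fun _ => List Bool) σ
    (fun _ τ => τ ++ [nb τ]) k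
  have hs0 : s 0 = σ := rfl
  have hs1 : ∀ k, s (k + 1) = s k ++ [nb (s k)] := fun k => rfl
  have hlen : ∀ k, (s k).length = σ.length + k := by
    intro k
    induction k with
    | zero => rfl
    | succ k ih => rw [hs1, List.length_append, ih]; rfl
  have hsG : ∀ k, G (s k) := by
    intro k
    induction k with
    | zero => exact h
    | succ k ih => rw [hs1]; exact hnb _ ih
  have hsT : ∀ k, s k ∈ T := by
    intro k
    obtain ⟨τ, hτ, hT⟩ := hsG k 0
    rw [List.length_eq_zero_iff] at hτ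
    rwa [hτ, List.append_nil] at hT
  have hmono : ∀ j k, j ≤ k → s j <+: s k := by
    intro j k hjk
    induction k, hjk using Nat.le_induction with
    | base => exact List.prefix_rfl
    | succ k _ ih => rw [hs1]; exact ih.trans (List.prefix_append _ _)
  let x : ℕ → Bool := fun i => ((s (i + 1))[i]?).getD false
  have hx : ∀ k, seg x (s k).length = s k := by
    intro k
    apply List.ext_getElem?
    intro i
    by_cases hi : i < (s k).length
    · rw [seg_getElem? x hi]
      simp only [x]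
      have h1 : (s (i + 1))[i]? = (s k)[i]? := by
        rcases le_total (i + 1) k with h2 | h2
        · exact (prefix_getElem? (hmono _ _ h2) (by have := hlen (i + 1); omega)).symm
        · exact prefix_getElem? (hmono _ _ h2) hi
      rw [h1, List.getElem?_eq_getElem hi]
      rfl
    · rw [List.getElem?_eq_none (by rw [seg_length]; omega), List.getElem?_eq_none (by omega)]
  refine ⟨x, fun n => ?_, ?_⟩
  · have h1 := hx n
    have h2 : n ≤ (s n).length := by rw [hlen]; omega
    rw [← seg_take x h2, h1]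
    exact hpre _ _ (List.take_prefix _ _) (hsT n)
  · exact hx 0

/-! ### Cylinders and topology -/

/-- The cylinder of a string. -/
def cyl (σ : List Bool) : Set (ℕ → Bool) := {x | seg x σ.length = σ}

theorem mem_cyl {σ : List Bool} {x : ℕ → Bool} : x ∈ cyl σ ↔ seg x σ.length = σ := Iff.rfl

theorem mem_cyl_seg {x y : ℕ → Bool} {n : ℕ} : y ∈ cyl (seg x n) ↔ seg y n = seg x n := by
  rw [mem_cyl, seg_length]

theorem self_mem_cyl (x : ℕ → Bool) (n : ℕ) : x ∈ cyl (seg x n) := by rw [mem_cyl_seg]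

theorem cyl_anti {σ τ : List Bool} (h : σ <+: τ) : cyl τ ⊆ cyl σ := by
  intro x hx
  rw [mem_cyl] at *
  have h1 : σ <+: seg x τ.length := by rw [hx]; exact h
  exact (eq_seg_of_prefix h1).symm

theorem cyl_seg_anti (x : ℕ → Bool) {m n : ℕ} (h : m ≤ n) : cyl (seg x n) ⊆ cyl (seg x m) :=
  cyl_anti (seg_prefix x h)

theorem isClopen_cyl (σ : List Bool) : IsClopen (cyl σ) := by
  have h : cyl σ = ⋂ i ∈ Finset.range σ.length, {x : ℕ → Bool | some (x i) = σ[i]?} := by
    ext x
    simp only [mem_cyl, Finset.mem_range, Set.mem_iInter, Set.mem_ofPred_eq]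
    constructor
    · intro h i hi
      rw [← h, seg_getElem? x (by simpa using hi)]
    · intro h
      apply List.ext_getElem?
      intro i
      by_cases hi : i < σ.length
      · rw [seg_getElem? x hi, h i hi]
      · rw [List.getElem?_eq_none (by rw [seg_length]; omega), List.getElem?_eq_none (by omega)]
  rw [h]
  refine isClopen_biInter_finset fun i _ => ?_
  have h2 : {x : ℕ → Bool | some (x i) = σ[i]?} = (fun x : ℕ → Bool => x i) ⁻¹'
      {b | some b = σ[i]?} := rfl
  rw [h2]
  exact (isClopen_discrete _).preimage (continuous_apply i)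

theorem isOpen_iff {U : Set (ℕ → Bool)} : IsOpen U ↔ ∀ x ∈ U, ∃ n, cyl (seg x n) ⊆ U := by
  constructor
  · intro h x hx
    rw [isOpen_pi_iff] at h
    obtain ⟨I, u, h1, h2⟩ := h x hx
    refine ⟨I.sup id + 1, fun y hy => h2 ?_⟩
    rw [mem_cyl_seg, seg_eq_iff] at hy
    intro i hi
    have h3 : i ≤ I.sup id := Finset.le_sup (f := id) (Finset.mem_coe.1 hi)
    rw [hy i (by omega)]
    exact (h1 i hi).2
  · intro h
    rw [isOpen_iff_forall_mem_open]
    intro x hx
    obtain ⟨n, hn⟩ := h x hx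
    exact ⟨_, hn, (isClopen_cyl _).isOpen, self_mem_cyl x n⟩

theorem mem_closure_iff' {S : Set (ℕ → Bool)} {x : ℕ → Bool} :
    x ∈ closure S ↔ ∀ n, ∃ y ∈ S, seg y n = seg x n := by
  rw [mem_closure_iff]
  constructor
  · intro h n
    obtain ⟨y, hy1, hy2⟩ := h (cyl (seg x n)) (isClopen_cyl _).isOpen (self_mem_cyl x n)
    exact ⟨y, hy2, mem_cyl_seg.1 hy1⟩
  · intro h U hU hx
    obtain ⟨n, hn⟩ := isOpen_iff.1 hU x hx
    obtain ⟨y, hy, hy2⟩ := h n
    exact ⟨y, hn (mem_cyl_seg.2 hy2), hy⟩

theorem mem_closed_of_seg {K : Set (ℕ → Bool)} (hK : IsClosed K) {x : ℕ → Bool}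
    (h : ∀ n, ∃ y ∈ K, seg y n = seg x n) : x ∈ K := by
  rw [← hK.closure_eq]
  exact mem_closure_iff'.2 h

theorem mem_ext_iff {P : Set (ℕ → Bool)} {σ : List Bool} : σ ∈ Ext P ↔ (P ∩ cyl σ).Nonempty :=
  ⟨fun ⟨x, hx, h⟩ => ⟨x, hx, h⟩, fun ⟨x, hx, h⟩ => ⟨x, hx, h⟩⟩

theorem seg_mem_ext {P : Set (ℕ → Bool)} {y : ℕ → Bool} (hy : y ∈ P) (n : ℕ) :
    seg y n ∈ Ext P := ⟨y, hy, by rw [seg_length]⟩

theorem mem_of_ext {P : Set (ℕ → Bool)} (hP : IsClosed P) {y : ℕ → Bool}
    (h : ∀ n, seg y n ∈ Ext P) : y ∈ P := by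
  refine mem_closed_of_seg hP fun n => ?_
  obtain ⟨x, hx, hxy⟩ := h n
  exact ⟨x, hx, by rwa [seg_length] at hxy⟩

theorem ext_prefix {P : Set (ℕ → Bool)} {σ τ : List Bool} (h : σ <+: τ) (hτ : τ ∈ Ext P) :
    σ ∈ Ext P := by
  obtain ⟨x, hx, h1⟩ := hτ
  exact ⟨x, hx, cyl_anti h h1⟩

theorem ext_mono {P Q : Set (ℕ → Bool)} (h : P ⊆ Q) : Ext P ⊆ Ext Q := by
  rintro σ ⟨x, hx, h1⟩
  exact ⟨x, h hx, h1⟩

/-- Closed sets defined by a condition on initial segments. -/
theorem isClosed_of_seg (T : List Bool → Prop) :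
    IsClosed {x : ℕ → Bool | ∀ n, T (seg x n)} := by
  rw [← isOpen_compl_iff, isOpen_iff]
  intro x hx
  simp only [Set.mem_compl_iff, Set.mem_ofPred_eq, not_forall] at hx
  obtain ⟨n, hn⟩ := hx
  refine ⟨n, fun y hy => ?_⟩
  rw [mem_cyl_seg] at hy
  simp only [Set.mem_compl_iff, Set.mem_ofPred_eq, not_forall]
  exact ⟨n, by rwa [hy]⟩

theorem IsPi01.isClosed {P : Set (ℕ → Bool)} (hP : IsPi01 P) : IsClosed P := by
  obtain ⟨T, -, -, rfl⟩ := hP
  exact isClosed_of_seg (fun σ => σ ∈ T)

/-- A clopen set is determined by initial segments of a fixed length. -/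
theorem clopen_iff {C : Set (ℕ → Bool)} :
    IsClopen C ↔ ∃ n, ∀ x y : ℕ → Bool, seg x n = seg y n → (x ∈ C ↔ y ∈ C) := by
  constructor
  · intro h
    by_contra hcon
    push Not at hcon
    have hT : ∃ x : ℕ → Bool, (∀ n, seg x n ∈ {σ : List Bool | (∃ y ∈ C, seg y σ.length = σ) ∧
        ∃ y ∉ C, seg y σ.length = σ}) ∧ seg x ([] : List Bool).length = [] := by
      refine exists_path ?_ [] ?_
      · rintro σ τ hστ ⟨⟨y, hy, hy2⟩, z, hz, hz2⟩
        exact ⟨⟨y, hy, cyl_anti hστ hy2⟩, z, hz, cyl_anti hστ hz2⟩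
      · intro n
        obtain ⟨x, y, hxy, h1⟩ := hcon n
        refine ⟨seg x n, by simp, ?_⟩
        rw [List.nil_append]
        rcases h1 with ⟨h1, h2⟩ | ⟨h1, h2⟩
        · exact ⟨⟨x, h1, by simp⟩, y, h2, by simp [hxy]⟩
        · exact ⟨⟨y, h2, by simp [hxy]⟩, x, h1, by simp⟩
    obtain ⟨x, hx, -⟩ := hT
    by_cases hxC : x ∈ C
    · obtain ⟨n, hn⟩ := isOpen_iff.1 h.isOpen x hxC
      obtain ⟨-, y, hy, hy2⟩ := hx n
      exact hy (hn (by rw [seg_length] at hy2; exact mem_cyl_seg.2 hy2))
    · obtain ⟨n, hn⟩ := isOpen_iff.1 h.compl.isOpen x hxC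
      obtain ⟨⟨y, hy, hy2⟩, -⟩ := hx n
      exact hn (by rw [seg_length] at hy2; exact mem_cyl_seg.2 hy2) hy
  · rintro ⟨n, hn⟩
    constructor
    · rw [← isOpen_compl_iff, isOpen_iff]
      intro x hx
      refine ⟨n, fun y hy => ?_⟩
      rw [mem_cyl_seg] at hy
      rwa [Set.mem_compl_iff, hn y x hy]
    · rw [isOpen_iff]
      intro x hx
      refine ⟨n, fun y hy => ?_⟩
      rw [mem_cyl_seg] at hy
      rwa [hn y x hy]

end Pool.Agent.Helper446.CB
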